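import Pool.Agent.H74.RCM.Stmts

set_option autoImplicit false

namespace Pool.RCM

theorem ALG : ALGStmt := by
  intro α β p r k l hp0 hp1 hr0 hr1 hk hα hβ hl
  have h1 : 0 < 1 - p ^ 2 := by nlinarith
  have h2 : 0 < 1 - r ^ 2 := by nlinarith
  have hq : 0 < 1 + p * r := by positivity
  have hpr : 0 ≤ p * r := mul_nonneg hp0 hr0
  -- l ≥ p, l ≥ r
  have hlp : p ≤ l := by
    by_contra hc
    push Not at hc
    have : l * (1 + p * r) < p * (1 + p * r) := mul_lt_mul_of_pos_right hc hq
    nlinarith [mul_nonneg hr0 h1.le]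
  have hlr : r ≤ l := by
    by_contra hc
    push Not at hc
    have : l * (1 + p * r) < r * (1 + p * r) := mul_lt_mul_of_pos_right hc hq
    nlinarith [mul_nonneg hp0 h2.le]
  have hα0 : 0 < α := by
    by_contra hc
    push Not at hc
    have := mul_nonneg (neg_nonneg.2 hc) h1.le
    linarith
  have hβ0 : 0 < β := by
    by_contra hc
    push Not at hc
    have := mul_nonneg (neg_nonneg.2 hc) h2.le
    linarith
  have e1 : α * (l - p) ≤ α * (1 + k * p) * (l - p) := by
    have : 0 ≤ α * (k * p) * (l - p) :=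
      mul_nonneg (mul_nonneg hα0.le (mul_nonneg hk hp0)) (by linarith)
    nlinarith
  have e2 : β * (l - r) ≤ β * (1 + k * r) * (l - r) := by
    have : 0 ≤ β * (k * r) * (l - r) :=
      mul_nonneg (mul_nonneg hβ0.le (mul_nonneg hk hr0)) (by linarith)
    nlinarith
  -- (α (l - p)) (1 + p r) ≥ r + d
  set d := l * (1 + p * r) - (p + r) with hd
  have hd0 : 0 ≤ d := by rw [hd]; linarith
  have f1 : r + d ≤ α * (l - p) * (1 + p * r) := by
    have e : (l - p) * (1 + p * r) = r * (1 - p ^ 2) + d := by rw [hd]; ring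
    have hα1 : 1 ≤ α := by nlinarith
    calc r + d ≤ r * (α * (1 - p ^ 2)) + α * d := by nlinarith
      _ = α * ((l - p) * (1 + p * r)) := by rw [e]; ring
      _ = _ := by ring
  have f2 : p + d ≤ β * (l - r) * (1 + p * r) := by
    have e : (l - r) * (1 + p * r) = p * (1 - r ^ 2) + d := by rw [hd]; ring
    have hβ1 : 1 ≤ β := by nlinarith
    calc p + d ≤ p * (β * (1 - r ^ 2)) + β * d := by nlinarith
      _ = β * ((l - r) * (1 + p * r)) := by rw [e]; ring
      _ = _ := by ring
  have f3 : l * (1 + p * r) ≤ (α * (l - p) + β * (l - r)) * (1 + p * r) := by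
    have : l * (1 + p * r) = p + r + d := by rw [hd]; ring
    nlinarith
  have f4 : l ≤ α * (l - p) + β * (l - r) := le_of_mul_le_mul_right f3 hq
  linarith

end Pool.RCM
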