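import Pool.Agent.H74.RCM.Stmts

/-!
# RCM, row BRI: an edge which is a bridge
-/

set_option autoImplicit false

namespace Pool.RCM

open scoped Classical
open Finset

namespace BRIAux

lemma conn_mono {V E : Type} {a b : E → V} {s t : Set E} (hst : s ⊆ t) {u v : V}
    (h : Conn a b s u v) : Conn a b t u v := by
  induction h with
  | refl => exact Relation.ReflTransGen.refl
  | tail _ hstep ih =>
    obtain ⟨e, he, hj⟩ := hstep
    exact Relation.ReflTransGen.tail ih ⟨e, hst he, hj⟩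

lemma upd_self {E : Type} (J : E → ℝ) (e : E) (t : ℝ) : upd J e t e = t := by
  simp [upd]

lemma wst_zero (s : St) (hs : s ≠ none) : wst 0 s = 0 := by
  rcases s with _ | ⟨p, q⟩
  · exact absurd rfl hs
  · cases p <;> cases q <;> simp [wst]

lemma fs_zero (hHS2 : HS2Stmt) {V E : Type} [Fintype V] [Fintype E] (a b : E → V) (J : E → ℝ)
    (e : E) (hbr : Bridge a b e) (hne : a e ≠ b e) (S₁ S₂ : Finset V) (D : Set E → Prop)
    (h : S₁ = {a e, b e} ∨ S₂ = {a e, b e}) : FS a b (upd J e 0) S₁ S₂ D = 0 := by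
  unfold FS
  apply Finset.sum_eq_zero
  intro ω _
  split_ifs with hω
  · obtain ⟨h1, h2, -⟩ := hω
    by_cases hω0 : ω e = none
    · exfalso
      rcases h with h | h
      · rw [h] at h1
        refine hbr (conn_mono ?_ (hHS2 V E a b (par1 ω) (a e) (b e) hne h1))
        intro f hf hfe
        have hz : par1 ω f = 0 := by rw [hfe]; simp only [par1, hω0]
        have hf' : 0 < par1 ω f := hf
        omega
      · rw [h] at h2
        refine hbr (conn_mono ?_ (hHS2 V E a b (par2 ω) (a e) (b e) hne h2))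
        intro f hf hfe
        have hz : par2 ω f = 0 := by rw [hfe]; simp only [par2, hω0]
        have hf' : 0 < par2 ω f := hf
        omega
    · apply Finset.prod_eq_zero (Finset.mem_univ e)
      rw [upd_self]
      exact wst_zero _ hω0
  · rfl

lemma zc_zero (hHS2 : HS2Stmt) {V E : Type} [Fintype V] [Fintype E] (a b : E → V) (J : E → ℝ)
    (e : E) (hbr : Bridge a b e) (hne : a e ≠ b e) : Zc a b (upd J e 0) {a e, b e} = 0 := by
  unfold Zc
  apply Finset.sum_eq_zero
  intro η _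
  split_ifs with hη
  · by_cases hη0 : η e = true
    · apply Finset.prod_eq_zero (Finset.mem_univ e)
      rw [upd_self, hη0]
      simp
    · exfalso
      refine hbr (conn_mono ?_ (hHS2 V E a b (fun e => if η e then 1 else 0) (a e) (b e) hne hη))
      intro f hf hfe
      have hf' : 0 < (if η f then 1 else 0 : ℕ) := hf
      rw [hfe, if_neg hη0] at hf'
      omega
  · rfl

lemma sepd_mono {V E : Type} {a b : E → V} {A B : Set V} {s t : Set E} (hst : s ⊆ t)
    (h : Sepd a b A B t) : Sepd a b A B s := by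
  rintro ⟨u, hu, v, hv, hc⟩
  exact h ⟨u, hu, v, hv, conn_mono hst hc⟩

end BRIAux

theorem BRI (hSPL : SPLStmt) (hSPZ : SPZStmt) (hHS2 : HS2Stmt) (hNNG : NNGStmt) : BRIStmt := by
  intro V E _ _ a b J e A B hJ hbr
  have hne : a e ≠ b e := by
    intro h
    apply hbr
    rw [h]
    exact Relation.ReflTransGen.refl
  have hJ0 : ∀ f, 0 ≤ upd J e 0 f := by
    intro f
    unfold upd
    split_ifs
    · exact le_rfl
    · exact hJ f
  have hs : 0 ≤ Real.sinh (J e) := Real.sinh_nonneg_iff.2 (hJ e)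
  have hdd : symmDiff ({a e, b e} : Finset V) {a e, b e} = ∅ := symmDiff_self _
  have hd0 : symmDiff (∅ : Finset V) {a e, b e} = {a e, b e} := by
    exact bot_symmDiff ({a e, b e} : Finset V)
  have X := hSPL V E a b J e {a e, b e} ∅ (Sepd a b A B) hne
  rw [hdd, hd0,
    BRIAux.fs_zero hHS2 a b J e hbr hne {a e, b e} ∅ (Sepd a b A B) (Or.inl rfl),
    BRIAux.fs_zero hHS2 a b J e hbr hne {a e, b e} ∅ (fun s => Sepd a b A B (insert e s))
      (Or.inl rfl),
    BRIAux.fs_zero hHS2 a b J e hbr hne {a e, b e} {a e, b e}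
      (fun s => Sepd a b A B (insert e s)) (Or.inl rfl),
    BRIAux.fs_zero hHS2 a b J e hbr hne ∅ {a e, b e} (fun s => Sepd a b A B (insert e s))
      (Or.inr rfl)] at X
  have S := hSPL V E a b J e ∅ ∅ (Sepd a b A B) hne
  rw [hd0,
    BRIAux.fs_zero hHS2 a b J e hbr hne {a e, b e} ∅ (fun s => Sepd a b A B (insert e s))
      (Or.inl rfl),
    BRIAux.fs_zero hHS2 a b J e hbr hne {a e, b e} {a e, b e}
      (fun s => Sepd a b A B (insert e s)) (Or.inl rfl),
    BRIAux.fs_zero hHS2 a b J e hbr hne ∅ {a e, b e} (fun s => Sepd a b A B (insert e s))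
      (Or.inr rfl)] at S
  have Z := hSPZ V E a b J e ∅ hne
  rw [hd0, BRIAux.zc_zero hHS2 a b J e hbr hne] at Z
  have Y := hSPZ V E a b J e {a e, b e} hne
  rw [hdd, BRIAux.zc_zero hHS2 a b J e hbr hne] at Y
  obtain ⟨hZ0, -, -, -, hmono⟩ := hNNG V E a b (upd J e 0) hJ0
  have hF : FS a b (upd J e 0) ∅ ∅ (fun s => Sepd a b A B (insert e s)) ≤
      FS a b (upd J e 0) ∅ ∅ (Sepd a b A B) :=
    hmono ∅ ∅ _ _ (fun s h => BRIAux.sepd_mono (Set.subset_insert e s) h)
  unfold Key
  rw [X, S, Z, Y]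
  set F0 := FS a b (upd J e 0) ∅ ∅ (Sepd a b A B)
  set F1 := FS a b (upd J e 0) ∅ ∅ (fun s => Sepd a b A B (insert e s))
  set Z0 := Zc a b (upd J e 0) ∅
  have hcs := Real.cosh_sq (J e)
  have hfin : 0 ≤ Real.sinh (J e) * Z0 * (F0 - F1) :=
    mul_nonneg (mul_nonneg hs hZ0.le) (sub_nonneg.2 hF)
  have hid : (F0 + Real.sinh (J e) ^ 2 * F1 + Real.sinh (J e) * Real.cosh (J e) * 0 +
      Real.sinh (J e) * Real.cosh (J e) * 0 + Real.sinh (J e) ^ 2 * 0) *
      (Real.cosh (J e) * 0 + Real.sinh (J e) * Z0) -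
      (0 + Real.sinh (J e) ^ 2 * 0 + Real.sinh (J e) * Real.cosh (J e) * F1 +
      Real.sinh (J e) * Real.cosh (J e) * 0 + Real.sinh (J e) ^ 2 * 0) *
      (Real.cosh (J e) * Z0 + Real.sinh (J e) * 0) = Real.sinh (J e) * Z0 * (F0 - F1) := by
    linear_combination (-(Real.sinh (J e) * Z0 * F1)) * hcs
  linarith

end Pool.RCM
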