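import Pool.Agent.H74.RCM.Stmts

set_option autoImplicit false

namespace Pool.RCM

open scoped Classical
open Finset

theorem CAR : CARStmt := by
  intro V E _ _ a b J B S T hB
  have hw0 : ∀ s : St, s ≠ none → wst 0 s = 0 := by
    intro s hs
    rcases s with _ | ⟨p, q⟩
    · exact absurd rfl hs
    · cases p <;> cases q <;> simp [wst]
  split_ifs with hd
  · unfold cA
    refine Finset.sum_congr rfl fun ω _ => ?_
    by_cases h : IsSrc a b (par1 ω) ∅ ∧ IsSrc a b (par2 ω) ∅ ∧ Cl a b B (supp ω) = T ∧
      supp ω ⊆ Ein a b T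
    · rw [if_pos h, if_pos h]
      refine Finset.prod_congr rfl fun e _ => ?_
      by_cases he : ω e = none
      · rw [he]; simp [wst]
      · have h1 := h.2.2.2 (show e ∈ supp ω from he)
        have h2 : a e ∈ T ∧ b e ∈ T := h1
        have h3 : a e ∈ Sᶜ ∧ b e ∈ Sᶜ := by
          rw [Finset.mem_compl, Finset.mem_compl]
          exact ⟨Finset.disjoint_right.mp hd h2.1, Finset.disjoint_right.mp hd h2.2⟩
        have : res a b J Sᶜ e = J e := by
          unfold res
          rw [if_pos h3]
        rw [this]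
    · rw [if_neg h, if_neg h]
  · rw [Finset.not_disjoint_iff] at hd
    obtain ⟨v, hvS, hvT⟩ := hd
    unfold cA
    refine Finset.sum_eq_zero fun ω _ => ?_
    by_cases h : IsSrc a b (par1 ω) ∅ ∧ IsSrc a b (par2 ω) ∅ ∧ Cl a b B (supp ω) = T ∧
      supp ω ⊆ Ein a b T
    · rw [if_pos h]
      have hv : v ∈ Cl a b B (supp ω) := by rw [h.2.2.1]; exact hvT
      unfold Cl at hv
      rw [Finset.mem_filter] at hv
      obtain ⟨_, u, hu, huv⟩ := hv
      have hne : v ≠ u := fun hh => hB u hu (hh ▸ hvS)
      unfold Conn at huv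
      rcases Relation.ReflTransGen.cases_tail huv with hh | ⟨q, _, e, he, hj⟩
      · exact absurd hh hne
      · refine Finset.prod_eq_zero (Finset.mem_univ e) ?_
        have h0 : res a b J Sᶜ e = 0 := by
          unfold res
          rw [if_neg]
          rintro ⟨h1, h2⟩
          rw [Finset.mem_compl] at h1 h2
          rcases hj with ⟨_, hj⟩ | ⟨hj, _⟩
          · exact h2 (hj ▸ hvS)
          · exact h1 (hj ▸ hvS)
        rw [h0]
        exact hw0 _ he
    · rw [if_neg h]

end Pool.RCM
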