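import Pool.Agent.H74.RCM.Stmts

set_option autoImplicit false

namespace Pool.RCM

open scoped Classical
open Finset

namespace CLSp

/-- weight of `m` restricted to even `m` -/
noncomputable def fe (t : ℝ) (m : ℕ) : ℝ := if m % 2 = 0 then t ^ m / m.factorial else 0

/-- weight of `m` restricted to odd `m` -/
noncomputable def fo (t : ℝ) (m : ℕ) : ℝ := if m % 2 = 1 then t ^ m / m.factorial else 0

theorem fe_nonneg {t : ℝ} (ht : 0 ≤ t) (m : ℕ) : 0 ≤ fe t m := by
  unfold fe; split_ifs <;> positivity

theorem fo_nonneg {t : ℝ} (ht : 0 ≤ t) (m : ℕ) : 0 ≤ fo t m := by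
  unfold fo; split_ifs <;> positivity

theorem hasSum_fe (t : ℝ) : HasSum (fe t) (Real.cosh t) := by
  have h := Real.hasSum_cosh t
  have hinj : Function.Injective (fun n : ℕ => 2 * n) := by
    intro x y hxy; simp only at hxy; omega
  have h2 : ∀ x ∉ Set.range (fun n : ℕ => 2 * n), fe t x = 0 := by
    intro x hx
    unfold fe
    rw [if_neg]
    intro h0
    exact hx ⟨x / 2, by simp only; omega⟩
  rw [← hinj.hasSum_iff h2]
  refine h.congr_fun ?_ |> id
  intro n
  simp [fe, Function.comp]

theorem hasSum_fo (t : ℝ) : HasSum (fo t) (Real.sinh t) := by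
  have h := Real.hasSum_sinh t
  have hinj : Function.Injective (fun n : ℕ => 2 * n + 1) := by
    intro x y hxy; simp only at hxy; omega
  have h2 : ∀ x ∉ Set.range (fun n : ℕ => 2 * n + 1), fo t x = 0 := by
    intro x hx
    unfold fo
    rw [if_neg]
    intro h0
    exact hx ⟨x / 2, by simp only; omega⟩
  rw [← hinj.hasSum_iff h2]
  convert h using 1
  funext n
  have : (2 * n + 1) % 2 = 1 := by omega
  simp [fo, Function.comp, this]

theorem hasSum_prod {f g : ℕ → ℝ} {a b : ℝ} (hf : HasSum f a) (hg : HasSum g b)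
    (hf0 : ∀ m, 0 ≤ f m) (hg0 : ∀ m, 0 ≤ g m) :
    HasSum (fun p : ℕ × ℕ => f p.1 * g p.2) (a * b) :=
  hf.mul hg (hf.summable.mul_of_nonneg hg.summable (fun m => hf0 m) (fun m => hg0 m))

theorem hs_congr {f g : ℕ × ℕ → ℝ} {a : ℝ} (h : HasSum g a)
    (e : ∀ p, f p = g p) : HasSum f a := by
  have : f = g := funext e
  rw [this]; exact h

theorem hasSum_zero_pt : HasSum (fun p : ℕ × ℕ => if p = (0, 0) then (1 : ℝ) else 0) 1 :=
  hasSum_ite_eq (0, 0) (1 : ℝ)

end CLSp

open CLSp in
theorem CLS : CLSStmt := by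
  intro t s ht
  rcases s with _ | ⟨_ | _, _ | _⟩
  · -- none
    have hv : wst t none = 1 := rfl
    rw [hv]
    refine hs_congr hasSum_zero_pt ?_
    intro p
    by_cases hp : p = (0, 0)
    · subst hp; simp [cls]
    · simp [cls, hp]
  · -- false false
    have h := (hasSum_prod (hasSum_fe t) (hasSum_fe t) (fe_nonneg ht) (fe_nonneg ht)).sub
      hasSum_zero_pt
    have hv : wst t (some (false, false)) = Real.cosh t * Real.cosh t - 1 := by
      have := Real.cosh_sq t
      simp only [wst]
      nlinarith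
    rw [hv]
    refine hs_congr h ?_
    intro p
    by_cases hp : p = (0, 0)
    · subst hp; simp [cls, fe]
    · have hq : (cls p = some (false, false)) ↔ (p.1 % 2 = 0 ∧ p.2 % 2 = 0) := by
        simp [cls, hp]
      simp only [hq, hp, if_false, sub_zero, fe]
      by_cases h1 : p.1 % 2 = 0 <;> by_cases h2 : p.2 % 2 = 0 <;> simp [h1, h2]
  · -- false true
    have h := hasSum_prod (hasSum_fe t) (hasSum_fo t) (fe_nonneg ht) (fo_nonneg ht)
    have hv : wst t (some (false, true)) = Real.cosh t * Real.sinh t := by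
      simp only [wst]; ring
    rw [hv]
    refine hs_congr h ?_
    intro p
    have hq : (cls p = some (false, true)) ↔ (p.1 % 2 = 0 ∧ p.2 % 2 = 1) := by
      by_cases hp : p = (0, 0)
      · subst hp; simp [cls]
      · simp [cls, hp]
    simp only [hq, fe, fo]
    by_cases h1 : p.1 % 2 = 0 <;> by_cases h2 : p.2 % 2 = 1 <;> simp [h1, h2]
  · -- true false
    have h := hasSum_prod (hasSum_fo t) (hasSum_fe t) (fo_nonneg ht) (fe_nonneg ht)
    have hv : wst t (some (true, false)) = Real.sinh t * Real.cosh t := by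
      simp only [wst]
    rw [hv]
    refine hs_congr h ?_
    intro p
    have hq : (cls p = some (true, false)) ↔ (p.1 % 2 = 1 ∧ p.2 % 2 = 0) := by
      by_cases hp : p = (0, 0)
      · subst hp; simp [cls]
      · simp [cls, hp]
    simp only [hq, fe, fo]
    by_cases h1 : p.1 % 2 = 1 <;> by_cases h2 : p.2 % 2 = 0 <;> simp [h1, h2]
  · -- true true
    have h := hasSum_prod (hasSum_fo t) (hasSum_fo t) (fo_nonneg ht) (fo_nonneg ht)
    have hv : wst t (some (true, true)) = Real.sinh t * Real.sinh t := by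
      simp only [wst]; ring
    rw [hv]
    refine hs_congr h ?_
    intro p
    have hq : (cls p = some (true, true)) ↔ (p.1 % 2 = 1 ∧ p.2 % 2 = 1) := by
      by_cases hp : p = (0, 0)
      · subst hp; simp [cls]
      · simp [cls, hp]
    simp only [hq, fo]
    by_cases h1 : p.1 % 2 = 1 <;> by_cases h2 : p.2 % 2 = 1 <;> simp [h1, h2]

end Pool.RCM
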