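import Pool.Agent.H74.RCM.Stmts

set_option autoImplicit false

namespace Pool.RCM

open scoped Classical
open Finset

/-- flip the spin at `x` -/
private noncomputable def flp {V : Type} (x : V) (σ : V → Bool) : V → Bool :=
  fun v => if v = x then !(σ v) else σ v

private theorem flp_flp {V : Type} (x : V) (σ : V → Bool) : flp x (flp x σ) = σ := by
  funext v
  unfold flp
  by_cases h : v = x <;> simp [h]

private theorem sp_flp_self {V : Type} (x : V) (σ : V → Bool) : sp (flp x σ) x = - sp σ x := by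
  unfold sp flp
  cases h : σ x <;> simp

private theorem sp_flp_ne {V : Type} (x v : V) (h : v ≠ x) (σ : V → Bool) :
    sp (flp x σ) v = sp σ v := by
  unfold sp flp
  simp [h]

private theorem sum_flp {V : Type} [Fintype V] (x : V) (F : (V → Bool) → ℝ) :
    ∑ σ : V → Bool, F (flp x σ) = ∑ σ : V → Bool, F σ :=
  Equiv.sum_comp (⟨flp x, flp x, flp_flp x, flp_flp x⟩ : (V → Bool) ≃ (V → Bool)) F

private theorem sp_sq {V : Type} (σ : V → Bool) (v : V) : sp σ v * sp σ v = 1 := by
  unfold sp
  cases σ v <;> simp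

private theorem sp_nn {V : Type} (σ : V → Bool) (v w : V) : 0 ≤ 1 + sp σ v * sp σ w := by
  unfold sp
  cases σ v <;> cases σ w <;> norm_num

theorem CSX (hS : SPNStmt) : CSXStmt := by
  intro V E _ _ a b J x y hxy hab
  set J' := res a b J ({x} : Finset V)ᶜ with hJ'
  -- the edges at x
  set h : (V → Bool) → ℝ := fun σ => Ham a b J σ - Ham a b J' σ with hh
  have hJe : ∀ e, (a e = x ∨ b e = x) → J' e = 0 := by
    intro e he
    rw [hJ']
    unfold res
    rw [if_neg]
    rintro ⟨h1, h2⟩
    rw [Finset.mem_compl, Finset.mem_singleton] at h1 h2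
    rcases he with he | he
    · exact h1 he
    · exact h2 he
  have hJn : ∀ e, ¬ (a e = x ∨ b e = x) → J' e = J e := by
    intro e he
    rw [hJ']
    unfold res
    rw [if_pos]
    push Not at he
    rw [Finset.mem_compl, Finset.mem_compl, Finset.mem_singleton, Finset.mem_singleton]
    exact he
  have hH' : ∀ σ, Ham a b J' (flp x σ) = Ham a b J' σ := by
    intro σ
    unfold Ham
    refine Finset.sum_congr rfl fun e _ => ?_
    by_cases he : a e = x ∨ b e = x
    · rw [hJe e he, zero_mul, zero_mul]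
    · push Not at he
      rw [sp_flp_ne x _ he.1, sp_flp_ne x _ he.2]
  have hhf : ∀ σ, h (flp x σ) = - h σ := by
    intro σ
    simp only [hh]
    unfold Ham
    rw [← Finset.sum_sub_distrib, ← Finset.sum_sub_distrib, ← Finset.sum_neg_distrib]
    refine Finset.sum_congr rfl fun e _ => ?_
    by_cases he : a e = x ∨ b e = x
    · rw [hJe e he]
      rcases he with he | he
      · have hb : b e ≠ x := fun hb => hab e (he.trans hb.symm)
        rw [sp_flp_ne x _ hb, he, sp_flp_self]
        ring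
      · have ha : a e ≠ x := fun ha => hab e (ha.trans he.symm)
        rw [sp_flp_ne x _ ha, he, sp_flp_self]
        ring
    · rw [hJn e he]
      ring
  have hchi0 : ∀ σ : V → Bool, chi ∅ σ = 1 := by
    intro σ; unfold chi; simp
  have hchi1 : ∀ σ : V → Bool, chi {x, y} σ = sp σ x * sp σ y := by
    intro σ; unfold chi; rw [Finset.prod_pair hxy]
  have e0 := hS V E a b J ∅
  have e1 := hS V E a b J {x, y}
  have e2 := hS V E a b J' ∅
  simp only [hchi0, hchi1, one_mul] at e0 e1 e2
  set N : ℝ := 2 ^ Fintype.card V with hN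
  have hNpos : 0 < N := by positivity
  -- f and u
  set f : (V → Bool) → ℝ := fun σ => Real.exp (Ham a b J' σ) with hf
  set u : (V → Bool) → ℝ := fun σ => Real.exp (h σ) with hu
  have hfu : ∀ σ, Real.exp (Ham a b J σ) = f σ * u σ := by
    intro σ
    simp only [hf, hu, hh]
    rw [← Real.exp_add]
    congr 1
    ring
  have hsflip : ∀ σ : V → Bool, sp (flp x σ) x * sp (flp x σ) y = -(sp σ x * sp σ y) := by
    intro σ
    rw [sp_flp_self, sp_flp_ne x y hxy.symm]
    ring
  have A1 : ∑ σ : V → Bool, (1 + sp σ x * sp σ y) * f σ * u σ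
      = N * (Zc a b J ∅ + Zc a b J {x, y}) := by
    rw [mul_add, ← e0, ← e1, ← Finset.sum_add_distrib]
    refine Finset.sum_congr rfl fun σ _ => ?_
    rw [hfu]
    ring
  have A2 : ∑ σ : V → Bool, (1 + sp σ x * sp σ y) * f σ * (u σ)⁻¹
      = N * (Zc a b J ∅ - Zc a b J {x, y}) := by
    rw [mul_sub, ← e0, ← e1, ← Finset.sum_sub_distrib, ← sum_flp x]
    refine Finset.sum_congr rfl fun σ _ => ?_
    rw [hfu, hsflip]
    have h1 : f (flp x σ) = f σ := by simp only [hf, hH']
    have h2 : (u (flp x σ))⁻¹ = u σ := by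
      simp only [hu, hhf]
      rw [Real.exp_neg, inv_inv]
    rw [h1, h2]
    ring
  have A3 : ∑ σ : V → Bool, (1 + sp σ x * sp σ y) * f σ = N * Zc a b J' ∅ := by
    have h0 : ∑ σ : V → Bool, (sp σ x * sp σ y) * f σ = 0 := by
      have h1 := sum_flp x (fun σ : V → Bool => (sp σ x * sp σ y) * f σ)
      have h2 : ∑ σ : V → Bool, (sp (flp x σ) x * sp (flp x σ) y) * f (flp x σ)
          = - ∑ σ : V → Bool, (sp σ x * sp σ y) * f σ := by
        rw [← Finset.sum_neg_distrib]
        refine Finset.sum_congr rfl fun σ _ => ?_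
        have h3 : f (flp x σ) = f σ := by simp only [hf, hH']
        rw [hsflip, h3]
        ring
      linarith
    rw [← e2]
    have : ∀ σ : V → Bool, (1 + sp σ x * sp σ y) * f σ = f σ + (sp σ x * sp σ y) * f σ := by
      intro σ; ring
    rw [Finset.sum_congr rfl fun σ _ => this σ, Finset.sum_add_distrib, h0, add_zero]
  have hw : ∀ σ : V → Bool, 0 ≤ (1 + sp σ x * sp σ y) * f σ := fun σ =>
    mul_nonneg (sp_nn σ x y) (Real.exp_pos _).le
  have CS := Finset.sum_sq_le_sum_mul_sum_of_sq_le_mul (Finset.univ : Finset (V → Bool))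
    (r := fun σ => (1 + sp σ x * sp σ y) * f σ)
    (f := fun σ => (1 + sp σ x * sp σ y) * f σ * u σ)
    (g := fun σ => (1 + sp σ x * sp σ y) * f σ * (u σ)⁻¹)
    (fun σ _ => mul_nonneg (hw σ) (Real.exp_pos _).le)
    (fun σ _ => mul_nonneg (hw σ) (inv_nonneg.mpr (Real.exp_pos _).le))
    (fun σ _ => le_of_eq (by
      have : u σ * (u σ)⁻¹ = 1 := mul_inv_cancel₀ (Real.exp_pos _).ne'
      calc ((1 + sp σ x * sp σ y) * f σ) ^ 2
          = ((1 + sp σ x * sp σ y) * f σ) ^ 2 * (u σ * (u σ)⁻¹) := by rw [this, mul_one]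
        _ = _ := by ring))
  rw [A1, A2, A3] at CS
  have hN2 : 0 < N ^ 2 := by positivity
  have : N ^ 2 * (Zc a b J' ∅ ^ 2) ≤ N ^ 2 * (Zc a b J ∅ ^ 2 - Zc a b J {x, y} ^ 2) := by
    nlinarith [CS]
  exact le_of_mul_le_mul_left this hN2

end Pool.RCM
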