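import Mathlib

/-!
# RCM: monotonicity in the coupling constants of connection events in doubled sourceless currents

Definitions used in the hand-in (problem MP_0c55a2_pr).

A finite graph is given by finite types `V` (vertices) and `E` (edges) and two maps `a b : E → V`
(end points of the edges, `a e ≠ b e`); coupling constants `J : E → ℝ`.
-/

set_option autoImplicit false

namespace Pool.RCM

open scoped Classical
open Finset

variable {V E : Type} [Fintype V] [Fintype E]

/-! ## Currents -/

/-- degree of the vertex `v` in the current `n` -/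
noncomputable def deg (a b : E → V) (n : E → ℕ) (v : V) : ℕ :=
  ∑ e, ((if a e = v then n e else 0) + (if b e = v then n e else 0))

/-- the set of sources (vertices of odd degree) of `n` is `S` -/
def IsSrc (a b : E → V) (n : E → ℕ) (S : Finset V) : Prop := ∀ v, Odd (deg a b n v) ↔ v ∈ S

/-- weight of a current -/
noncomputable def wt (J : E → ℝ) (n : E → ℕ) : ℝ := ∏ e, J e ^ n e / (n e).factorial

/-- the edge `e` joins `u` and `v` -/
def Joins (a b : E → V) (e : E) (u v : V) : Prop := (a e = u ∧ b e = v) ∨ (a e = v ∧ b e = u)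

/-- `u` and `v` are joined by a path of edges of `s` -/
def Conn (a b : E → V) (s : Set E) (u v : V) : Prop :=
  Relation.ReflTransGen (fun p q => ∃ e ∈ s, Joins a b e p q) u v

/-- `A ↔ B` in `s` -/
def Link (a b : E → V) (A B : Set V) (s : Set E) : Prop := ∃ u ∈ A, ∃ v ∈ B, Conn a b s u v

/-- trace of `n₁ + n₂` -/
def tr (n₁ n₂ : E → ℕ) : Set E := {e | 0 < n₁ e + n₂ e}

/-- partition function of sourceless currents -/
noncomputable def ZZ (a b : E → V) (J : E → ℝ) : ℝ :=
  ∑' n : E → ℕ, if IsSrc a b n ∅ then wt J n else 0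

/-- probability that `A ↔ B` in the trace of `n₁ + n₂`, `n₁, n₂` independent sourceless currents -/
noncomputable def PP (a b : E → V) (J : E → ℝ) (A B : Set V) : ℝ :=
  (∑' n : (E → ℕ) × (E → ℕ), if IsSrc a b n.1 ∅ ∧ IsSrc a b n.2 ∅ ∧ Link a b A B (tr n.1 n.2)
    then wt J n.1 * wt J n.2 else 0) / ZZ a b J ^ 2

/-! ## The condition on an edge -/

/-- there is a path from `v` to `B` which avoids `A` -/
def Path (a b : E → V) (A B : Set V) (v : V) : Prop :=
  v ∉ A ∧ ∃ u ∈ B, Relation.ReflTransGen (fun p q => q ∉ A ∧ ∃ e, Joins a b e p q) v u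

/-- the vertices outside `A ∪ B` from which one can reach `B` avoiding `A`, and `A` avoiding `B` -/
def Free (a b : E → V) (A B : Set V) : Set V :=
  {v | v ∉ A ∧ v ∉ B ∧ Path a b A B v ∧ Path a b B A v}

/-- both end points of `e` are free -/
def InFree (a b : E → V) (A B : Set V) (e : E) : Prop :=
  a e ∈ Free a b A B ∧ b e ∈ Free a b A B

/-- `e` is a bridge -/
def Bridge (a b : E → V) (e : E) : Prop := ¬ Conn a b {f | f ≠ e} (a e) (b e)

/-- the condition on the edge `e`: not inside the free part, or a bridge, or the only edge inside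
the free part -/
def Good (a b : E → V) (A B : Set V) (e : E) : Prop :=
  ¬ InFree a b A B e ∨ Bridge a b e ∨ ∀ f, f ≠ e → ¬ InFree a b A B f

/-! ## The lattice -/

/-- nearest-neighbour pairs of `Λ`: the pair `{x, x + e_i}` is `(x, x + e_i)` -/
def NN {d : ℕ} (Λ : Finset (Fin d → ℤ)) : Type :=
  {p : Λ × Λ // ∃ i : Fin d, (↑p.2 : Fin d → ℤ) = (↑p.1 : Fin d → ℤ) + Pi.single i 1}

noncomputable instance {d : ℕ} (Λ : Finset (Fin d → ℤ)) : Fintype (NN Λ) := by
  unfold NN; infer_instance

/-- first end point -/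
def na {d : ℕ} (Λ : Finset (Fin d → ℤ)) (e : NN Λ) : Λ := e.1.1
/-- second end point -/
def nb {d : ℕ} (Λ : Finset (Fin d → ℤ)) (e : NN Λ) : Λ := e.1.2

/-- `f_{A,B}(β)` of the problem -/
noncomputable def fAB {d : ℕ} (Λ : Finset (Fin d → ℤ)) (A B : Set Λ) (β : ℝ) : ℝ :=
  PP (na Λ) (nb Λ) (fun _ => β) A B

end Pool.RCM
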