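import Pool.Agent.H74.RCM.Stmts

/-! Row DBL of the board drc7. -/

set_option autoImplicit false

namespace Pool.RCM

open scoped Classical
open Finset

theorem sp_xor' {W : Type} (σ ρ : W → Bool) (v : W) :
    sp (fun v => xor (σ v) (ρ v)) v = sp σ v * sp ρ v := by
  cases hv : σ v <;> cases hu : ρ v <;> simp [sp, hv, hu]

theorem chi_xor' {W : Type} (T : Finset W) (σ ρ : W → Bool) :
    chi T (fun v => xor (σ v) (ρ v)) = chi T σ * chi T ρ := by
  unfold chi
  rw [← Finset.prod_mul_distrib]
  exact Finset.prod_congr rfl (fun v _ => sp_xor' σ ρ v)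

theorem chi_pm' {W : Type} (T : Finset W) (σ : W → Bool) : chi T σ = 1 ∨ chi T σ = -1 := by
  unfold chi
  induction T using Finset.induction_on with
  | empty => left; simp
  | insert v T hv ih =>
    rw [Finset.prod_insert hv]
    unfold sp
    rcases ih with h | h
    · unfold sp at h; rw [h]; split_ifs <;> norm_num
    · unfold sp at h; rw [h]; split_ifs <;> norm_num

/-- DBL -/
theorem DBL (h1 : PO1Stmt) (h2 : PO2Stmt) : DBLStmt := by
  intro W _
  obtain ⟨hc, hchi, hadd, hmul, -⟩ := h1 W
  obtain ⟨hexp, -, -⟩ := h2 W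
  refine ⟨?_, ?_, ?_⟩
  · intro H hH ρ
    have hP : Pos (fun σ : W → Bool => H σ + H (fun v => xor (σ v) (ρ v))) := by
      obtain ⟨c, hc0, hcs⟩ := hH
      refine ⟨fun S => c S * (1 + chi S ρ), ?_, ?_⟩
      · intro S
        refine mul_nonneg (hc0 S) ?_
        rcases chi_pm' S ρ with h | h <;> rw [h] <;> norm_num
      · intro σ
        simp only [hcs, ← Finset.sum_add_distrib]
        refine Finset.sum_congr rfl (fun S _ => ?_)
        rw [chi_xor']
        ring
    have := hexp _ hP
    refine (congrArg Pos (funext fun σ => ?_)).mp this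
    exact Real.exp_add _ _
  · intro T ρ
    rcases chi_pm' T ρ with h | h
    · have hP : Pos (fun σ : W → Bool => (2 : ℝ) + 2 * chi T σ) :=
        hadd _ _ (hc 2 (by norm_num)) (hmul _ _ (hc 2 (by norm_num)) (hchi T))
      refine (congrArg Pos (funext fun σ => ?_)).mp hP
      simp only [chi_xor', h]
      rcases chi_pm' T σ with h' | h' <;> rw [h'] <;> norm_num
    · have hP := hc 0 le_rfl
      refine (congrArg Pos (funext fun σ => ?_)).mp hP
      simp only [chi_xor', h]
      rcases chi_pm' T σ with h' | h' <;> rw [h'] <;> norm_num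
  · intro w₁ w₂ hw₁ hw₂ ρ
    have := hmul _ _ (hw₁ ρ) (hw₂ ρ)
    refine (congrArg Pos (funext fun σ => ?_)).mp this
    ring

end Pool.RCM
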