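import Pool.Agent.H74.RCM.Stmts

/-!
# RCM: row DE1 (one cluster)
-/

set_option autoImplicit false

namespace Pool.RCM

open scoped Classical
open Finset

theorem de1_joins_symm {V E : Type} (a b : E → V) (e : E) (u v : V) (h : Joins a b e u v) :
    Joins a b e v u := by
  rcases h with h | h
  · exact Or.inr h
  · exact Or.inl h

theorem de1_conn_symm {V E : Type} (a b : E → V) (s : Set E) (u v : V) (h : Conn a b s u v) :
    Conn a b s v u := by
  unfold Conn at *
  induction h with
  | refl => exact Relation.ReflTransGen.refl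
  | tail _ hbc ih =>
    obtain ⟨e, he, hj⟩ := hbc
    exact Relation.ReflTransGen.head ⟨e, he, de1_joins_symm a b e _ _ hj⟩ ih

theorem de1_link_symm {V E : Type} (a b : E → V) (A B : Set V) (s : Set E) :
    Link a b A B s ↔ Link a b B A s := by
  constructor
  · rintro ⟨u, hu, v, hv, h⟩
    exact ⟨v, hv, u, hu, de1_conn_symm a b s u v h⟩
  · rintro ⟨u, hu, v, hv, h⟩
    exact ⟨v, hv, u, hu, de1_conn_symm a b s u v h⟩

theorem de1_sepd_symm {V E : Type} (a b : E → V) (A B : Set V) (s : Set E) :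
    Sepd a b A B s ↔ Sepd a b B A s := by
  unfold Sepd
  rw [de1_link_symm]

theorem de1_mem_Cl {V E : Type} [Fintype V] (a b : E → V) (A : Set V) (s : Set E) (v : V) :
    v ∈ Cl a b A s ↔ ∃ u ∈ A, Conn a b s u v := by
  unfold Cl
  simp

theorem de1_sepd_iff {V E : Type} [Fintype V] (a b : E → V) (A B : Set V) (s : Set E) :
    Sepd a b A B s ↔ ∀ v ∈ A, v ∉ Cl a b B s := by
  unfold Sepd Link
  constructor
  · intro h v hv hc
    rw [de1_mem_Cl] at hc
    obtain ⟨u, hu, huv⟩ := hc
    exact h ⟨v, hv, u, hu, de1_conn_symm a b s u v huv⟩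
  · rintro h ⟨u, hu, v, hv, huv⟩
    exact h u hu ((de1_mem_Cl a b B s u).2 ⟨v, hv, de1_conn_symm a b s u v huv⟩)

theorem de1_FS_congr {V E : Type} [Fintype V] [Fintype E] (a b : E → V) (J : E → ℝ)
    (S₁ S₂ : Finset V) (D D' : Set E → Prop) (h : ∀ s, D s ↔ D' s) :
    FS a b J S₁ S₂ D = FS a b J S₁ S₂ D' := by
  have : D = D' := funext fun s => propext (h s)
  rw [this]

/-- split according to the value of the cluster of `B` -/
theorem de1_FS_split {V E : Type} [Fintype V] [Fintype E] (a b : E → V) (J : E → ℝ)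
    (S₁ S₂ : Finset V) (B : Set V) (G : Finset V → Prop) :
    FS a b J S₁ S₂ (fun s => G (Cl a b B s)) =
      ∑ T : Finset V, if G T then FS a b J S₁ S₂ (fun s => Cl a b B s = T ∧ True) else 0 := by
  have h1 : ∀ T : Finset V, (if G T then FS a b J S₁ S₂ (fun s => Cl a b B s = T ∧ True) else 0) =
      ∑ ω : E → St, if T = Cl a b B (supp ω) then
        (if IsSrc a b (par1 ω) S₁ ∧ IsSrc a b (par2 ω) S₂ ∧ G (Cl a b B (supp ω))
          then ∏ e, wst (J e) (ω e) else 0) else 0 := by
    intro T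
    by_cases hG : G T
    · rw [if_pos hG]
      unfold FS
      refine Finset.sum_congr rfl fun ω _ => ?_
      by_cases hT : T = Cl a b B (supp ω)
      · rw [if_pos hT]
        have e1 : Cl a b B (supp ω) = T := hT.symm
        simp [e1, hG]
      · rw [if_neg hT, if_neg]
        rintro ⟨_, _, h, _⟩
        exact hT h.symm
    · rw [if_neg hG]
      symm
      refine Finset.sum_eq_zero fun ω _ => ?_
      by_cases hT : T = Cl a b B (supp ω)
      · rw [if_pos hT, ← hT, if_neg]
        rintro ⟨_, _, h⟩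
        exact hG h
      · rw [if_neg hT]
  rw [Finset.sum_congr rfl fun T _ => h1 T, Finset.sum_comm]
  unfold FS
  refine Finset.sum_congr rfl fun ω _ => ?_
  rw [Finset.sum_ite_eq' Finset.univ (Cl a b B (supp ω)), if_pos (Finset.mem_univ _)]

theorem DE1 (hEXP : EXPStmt) : DE1Stmt := by
  intro V E _ _ a b J A B x S hS
  have h1 : FS a b J S ∅ (fun s => Sepd a b A B s ∧ x ∉ Cl a b B s) =
      FS a b J S ∅ (fun s => (fun T : Finset V => x ∉ T ∧ ∀ v ∈ A, v ∉ T) (Cl a b B s)) := by
    apply de1_FS_congr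
    intro s
    rw [de1_sepd_iff]
    tauto
  rw [h1, de1_FS_split a b J S ∅ B (fun T : Finset V => x ∉ T ∧ ∀ v ∈ A, v ∉ T)]
  refine Finset.sum_congr rfl fun T _ => ?_
  by_cases hT : x ∉ T ∧ ∀ v ∈ A, v ∉ T
  · rw [if_pos hT, if_pos hT]
    refine hEXP V E a b J B T S (fun _ => True) ?_
    rcases hS with h | ⟨y, hxy, h⟩
    · exact Or.inl h
    · exact Or.inr ⟨x, y, hxy, hT.1, h⟩
  · rw [if_neg hT, if_neg hT]

end Pool.RCM
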