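import Pool.Agent.H74.RCM.DE1

/-!
# RCM: row DEC (inclusion-exclusion)
-/

set_option autoImplicit false

namespace Pool.RCM

open scoped Classical
open Finset

theorem DEC (h1 : DE1Stmt) (h2 : DE2Stmt) : DECStmt := by
  intro V E _ _ a b J A B x S hS
  have e1 := h1 V E a b J A B x S hS
  have e2 := h1 V E a b J B A x S hS
  have e3 := h2 V E a b J A B x S hS
  rw [← e1, ← e2, ← e3]
  have key : FS a b J S ∅ (Sepd a b A B) +
      FS a b J S ∅ (fun s => Sepd a b A B s ∧ x ∉ Cl a b A s ∧ x ∉ Cl a b B s) =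
      FS a b J S ∅ (fun s => Sepd a b A B s ∧ x ∉ Cl a b B s) +
      FS a b J S ∅ (fun s => Sepd a b B A s ∧ x ∉ Cl a b A s) := by
    unfold FS
    rw [← Finset.sum_add_distrib, ← Finset.sum_add_distrib]
    refine Finset.sum_congr rfl fun ω _ => ?_
    by_cases hsrc : IsSrc a b (par1 ω) S ∧ IsSrc a b (par2 ω) ∅
    · obtain ⟨hs1, hs2⟩ := hsrc
      by_cases hD : Sepd a b A B (supp ω)
      · have hD' : Sepd a b B A (supp ω) := (de1_sepd_symm a b A B _).1 hD
        have hnot : ¬ (x ∈ Cl a b A (supp ω) ∧ x ∈ Cl a b B (supp ω)) := by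
          rintro ⟨ha, hb⟩
          rw [de1_mem_Cl] at ha hb
          obtain ⟨u, hu, hux⟩ := ha
          obtain ⟨v, hv, hvx⟩ := hb
          exact hD ⟨u, hu, v, hv, Relation.ReflTransGen.trans hux
            (de1_conn_symm a b _ v x hvx)⟩
        by_cases ha : x ∈ Cl a b A (supp ω)
        · have hb : x ∉ Cl a b B (supp ω) := fun hb => hnot ⟨ha, hb⟩
          simp [hs1, hs2, hD, ha, hb]
        · by_cases hb : x ∈ Cl a b B (supp ω)
          · simp [hs1, hs2, hD, hD', ha, hb]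
          · simp [hs1, hs2, hD, hD', ha, hb]
      · have hD' : ¬ Sepd a b B A (supp ω) := fun h => hD ((de1_sepd_symm a b A B _).2 h)
        simp [hD, hD']
    · have hn : ∀ P : Prop, ¬ (IsSrc a b (par1 ω) S ∧ IsSrc a b (par2 ω) ∅ ∧ P) :=
        fun P h => hsrc ⟨h.1, h.2.1⟩
      rw [if_neg (hn _), if_neg (hn _), if_neg (hn _), if_neg (hn _)]
  linarith

end Pool.RCM
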