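import Pool.Agent.H74.RCM.Stmts

set_option autoImplicit false

namespace Pool.RCM

open scoped Classical
open Finset

theorem drf_upd_upd {E : Type} (J : E → ℝ) (e : E) (s t : ℝ) : upd (upd J e s) e t = upd J e t := by
  funext f
  unfold upd
  by_cases h : f = e <;> simp [h]

theorem drf_upd_self {E : Type} (J : E → ℝ) (e : E) (s : ℝ) : upd J e s e = s := by
  unfold upd
  simp

/-- row DRF -/
theorem DRF (h : SPLStmt) (h1 : INSStmt) (h2 : SYMStmt) : DRFStmt := by
  intro V E _ _ a b J e A B t hab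
  have hs1 : symmDiff (∅ : Finset V) {a e, b e} = {a e, b e} := by
    have := bot_symmDiff ({a e, b e} : Finset V)
    simpa using this
  have hs2 : symmDiff ({a e, b e} : Finset V) {a e, b e} = ∅ := by
    have := symmDiff_self ({a e, b e} : Finset V)
    simpa using this
  set J0 := upd J e 0 with hJ0
  set D : Set E → Prop := Sepd a b A B with hD
  set C := FS a b J0 ∅ ∅ D with hC
  set F0 := FS a b J0 ∅ ∅ (fun s => D (insert e s)) with hF0
  set F1 := FS a b J0 {a e, b e} ∅ D with hF1
  set F3 := FS a b J0 {a e, b e} {a e, b e} D with hF3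
  have i1 : FS a b J0 {a e, b e} ∅ (fun s => D (insert e s)) = F1 :=
    h1 V E a b J0 e {a e, b e} ∅ A B hab (Or.inl rfl)
  have i2 : FS a b J0 ∅ {a e, b e} (fun s => D (insert e s)) = F1 := by
    rw [h2]
    exact i1
  have i3 : FS a b J0 {a e, b e} {a e, b e} (fun s => D (insert e s)) = F3 :=
    h1 V E a b J0 e {a e, b e} {a e, b e} A B hab (Or.inl rfl)
  have key : ∀ s : ℝ, FS a b (upd J e s) ∅ ∅ D =
      C + Real.sinh s ^ 2 * F0 + Real.sinh s * Real.cosh s * F1 + Real.sinh s * Real.cosh s * F1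
        + Real.sinh s ^ 2 * F3 := by
    intro s
    have h3 := h V E a b (upd J e s) e ∅ ∅ D hab
    rw [drf_upd_upd, drf_upd_self, hs1] at h3
    rw [← hJ0] at h3
    rw [i1, i2, i3] at h3
    exact h3
  have key2 : FS a b (upd J e t) {a e, b e} ∅ D =
      F1 + Real.sinh t ^ 2 * F1 + Real.sinh t * Real.cosh t * F0 + Real.sinh t * Real.cosh t * F3
        + Real.sinh t ^ 2 * F1 := by
    have h3 := h V E a b (upd J e t) e {a e, b e} ∅ D hab
    rw [drf_upd_upd, drf_upd_self, hs1, hs2] at h3
    rw [← hJ0] at h3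
    rw [i1, i2, i3] at h3
    exact h3
  have hfun : (fun s => FS a b (upd J e s) ∅ ∅ D) = fun s =>
      C + Real.sinh s ^ 2 * F0 + Real.sinh s * Real.cosh s * F1 + Real.sinh s * Real.cosh s * F1
        + Real.sinh s ^ 2 * F3 := by
    funext s
    exact key s
  rw [hfun, key2]
  have dS := Real.hasDerivAt_sinh t
  have dC := Real.hasDerivAt_cosh t
  have d1 := (dS.pow 2).mul_const F0
  have d2 := (dS.mul dC).mul_const F1
  have d3 := (dS.pow 2).mul_const F3
  have d4 := ((((hasDerivAt_const t C).add d1).add d2).add d2).add d3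
  refine d4.congr_deriv ?_
  have hc := Real.cosh_sq t
  simp only [Nat.cast_ofNat]
  have : Real.cosh t * Real.cosh t = Real.sinh t ^ 2 + 1 := by rw [← hc]; ring
  ring_nf
  rw [hc]
  ring

end Pool.RCM
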