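import Pool.Agent.H74.RCM.Stmts

set_option autoImplicit false

namespace Pool.RCM

open scoped Classical
open Finset

theorem drz_upd_upd {E : Type} (J : E → ℝ) (e : E) (s t : ℝ) : upd (upd J e s) e t = upd J e t := by
  funext f
  unfold upd
  by_cases h : f = e <;> simp [h]

theorem drz_upd_self {E : Type} (J : E → ℝ) (e : E) (s : ℝ) : upd J e s e = s := by
  unfold upd
  simp

/-- row DRZ -/
theorem DRZ (h : SPZStmt) : DRZStmt := by
  intro V E _ _ a b J e t hab
  have key : ∀ s : ℝ, Zc a b (upd J e s) ∅ = Real.cosh s * Zc a b (upd J e 0) ∅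
      + Real.sinh s * Zc a b (upd J e 0) {a e, b e} := by
    intro s
    have h1 := h V E a b (upd J e s) e ∅ hab
    rw [drz_upd_upd, drz_upd_self] at h1
    have h2 : symmDiff (∅ : Finset V) {a e, b e} = {a e, b e} := by
      have := bot_symmDiff ({a e, b e} : Finset V)
      simpa using this
    rw [h2] at h1
    exact h1
  have key2 : Zc a b (upd J e t) {a e, b e} = Real.cosh t * Zc a b (upd J e 0) {a e, b e}
      + Real.sinh t * Zc a b (upd J e 0) ∅ := by
    have h1 := h V E a b (upd J e t) e {a e, b e} hab
    rw [drz_upd_upd, drz_upd_self] at h1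
    have h2 : symmDiff ({a e, b e} : Finset V) {a e, b e} = ∅ := by
      have := symmDiff_self ({a e, b e} : Finset V)
      simpa using this
    rw [h2] at h1
    exact h1
  have hfun : (fun s => Zc a b (upd J e s) ∅) = fun s => Real.cosh s * Zc a b (upd J e 0) ∅
      + Real.sinh s * Zc a b (upd J e 0) {a e, b e} := by
    funext s
    exact key s
  rw [hfun, key2]
  have d1 := (Real.hasDerivAt_cosh t).mul_const (Zc a b (upd J e 0) ∅)
  have d2 := (Real.hasDerivAt_sinh t).mul_const (Zc a b (upd J e 0) {a e, b e})
  have d3 := d1.add d2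
  refine d3.congr_deriv ?_
  ring

end Pool.RCM
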