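import Pool.Agent.H74.RCM.Core

/-!
# RCM: definitions used in the rows of the board
-/

set_option autoImplicit false

namespace Pool.RCM

open scoped Classical
open Finset

variable {V E : Type} [Fintype V] [Fintype E]

/-! ## The finite model: five states of an edge -/

/-- state of an edge: `none` if `n₁ = n₂ = 0`, else the parities (`true` = odd) of `n₁, n₂` -/
abbrev St := Option (Bool × Bool)

/-- weight of a state at coupling `t` -/
noncomputable def wst (t : ℝ) : St → ℝ
  | none => 1
  | some (false, false) => Real.sinh t ^ 2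
  | some (true, false) => Real.sinh t * Real.cosh t
  | some (false, true) => Real.sinh t * Real.cosh t
  | some (true, true) => Real.sinh t ^ 2

/-- parity of `n₁` (as a 0/1 current) -/
def par1 (ω : E → St) (e : E) : ℕ := match ω e with | none => 0 | some p => if p.1 then 1 else 0

/-- parity of `n₂` (as a 0/1 current) -/
def par2 (ω : E → St) (e : E) : ℕ := match ω e with | none => 0 | some p => if p.2 then 1 else 0

/-- open edges -/
def supp (ω : E → St) : Set E := {e | ω e ≠ none}

/-- weighted sum over configurations with sources `S₁, S₂` whose set of open edges satisfies `D` -/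
noncomputable def FS (a b : E → V) (J : E → ℝ) (S₁ S₂ : Finset V) (D : Set E → Prop) : ℝ :=
  ∑ ω : E → St, if IsSrc a b (par1 ω) S₁ ∧ IsSrc a b (par2 ω) S₂ ∧ D (supp ω)
    then ∏ e, wst (J e) (ω e) else 0

/-- `Z ⟨σ_S⟩` as a sum over subsets of edges (high temperature expansion) -/
noncomputable def Zc (a b : E → V) (J : E → ℝ) (S : Finset V) : ℝ :=
  ∑ η : E → Bool, if IsSrc a b (fun e => if η e then 1 else 0) S
    then ∏ e, (if η e then Real.sinh (J e) else Real.cosh (J e)) else 0

/-- couplings restricted to the edges inside `U` -/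
noncomputable def res (a b : E → V) (J : E → ℝ) (U : Finset V) : E → ℝ :=
  fun e => if a e ∈ U ∧ b e ∈ U then J e else 0

/-- couplings with `J e` replaced by `t` -/
noncomputable def upd (J : E → ℝ) (e : E) (t : ℝ) : E → ℝ := fun f => if f = e then t else J f

/-- edges inside `U` -/
def Ein (a b : E → V) (U : Finset V) : Set E := {e | a e ∈ U ∧ b e ∈ U}

/-- union of the clusters of `A` in `s` -/
noncomputable def Cl (a b : E → V) (A : Set V) (s : Set E) : Finset V :=
  Finset.univ.filter (fun v => ∃ u ∈ A, Conn a b s u v)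

/-- weight of the event that the cluster of `A` is `T`, computed inside `T` -/
noncomputable def cA (a b : E → V) (J : E → ℝ) (A : Set V) (T : Finset V) : ℝ :=
  ∑ ω : E → St, if IsSrc a b (par1 ω) ∅ ∧ IsSrc a b (par2 ω) ∅ ∧ Cl a b A (supp ω) = T ∧
    supp ω ⊆ Ein a b T then ∏ e, wst (J e) (ω e) else 0

/-- the event `A, B` not connected -/
def Sepd (a b : E → V) (A B : Set V) (s : Set E) : Prop := ¬ Link a b A B s

/-! ## Spins -/

/-- spin -/
def sp {W : Type} (σ : W → Bool) (v : W) : ℝ := if σ v then -1 else 1

/-- character -/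
noncomputable def chi {W : Type} (S : Finset W) (σ : W → Bool) : ℝ := ∏ v ∈ S, sp σ v

/-- nonnegative combinations of characters -/
def Pos {W : Type} [Fintype W] (f : (W → Bool) → ℝ) : Prop :=
  ∃ c : Finset W → ℝ, (∀ S, 0 ≤ c S) ∧ ∀ σ, f σ = ∑ S, c S * chi S σ

/-- minus the energy -/
noncomputable def Ham (a b : E → V) (J : E → ℝ) (σ : V → Bool) : ℝ :=
  ∑ e, J e * (sp σ (a e) * sp σ (b e))

end Pool.RCM
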