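import Pool.Agent.H74.RCM.Stmts

set_option autoImplicit false
set_option linter.unusedSectionVars false

namespace Pool.RCM

open scoped Classical
open Finset

namespace EXPaux

variable {V E : Type} [Fintype V] [Fintype E]

/-- restriction of a configuration -/
noncomputable def cut (U : Set E) (ω : E → St) : E → St := fun e => if e ∈ U then ω e else none

/-- union of two configurations -/
noncomputable def jn (ω₁ ω₂ : E → St) : E → St := fun e => if ω₁ e = none then ω₂ e else ω₁ e

/-- weight -/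
noncomputable def W (J : E → ℝ) (ω : E → St) : ℝ := ∏ e, wst (J e) (ω e)

lemma supp_cut (U : Set E) (ω : E → St) : supp (cut U ω) = supp ω ∩ U := by
  ext e
  unfold supp cut
  by_cases h : e ∈ U <;> simp [h]

lemma not_both (a b : E → V) (T : Finset V) (e : E) (h1 : e ∈ Ein a b T) (h2 : e ∈ Ein a b Tᶜ) :
    False := by
  unfold Ein at h1 h2
  simp only [Set.mem_ofPred_eq, Finset.mem_compl] at h1 h2
  exact h2.1 h1.1

lemma none_of_not_supp {ω : E → St} {e : E} (h : e ∉ supp ω) : ω e = none := by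
  unfold supp at h
  simpa using h

lemma par1_none {ω : E → St} {e : E} (h : ω e = none) : par1 ω e = 0 := by
  unfold par1; rw [h]

lemma par2_none {ω : E → St} {e : E} (h : ω e = none) : par2 ω e = 0 := by
  unfold par2; rw [h]

lemma par1_congr {ω ω' : E → St} {e : E} (h : ω e = ω' e) : par1 ω e = par1 ω' e := by
  unfold par1; rw [h]

lemma par2_congr {ω ω' : E → St} {e : E} (h : ω e = ω' e) : par2 ω e = par2 ω' e := by
  unfold par2; rw [h]

/-- one of the two is closed -/
lemma cases_jn (a b : E → V) (T : Finset V) (ω₁ ω₂ : E → St) (h1 : supp ω₁ ⊆ Ein a b T)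
    (h2 : supp ω₂ ⊆ Ein a b Tᶜ) (e : E) :
    (ω₁ e = none ∧ jn ω₁ ω₂ e = ω₂ e) ∨ (ω₂ e = none ∧ jn ω₁ ω₂ e = ω₁ e) := by
  by_cases h : ω₁ e = none
  · left
    refine ⟨h, ?_⟩
    unfold jn; rw [if_pos h]
  · right
    have he : e ∈ Ein a b T := h1 (by unfold supp; exact h)
    refine ⟨?_, ?_⟩
    · apply none_of_not_supp
      intro hs
      exact not_both a b T e he (h2 hs)
    · unfold jn; rw [if_neg h]

lemma par1_jn (a b : E → V) (T : Finset V) (ω₁ ω₂ : E → St) (h1 : supp ω₁ ⊆ Ein a b T)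
    (h2 : supp ω₂ ⊆ Ein a b Tᶜ) (e : E) :
    par1 (jn ω₁ ω₂) e = par1 ω₁ e + par1 ω₂ e := by
  rcases cases_jn a b T ω₁ ω₂ h1 h2 e with ⟨h, h'⟩ | ⟨h, h'⟩
  · rw [par1_none h, par1_congr h', zero_add]
  · rw [par1_none h, par1_congr h', add_zero]

lemma par2_jn (a b : E → V) (T : Finset V) (ω₁ ω₂ : E → St) (h1 : supp ω₁ ⊆ Ein a b T)
    (h2 : supp ω₂ ⊆ Ein a b Tᶜ) (e : E) :
    par2 (jn ω₁ ω₂) e = par2 ω₁ e + par2 ω₂ e := by
  rcases cases_jn a b T ω₁ ω₂ h1 h2 e with ⟨h, h'⟩ | ⟨h, h'⟩
  · rw [par2_none h, par2_congr h', zero_add]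
  · rw [par2_none h, par2_congr h', add_zero]

lemma W_jn (a b : E → V) (J : E → ℝ) (T : Finset V) (ω₁ ω₂ : E → St) (h1 : supp ω₁ ⊆ Ein a b T)
    (h2 : supp ω₂ ⊆ Ein a b Tᶜ) : W J (jn ω₁ ω₂) = W J ω₁ * W J ω₂ := by
  unfold W
  rw [← Finset.prod_mul_distrib]
  apply Finset.prod_congr rfl
  intro e _
  rcases cases_jn a b T ω₁ ω₂ h1 h2 e with ⟨h, h'⟩ | ⟨h, h'⟩
  · rw [h, h']
    simp [wst]
  · rw [h, h']
    simp [wst]

lemma supp_jn (ω₁ ω₂ : E → St) : supp (jn ω₁ ω₂) = supp ω₁ ∪ supp ω₂ := by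
  ext e
  unfold supp jn
  by_cases h : ω₁ e = none <;> simp [h]

lemma deg_add (a b : E → V) (n m : E → ℕ) (v : V) :
    deg a b (fun e => n e + m e) v = deg a b n v + deg a b m v := by
  unfold deg
  rw [← Finset.sum_add_distrib]
  apply Finset.sum_congr rfl
  intro e _
  split_ifs <;> ring

lemma deg_zero_of (a b : E → V) (n : E → ℕ) (v : V)
    (h : ∀ e, n e ≠ 0 → a e ≠ v ∧ b e ≠ v) : deg a b n v = 0 := by
  unfold deg
  apply Finset.sum_eq_zero
  intro e _
  by_cases he : n e = 0
  · simp [he]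
  · have := h e he
    simp [this.1, this.2]

/-- sources of a sum of two currents, inside `T` and outside `T` -/
lemma isSrc_add (a b : E → V) (T S : Finset V) (n m : E → ℕ)
    (hn : ∀ e, n e ≠ 0 → e ∈ Ein a b T) (hm : ∀ e, m e ≠ 0 → e ∈ Ein a b Tᶜ) :
    IsSrc a b (fun e => n e + m e) S ↔
      IsSrc a b n (S ∩ T) ∧ IsSrc a b m (S ∩ Tᶜ) := by
  have hn0 : ∀ v, v ∉ T → deg a b n v = 0 := by
    intro v hv
    apply deg_zero_of
    intro e he
    have := hn e he
    unfold Ein at this
    refine ⟨?_, ?_⟩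
    · rintro rfl; exact hv this.1
    · rintro rfl; exact hv this.2
  have hm0 : ∀ v, v ∈ T → deg a b m v = 0 := by
    intro v hv
    apply deg_zero_of
    intro e he
    have := hm e he
    unfold Ein at this
    simp only [Set.mem_ofPred_eq, Finset.mem_compl] at this
    refine ⟨?_, ?_⟩
    · rintro rfl; exact this.1 hv
    · rintro rfl; exact this.2 hv
  unfold IsSrc
  constructor
  · intro h
    refine ⟨?_, ?_⟩
    · intro v
      by_cases hv : v ∈ T
      · have := h v
        rw [deg_add, hm0 v hv, add_zero] at this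
        simp [this, hv]
      · rw [hn0 v hv]
        simp [hv]
    · intro v
      by_cases hv : v ∈ T
      · rw [hm0 v hv]
        simp [hv]
      · have := h v
        rw [deg_add, hn0 v hv, zero_add] at this
        simp [this, hv]
  · rintro ⟨h1, h2⟩ v
    rw [deg_add]
    by_cases hv : v ∈ T
    · have := h1 v
      rw [hm0 v hv, add_zero, this]
      simp [hv]
    · have := h2 v
      rw [hn0 v hv, zero_add, this]
      simp [hv]

lemma par1_ne {ω : E → St} {e : E} (h : par1 ω e ≠ 0) : e ∈ supp ω := by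
  unfold supp
  intro hn
  exact h (par1_none hn)

lemma par2_ne {ω : E → St} {e : E} (h : par2 ω e ≠ 0) : e ∈ supp ω := by
  unfold supp
  intro hn
  exact h (par2_none hn)

lemma Conn_mono (a b : E → V) {s t : Set E} (h : s ⊆ t) {u v : V} (hc : Conn a b s u v) :
    Conn a b t u v := by
  unfold Conn at *
  induction hc with
  | refl => exact Relation.ReflTransGen.refl
  | tail _ hstep ih =>
    obtain ⟨e, he, hj⟩ := hstep
    exact Relation.ReflTransGen.tail ih ⟨e, h he, hj⟩

lemma Conn_symm (a b : E → V) {s : Set E} {u v : V} (hc : Conn a b s u v) :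
    Conn a b s v u := by
  unfold Conn at *
  induction hc with
  | refl => exact Relation.ReflTransGen.refl
  | tail _ hstep ih =>
    obtain ⟨e, he, hj⟩ := hstep
    exact Relation.ReflTransGen.head ⟨e, he, hj.symm⟩ ih

lemma mem_Cl (a b : E → V) (A : Set V) (s : Set E) (v : V) :
    v ∈ Cl a b A s ↔ ∃ u ∈ A, Conn a b s u v := by
  unfold Cl; simp

/-- edges of `s` do not cross the boundary of the cluster -/
lemma Cl_edge (a b : E → V) (A : Set V) (s : Set E) (T : Finset V) (h : Cl a b A s = T) (e : E)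
    (he : e ∈ s) : e ∈ Ein a b T ∨ e ∈ Ein a b Tᶜ := by
  have key : a e ∈ T ↔ b e ∈ T := by
    subst h
    constructor
    · intro h1
      rw [mem_Cl] at h1 ⊢
      obtain ⟨u, hu, hc⟩ := h1
      exact ⟨u, hu, Relation.ReflTransGen.tail hc ⟨e, he, Or.inl ⟨rfl, rfl⟩⟩⟩
    · intro h1
      rw [mem_Cl] at h1 ⊢
      obtain ⟨u, hu, hc⟩ := h1
      exact ⟨u, hu, Relation.ReflTransGen.tail hc ⟨e, he, Or.inr ⟨rfl, rfl⟩⟩⟩
  unfold Ein
  simp only [Set.mem_ofPred_eq, Finset.mem_compl]
  tauto

/-- the cluster depends only on the edges inside `T` -/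
lemma Cl_union (a b : E → V) (A : Set V) (s₁ s₂ : Set E) (T : Finset V) (h1 : s₁ ⊆ Ein a b T)
    (h2 : s₂ ⊆ Ein a b Tᶜ) : Cl a b A (s₁ ∪ s₂) = T ↔ Cl a b A s₁ = T := by
  constructor
  · intro h
    apply Finset.Subset.antisymm
    · intro v hv
      rw [← h]
      rw [mem_Cl] at hv ⊢
      obtain ⟨u, hu, hc⟩ := hv
      exact ⟨u, hu, Conn_mono a b Set.subset_union_left hc⟩
    · intro v hv
      rw [← h, mem_Cl] at hv
      rw [mem_Cl]
      obtain ⟨u, hu, hc⟩ := hv
      refine ⟨u, hu, ?_⟩
      unfold Conn at hc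
      induction hc with
      | refl => exact Relation.ReflTransGen.refl
      | tail hc' hstep ih =>
        rename_i p q
        obtain ⟨e, he, hj⟩ := hstep
        refine Relation.ReflTransGen.tail ih ⟨e, ?_, hj⟩
        have hp : p ∈ T := by
          rw [← h, mem_Cl]
          exact ⟨u, hu, hc'⟩
        rcases he with he | he
        · exact he
        · exfalso
          have := h2 he
          unfold Ein at this
          simp only [Set.mem_ofPred_eq, Finset.mem_compl] at this
          rcases hj with ⟨ha, hb⟩ | ⟨ha, hb⟩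
          · rw [ha] at this; exact this.1 hp
          · rw [hb] at this; exact this.2 hp
  · intro h
    apply Finset.Subset.antisymm
    · intro v hv
      rw [mem_Cl] at hv
      obtain ⟨u, hu, hc⟩ := hv
      unfold Conn at hc
      induction hc with
      | refl =>
        rw [← h, mem_Cl]
        exact ⟨u, hu, Relation.ReflTransGen.refl⟩
      | tail hc' hstep ih =>
        rename_i p q
        obtain ⟨e, he, hj⟩ := hstep
        rcases he with he | he
        · have := h1 he
          unfold Ein at this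
          simp only [Set.mem_ofPred_eq] at this
          rcases hj with ⟨ha, hb⟩ | ⟨ha, hb⟩
          · rw [hb] at this; exact this.2
          · rw [ha] at this; exact this.1
        · exfalso
          have := h2 he
          unfold Ein at this
          simp only [Set.mem_ofPred_eq, Finset.mem_compl] at this
          rcases hj with ⟨ha, hb⟩ | ⟨ha, hb⟩
          · rw [ha] at this; exact this.1 ih
          · rw [hb] at this; exact this.2 ih
    · intro v hv
      rw [← h, mem_Cl] at hv
      rw [mem_Cl]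
      obtain ⟨u, hu, hc⟩ := hv
      exact ⟨u, hu, Conn_mono a b Set.subset_union_left hc⟩

/-- configurations of the left side -/
def PL (a b : E → V) (A : Set V) (T S : Finset V) (D : Set E → Prop) (ω : E → St) : Prop :=
  IsSrc a b (par1 ω) S ∧ IsSrc a b (par2 ω) ∅ ∧
    (Cl a b A (supp ω) = T ∧ D (supp ω ∩ Ein a b Tᶜ))

/-- configurations of the first factor -/
def P1 (a b : E → V) (A : Set V) (T S : Finset V) (ω : E → St) : Prop :=
  IsSrc a b (par1 ω) (S ∩ T) ∧ IsSrc a b (par2 ω) ∅ ∧ Cl a b A (supp ω) = T ∧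
    supp ω ⊆ Ein a b T

/-- configurations of the second factor -/
def P2 (a b : E → V) (T S : Finset V) (D : Set E → Prop) (ω : E → St) : Prop :=
  IsSrc a b (par1 ω) (S ∩ Tᶜ) ∧ IsSrc a b (par2 ω) ∅ ∧ D (supp ω) ∧ supp ω ⊆ Ein a b Tᶜ

lemma PL_jn (a b : E → V) (A : Set V) (T S : Finset V) (D : Set E → Prop) (ω₁ ω₂ : E → St)
    (h1 : supp ω₁ ⊆ Ein a b T) (h2 : supp ω₂ ⊆ Ein a b Tᶜ) :
    PL a b A T S D (jn ω₁ ω₂) ↔ P1 a b A T S ω₁ ∧ P2 a b T S D ω₂ := by
  have e1 : par1 (jn ω₁ ω₂) = fun e => par1 ω₁ e + par1 ω₂ e :=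
    funext (par1_jn a b T ω₁ ω₂ h1 h2)
  have e2 : par2 (jn ω₁ ω₂) = fun e => par2 ω₁ e + par2 ω₂ e :=
    funext (par2_jn a b T ω₁ ω₂ h1 h2)
  have e3 : supp (jn ω₁ ω₂) ∩ Ein a b Tᶜ = supp ω₂ := by
    rw [supp_jn]
    ext e
    constructor
    · rintro ⟨he | he, he'⟩
      · exact (not_both a b T e (h1 he) he').elim
      · exact he
    · intro he
      exact ⟨Or.inr he, h2 he⟩
  unfold PL P1 P2
  rw [e3, e1, e2, supp_jn, Cl_union a b A _ _ T h1 h2,
    isSrc_add a b T S _ _ (fun e he => h1 (par1_ne he)) (fun e he => h2 (par1_ne he)),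
    isSrc_add a b T ∅ _ _ (fun e he => h1 (par2_ne he)) (fun e he => h2 (par2_ne he))]
  simp only [Finset.empty_inter]
  tauto

lemma jn_cut (a b : E → V) (T : Finset V) (ω : E → St)
    (h : ∀ e ∈ supp ω, e ∈ Ein a b T ∨ e ∈ Ein a b Tᶜ) :
    jn (cut (Ein a b T) ω) (cut (Ein a b Tᶜ) ω) = ω := by
  funext e
  unfold jn cut
  by_cases he : ω e = none
  · simp [he]
  · rcases h e he with h1 | h1
    · simp [h1, he]
    · by_cases h2 : e ∈ Ein a b T
      · simp [h2, he]
      · simp [h1, h2]

lemma cut_jn1 (a b : E → V) (T : Finset V) (ω₁ ω₂ : E → St)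
    (h1 : supp ω₁ ⊆ Ein a b T) (h2 : supp ω₂ ⊆ Ein a b Tᶜ) :
    cut (Ein a b T) (jn ω₁ ω₂) = ω₁ := by
  funext e
  unfold cut
  by_cases he : e ∈ Ein a b T
  · rw [if_pos he]
    rcases cases_jn a b T ω₁ ω₂ h1 h2 e with ⟨h, h'⟩ | ⟨h, h'⟩
    · rw [h', h]
      apply none_of_not_supp
      intro hs
      exact not_both a b T e he (h2 hs)
    · exact h'
  · rw [if_neg he]
    symm
    apply none_of_not_supp
    intro hs
    exact he (h1 hs)

lemma cut_jn2 (a b : E → V) (T : Finset V) (ω₁ ω₂ : E → St)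
    (h1 : supp ω₁ ⊆ Ein a b T) (h2 : supp ω₂ ⊆ Ein a b Tᶜ) :
    cut (Ein a b Tᶜ) (jn ω₁ ω₂) = ω₂ := by
  funext e
  unfold cut
  by_cases he : e ∈ Ein a b Tᶜ
  · rw [if_pos he]
    rcases cases_jn a b T ω₁ ω₂ h1 h2 e with ⟨h, h'⟩ | ⟨h, h'⟩
    · exact h'
    · rw [h', h]
      apply none_of_not_supp
      intro hs
      exact not_both a b T e (h1 hs) he
  · rw [if_neg he]
    symm
    apply none_of_not_supp
    intro hs
    exact he (h2 hs)

/-- the bijection -/
lemma sum_eq (a b : E → V) (J : E → ℝ) (A : Set V) (T S : Finset V) (D : Set E → Prop) :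
    ∑ ω : E → St with PL a b A T S D ω, W J ω =
      (∑ ω : E → St with P1 a b A T S ω, W J ω) * ∑ ω : E → St with P2 a b T S D ω, W J ω := by
  rw [Finset.sum_mul_sum, ← Finset.sum_product']
  symm
  apply Finset.sum_nbij' (fun p => jn p.1 p.2)
    (fun ω => (cut (Ein a b T) ω, cut (Ein a b Tᶜ) ω))
  · rintro ⟨ω₁, ω₂⟩ hp
    simp only [Finset.mem_product, Finset.mem_filter, Finset.mem_univ, true_and] at hp ⊢
    exact (PL_jn a b A T S D ω₁ ω₂ hp.1.2.2.2 hp.2.2.2.2).2 hp
  · intro ω hω
    simp only [Finset.mem_product, Finset.mem_filter, Finset.mem_univ, true_and] at hω ⊢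
    have hs : ∀ e ∈ supp ω, e ∈ Ein a b T ∨ e ∈ Ein a b Tᶜ :=
      fun e he => Cl_edge a b A (supp ω) T hω.2.2.1 e he
    have hj := jn_cut a b T ω hs
    rw [← PL_jn a b A T S D _ _ (by rw [supp_cut]; exact Set.inter_subset_right)
      (by rw [supp_cut]; exact Set.inter_subset_right), hj]
    exact hω
  · rintro ⟨ω₁, ω₂⟩ hp
    simp only [Finset.mem_product, Finset.mem_filter, Finset.mem_univ, true_and] at hp ⊢
    rw [cut_jn1 a b T ω₁ ω₂ hp.1.2.2.2 hp.2.2.2.2, cut_jn2 a b T ω₁ ω₂ hp.1.2.2.2 hp.2.2.2.2]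
  · intro ω hω
    simp only [Finset.mem_filter, Finset.mem_univ, true_and] at hω ⊢
    exact jn_cut a b T ω (fun e he => Cl_edge a b A (supp ω) T hω.2.2.1 e he)
  · rintro ⟨ω₁, ω₂⟩ hp
    simp only [Finset.mem_product, Finset.mem_filter, Finset.mem_univ, true_and] at hp ⊢
    exact (W_jn a b J T ω₁ ω₂ hp.1.2.2.2 hp.2.2.2.2).symm

/-- the second factor as a sum over configurations with support in `Ein Tᶜ` -/
lemma FS_res (a b : E → V) (J : E → ℝ) (T S : Finset V) (D : Set E → Prop)
    (hS : S ∩ Tᶜ = S) :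
    FS a b (res a b J Tᶜ) S ∅ D = ∑ ω : E → St with P2 a b T S D ω, W J ω := by
  unfold FS
  rw [Finset.sum_filter]
  apply Finset.sum_congr rfl
  intro ω _
  unfold P2
  rw [hS]
  by_cases hs : supp ω ⊆ Ein a b Tᶜ
  · have hW : (∏ e, wst (res a b J Tᶜ e) (ω e)) = W J ω := by
      unfold W
      apply Finset.prod_congr rfl
      intro e _
      by_cases he : e ∈ Ein a b Tᶜ
      · have : res a b J Tᶜ e = J e := by
          unfold res
          exact if_pos he
        rw [this]
      · have h0 : ω e = none := none_of_not_supp (fun h => he (hs h))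
        rw [h0]
        simp [wst]
    rw [hW]
    simp only [hs, and_true]
  · have hW : (∏ e, wst (res a b J Tᶜ e) (ω e)) = 0 := by
      rw [Set.not_subset] at hs
      obtain ⟨e, he, hne⟩ := hs
      apply Finset.prod_eq_zero (Finset.mem_univ e)
      have : res a b J Tᶜ e = 0 := by
        unfold res
        exact if_neg hne
      rw [this]
      have he' : ω e ≠ none := he
      rcases hω : ω e with _ | ⟨_ | _, _ | _⟩
      · exact absurd hω he'
      all_goals simp [wst]
    rw [hW]
    simp [hs]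

end EXPaux

open EXPaux

theorem EXP (hHS2 : HS2Stmt) : EXPStmt := by
  intro V E _ _ a b J A T S D hS
  by_cases hST : S ∩ Tᶜ = S
  · have hS0 : S ∩ T = ∅ := by
      ext v
      simp only [Finset.mem_inter, Finset.notMem_empty, iff_false, not_and]
      intro h1 h2
      rw [← hST] at h1
      simp only [Finset.mem_inter, Finset.mem_compl] at h1
      exact h1.2 h2
    rw [FS_res a b J T S D hST]
    have h1 : cA a b J A T = ∑ ω : E → St with P1 a b A T S ω, W J ω := by
      unfold cA
      rw [Finset.sum_filter]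
      apply Finset.sum_congr rfl
      intro ω _
      unfold P1 W
      rw [hS0]
      congr
    have h2 : FS a b J S ∅ (fun s => Cl a b A s = T ∧ D (s ∩ Ein a b Tᶜ)) =
        ∑ ω : E → St with PL a b A T S D ω, W J ω := by
      unfold FS
      rw [Finset.sum_filter]
      apply Finset.sum_congr rfl
      intro ω _
      unfold PL W
      congr
    rw [h1, h2]
    exact sum_eq a b J A T S D
  · -- `S = {x, y}` with `y ∈ T`
    have hxy : ∃ x y, x ≠ y ∧ x ∉ T ∧ y ∈ T ∧ S = {x, y} := by
      rcases hS with rfl | ⟨x, y, hxy, hx, rfl⟩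
      · simp at hST
      · refine ⟨x, y, hxy, hx, ?_, rfl⟩
        by_contra hy
        apply hST
        ext v
        simp only [Finset.mem_inter, Finset.mem_insert, Finset.mem_singleton, Finset.mem_compl]
        constructor
        · exact fun h => h.1
        · intro h
          refine ⟨h, ?_⟩
          rcases h with rfl | rfl
          · exact hx
          · exact hy
    obtain ⟨x, y, hne, hx, hy, rfl⟩ := hxy
    have hL : FS a b J {x, y} ∅ (fun s => Cl a b A s = T ∧ D (s ∩ Ein a b Tᶜ)) = 0 := by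
      unfold FS
      apply Finset.sum_eq_zero
      intro ω _
      rw [if_neg]
      rintro ⟨h1, -, h2, -⟩
      have hc := hHS2 V E a b (par1 ω) x y hne h1
      have hsub : {e | 0 < par1 ω e} ⊆ supp ω := by
        intro e he
        exact par1_ne (Nat.pos_iff_ne_zero.1 he)
      have hc' : Conn a b (supp ω) x y := Conn_mono a b hsub hc
      -- the connection is symmetric
      have hsym : Conn a b (supp ω) y x := Conn_symm a b hc'
      rw [← h2, mem_Cl] at hy
      obtain ⟨u, hu, hcu⟩ := hy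
      apply hx
      rw [← h2, mem_Cl]
      exact ⟨u, hu, Relation.ReflTransGen.trans hcu hsym⟩
    have hR : FS a b (res a b J Tᶜ) {x, y} ∅ D = 0 := by
      unfold FS
      apply Finset.sum_eq_zero
      intro ω _
      split_ifs with h
      · have h1 := (h.1 y).2 (by simp)
        have : ∃ e, par1 ω e ≠ 0 ∧ (a e = y ∨ b e = y) := by
          by_contra hcon
          push Not at hcon
          rw [deg_zero_of a b (par1 ω) y (fun e he => hcon e he)] at h1
          simp at h1
        obtain ⟨e, he, hey⟩ := this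
        apply Finset.prod_eq_zero (Finset.mem_univ e)
        have hr : res a b J Tᶜ e = 0 := by
          unfold res
          rw [if_neg]
          rintro ⟨h3, h4⟩
          rw [Finset.mem_compl] at h3 h4
          rcases hey with h5 | h5
          · rw [h5] at h3; exact h3 hy
          · rw [h5] at h4; exact h4 hy
        rw [hr]
        have he' : ω e ≠ none := par1_ne he
        rcases hω : ω e with _ | ⟨_ | _, _ | _⟩
        · exact absurd hω he'
        all_goals simp [wst]
      · rfl
    rw [hL, hR, mul_zero]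

end Pool.RCM
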