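import Pool.Agent.H74.RCM.Stmts

set_option autoImplicit false

namespace Pool.RCM

open scoped Classical
open Finset

/-- row FIN -/
theorem FIN (h1 : TWOStmt) (h2 : ZZCStmt) (h3 : SQStmt) (h4 : NNGStmt) : FINStmt := by
  intro V E _ _ a b J A B hJ
  have hZ := (h4 V E a b J hJ).1
  have hT := (h1 V E a b J (Link a b A B) hJ).tsum_eq
  have hS : FS a b J ∅ ∅ (fun _ => True) = FS a b J ∅ ∅ (Link a b A B) + FS a b J ∅ ∅ (Sepd a b A B) := by
    unfold FS
    rw [← Finset.sum_add_distrib]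
    apply Finset.sum_congr rfl
    intro ω _
    by_cases hP : IsSrc a b (par1 ω) ∅ <;> by_cases hQ : IsSrc a b (par2 ω) ∅ <;>
      by_cases hL : Link a b A B (supp ω) <;> simp [hP, hQ, hL, Sepd]
  have hsq := h3 V E a b J ∅ ∅
  unfold PP
  rw [hT, h2 V E a b J hJ]
  have hZ2 : Zc a b J ∅ ^ 2 ≠ 0 := pow_ne_zero _ hZ.ne'
  rw [eq_sub_iff_add_eq, ← add_div, ← hS, hsq, div_eq_one_iff_eq hZ2]
  ring

end Pool.RCM
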