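import Pool.Agent.H74.RCM.Stmts

/-! Row GL1 of the board drc7. -/

set_option autoImplicit false

namespace Pool.RCM

open scoped Classical
open Finset

theorem sp_sq' {W : Type} (σ : W → Bool) (v : W) : sp σ v * sp σ v = 1 := by
  unfold sp; split_ifs <;> norm_num

theorem sp_ne' {W W' : Type} (σ : W → Bool) (τ : W' → Bool) (v : W) (u : W') (h : σ v ≠ τ u) :
    1 + sp σ v * sp τ u = 0 := by
  unfold sp
  cases hv : σ v <;> cases hu : τ u <;> simp_all

/-- GL1 -/
theorem GL1 : GL1Stmt := by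
  intro V _ F
  rw [Finset.mul_sum]
  symm
  refine Finset.sum_of_injOn (fun τ : V → Bool => (Sum.elim τ τ : V ⊕ V → Bool)) ?_ ?_ ?_ ?_
  · intro τ _ τ' _ h
    funext v
    have := congrFun h (Sum.inl v)
    simpa using this
  · intro τ _; simp
  · intro σ _ hσ
    have hex : ∃ v : V, σ (Sum.inl v) ≠ σ (Sum.inr v) := by
      by_contra hcon
      push Not at hcon
      apply hσ
      refine ⟨fun v => σ (Sum.inl v), by simp, ?_⟩
      funext s
      cases s with
      | inl v => rfl
      | inr v => exact hcon v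
    obtain ⟨v, hv⟩ := hex
    have h0 : ∏ v : V, (1 + sp σ (Sum.inl v) * sp σ (Sum.inr v)) = 0 :=
      Finset.prod_eq_zero (Finset.mem_univ v) (sp_ne' σ σ _ _ hv)
    rw [h0, zero_mul]
  · intro τ _
    have h2 : ∏ v : V, (1 + sp (Sum.elim τ τ : V ⊕ V → Bool) (Sum.inl v) *
        sp (Sum.elim τ τ : V ⊕ V → Bool) (Sum.inr v)) = 2 ^ Fintype.card V := by
      rw [Finset.prod_congr rfl (g := fun _ => (2 : ℝ))]
      · simp
      · intro v _
        have : sp (Sum.elim τ τ : V ⊕ V → Bool) (Sum.inl v) *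
            sp (Sum.elim τ τ : V ⊕ V → Bool) (Sum.inr v) = 1 := by
          have e1 : sp (Sum.elim τ τ : V ⊕ V → Bool) (Sum.inl v) = sp τ v := rfl
          have e2 : sp (Sum.elim τ τ : V ⊕ V → Bool) (Sum.inr v) = sp τ v := rfl
          rw [e1, e2]
          exact sp_sq' τ v
        rw [this]; norm_num
    rw [h2]

end Pool.RCM
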