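import Pool.Agent.H74.RCM.GL1

/-! Row GLU of the board drc7. -/

set_option autoImplicit false

namespace Pool.RCM

open scoped Classical
open Finset

theorem chi_pair' {W : Type} (σ : W → Bool) (x y : W) (h : x ≠ y) :
    chi {x, y} σ = sp σ x * sp σ y := by
  unfold chi
  rw [Finset.prod_pair h]

theorem sp_inl' {V : Type} (σ : V ⊕ V → Bool) (v : V) :
    sp (fun u : V => σ (Sum.inl u)) v = sp σ (Sum.inl v) := rfl

theorem sp_inr' {V : Type} (σ : V ⊕ V → Bool) (v : V) :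
    sp (fun u : V => σ (Sum.inr u)) v = sp σ (Sum.inr v) := rfl

theorem sum_split' {V : Type} [Fintype V] (F G : (V → Bool) → ℝ) :
    ∑ σ : V ⊕ V → Bool, F (fun u => σ (Sum.inl u)) * G (fun u => σ (Sum.inr u)) =
      (∑ σ : V → Bool, F σ) * ∑ σ : V → Bool, G σ := by
  rw [Finset.sum_mul_sum, ← Fintype.sum_prod_type'
    (f := fun (p : V → Bool) (q : V → Bool) => F p * G q)]
  exact Fintype.sum_equiv (Equiv.sumArrowEquivProdArrow V V Bool) _ _ (fun σ => rfl)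

/-- GKS with any enumeration of the configurations -/
theorem gks_inst' (h : GKSStmt) (W : Type) [Fintype W] (w f g : (W → Bool) → ℝ) (hw : Dbl w)
    (hf : Pos f) (hg : Pos g) : ∀ i : Fintype (W → Bool),
    (@Finset.sum _ _ _ (@Finset.univ _ i) (fun σ => f σ * w σ)) *
      (@Finset.sum _ _ _ (@Finset.univ _ i) (fun σ => g σ * w σ)) ≤
    (@Finset.sum _ _ _ (@Finset.univ _ i) (fun σ => f σ * g σ * w σ)) *
      (@Finset.sum _ _ _ (@Finset.univ _ i) (fun σ => w σ)) := by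
  have key := h W w f g hw hf hg
  generalize hj : (Pi.instFintype : Fintype (W → Bool)) = j at key
  intro i
  rw [Subsingleton.elim i j]
  exact key

/-- GLU -/
theorem GLU (h1 : GKSStmt) (h2 : DBLStmt) (h3 : PO1Stmt) (h4 : PO2Stmt) (h5 : SPNStmt)
    (h6 : GL1Stmt) : GLUStmt := by
  intro V E _ _ a b J J₁ J₂ x y hxy hJ₁ hJ₂ hJ
  obtain ⟨hc, hchi, hadd, hmul, -⟩ := h3 (V ⊕ V)
  obtain ⟨hexp, hprod, hsum⟩ := h4 (V ⊕ V)
  obtain ⟨hD1, hD2, hD3⟩ := h2 (V ⊕ V)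
  -- positivity of one spin
  have hsp : ∀ s : V ⊕ V, Pos (fun σ : V ⊕ V → Bool => sp σ s) := by
    intro s
    have := hchi {s}
    refine (congrArg Pos (funext fun σ => ?_)).mp this
    simp [chi]
  set H : (V ⊕ V → Bool) → ℝ := fun σ => Ham a b J₁ (fun u => σ (Sum.inl u)) +
    Ham a b J₂ (fun u => σ (Sum.inr u)) with hH
  set R : (V ⊕ V → Bool) → ℝ := fun σ => ∑ e, (J e - J₁ e - J₂ e) *
    (sp σ (Sum.inl (a e)) * sp σ (Sum.inl (b e))) with hR
  have hHP : Pos H := by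
    refine hadd _ _ ?_ ?_
    · refine hsum E Finset.univ (fun e σ => J₁ e * (sp σ (Sum.inl (a e)) * sp σ (Sum.inl (b e))))
        (fun e _ => ?_)
      exact hmul _ _ (hc _ (hJ₁ e)) (hmul _ _ (hsp _) (hsp _))
    · refine hsum E Finset.univ (fun e σ => J₂ e * (sp σ (Sum.inr (a e)) * sp σ (Sum.inr (b e))))
        (fun e _ => ?_)
      exact hmul _ _ (hc _ (hJ₂ e)) (hmul _ _ (hsp _) (hsp _))
  have hRP : Pos R := by
    refine hsum E Finset.univ (fun e σ => (J e - J₁ e - J₂ e) *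
      (sp σ (Sum.inl (a e)) * sp σ (Sum.inl (b e)))) (fun e _ => ?_)
    exact hmul _ _ (hc _ (by have := hJ e; linarith)) (hmul _ _ (hsp _) (hsp _))
  set c4 : (V ⊕ V → Bool) → ℝ := fun σ => 1 + (sp σ (Sum.inl x) * sp σ (Sum.inl y)) *
    (sp σ (Sum.inr x) * sp σ (Sum.inr y)) with hc4
  have hD4 : Dbl c4 := by
    have := hD2 {Sum.inl x, Sum.inl y, Sum.inr x, Sum.inr y}
    refine (congrArg Dbl (funext fun σ => ?_)).mp this
    have hx : (Sum.inl x : V ⊕ V) ∉ ({Sum.inl y, Sum.inr x, Sum.inr y} : Finset (V ⊕ V)) := by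
      simp [hxy]
    have hy : (Sum.inl y : V ⊕ V) ∉ ({Sum.inr x, Sum.inr y} : Finset (V ⊕ V)) := by simp
    have hr : (Sum.inr x : V ⊕ V) ≠ Sum.inr y := by simp [hxy]
    show 1 + chi _ σ = c4 σ
    unfold chi
    rw [Finset.prod_insert hx, Finset.prod_insert hy, Finset.prod_pair hr, hc4]
    ring
  have hw : Dbl (fun σ => c4 σ * Real.exp (H σ)) := hD3 _ _ hD4 (hD1 H hHP)
  have hf : Pos (fun σ : V ⊕ V → Bool => sp σ (Sum.inl x) * sp σ (Sum.inl y)) :=
    hmul _ _ (hsp _) (hsp _)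
  have hg : Pos (fun σ : V ⊕ V → Bool => (∏ v : V, (1 + sp σ (Sum.inl v) * sp σ (Sum.inr v))) *
      Real.exp (R σ)) := by
    refine hmul _ _ ?_ (hexp _ hRP)
    refine hprod V Finset.univ (fun v σ => 1 + sp σ (Sum.inl v) * sp σ (Sum.inr v)) (fun v _ => ?_)
    exact hadd _ _ (hc 1 zero_le_one) (hmul _ _ (hsp _) (hsp _))
  have key := gks_inst' h1 (V ⊕ V) _ _ _ hw hf hg inferInstance
  -- names
  set n := Fintype.card V
  have Z1 := h5 V E a b J₁ ∅
  have X1 := h5 V E a b J₁ {x, y}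
  have Z2 := h5 V E a b J₂ ∅
  have X2 := h5 V E a b J₂ {x, y}
  have Z := h5 V E a b J ∅
  have X := h5 V E a b J {x, y}
  have hche : ∀ σ : V → Bool, chi ∅ σ = 1 := fun σ => by simp [chi]
  simp only [hche, one_mul] at Z1 Z2 Z
  simp only [chi_pair' _ x y hxy] at X1 X2 X
  -- the sum of w
  have hSw : ∑ σ : V ⊕ V → Bool, c4 σ * Real.exp (H σ) =
      (2 ^ n * Zc a b J₁ ∅) * (2 ^ n * Zc a b J₂ ∅) +
      (2 ^ n * Zc a b J₁ {x, y}) * (2 ^ n * Zc a b J₂ {x, y}) := by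
    rw [← Z1, ← Z2, ← X1, ← X2, ← sum_split', ← sum_split', ← Finset.sum_add_distrib]
    refine Finset.sum_congr rfl (fun σ _ => ?_)
    simp only [hc4, hH, sp_inl', sp_inr', Real.exp_add]
    ring
  have hSfw : ∑ σ : V ⊕ V → Bool, (sp σ (Sum.inl x) * sp σ (Sum.inl y)) *
        (c4 σ * Real.exp (H σ)) =
      (2 ^ n * Zc a b J₁ {x, y}) * (2 ^ n * Zc a b J₂ ∅) +
      (2 ^ n * Zc a b J₁ ∅) * (2 ^ n * Zc a b J₂ {x, y}) := by
    rw [← Z1, ← Z2, ← X1, ← X2, ← sum_split', ← sum_split', ← Finset.sum_add_distrib]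
    refine Finset.sum_congr rfl (fun σ _ => ?_)
    simp only [hc4, hH, sp_inl', sp_inr', Real.exp_add]
    have hx := sp_sq' σ (Sum.inl x)
    have hy := sp_sq' σ (Sum.inl y)
    have : (sp σ (Sum.inl x) * sp σ (Sum.inl y)) * (sp σ (Sum.inl x) * sp σ (Sum.inl y)) = 1 := by
      calc _ = (sp σ (Sum.inl x) * sp σ (Sum.inl x)) * (sp σ (Sum.inl y) * sp σ (Sum.inl y)) := by
            ring
        _ = 1 := by rw [hx, hy, one_mul]
    calc _ = (sp σ (Sum.inl x) * sp σ (Sum.inl y) +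
          ((sp σ (Sum.inl x) * sp σ (Sum.inl y)) * (sp σ (Sum.inl x) * sp σ (Sum.inl y))) *
          (sp σ (Sum.inr x) * sp σ (Sum.inr y))) *
          (Real.exp (Ham a b J₁ fun u => σ (Sum.inl u)) *
          Real.exp (Ham a b J₂ fun u => σ (Sum.inr u))) := by ring
      _ = _ := by rw [this]; ring
  -- the sum on the diagonal
  have hdiag : ∀ τ : V → Bool, c4 (Sum.elim τ τ) * Real.exp (H (Sum.elim τ τ)) *
      Real.exp (R (Sum.elim τ τ)) = 2 * Real.exp (Ham a b J τ) := by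
    intro τ
    have e1 : ∀ v, sp (Sum.elim τ τ : V ⊕ V → Bool) (Sum.inl v) = sp τ v := fun v => rfl
    have e2 : ∀ v, sp (Sum.elim τ τ : V ⊕ V → Bool) (Sum.inr v) = sp τ v := fun v => rfl
    have hx := sp_sq' τ x
    have hy := sp_sq' τ y
    have hc42 : c4 (Sum.elim τ τ) = 2 := by
      simp only [hc4, e1, e2]
      calc _ = 1 + (sp τ x * sp τ x) * (sp τ y * sp τ y) := by ring
        _ = 2 := by rw [hx, hy]; norm_num
    rw [hc42, mul_assoc, ← Real.exp_add]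
    congr 2
    simp only [hH, hR, e1]
    have e3 : (fun u => (Sum.elim τ τ : V ⊕ V → Bool) (Sum.inl u)) = τ := rfl
    have e4 : (fun u => (Sum.elim τ τ : V ⊕ V → Bool) (Sum.inr u)) = τ := rfl
    rw [e3, e4]
    unfold Ham
    rw [← Finset.sum_add_distrib, ← Finset.sum_add_distrib]
    exact Finset.sum_congr rfl (fun e _ => by ring)
  have hSg : ∑ σ : V ⊕ V → Bool, ((∏ v : V, (1 + sp σ (Sum.inl v) * sp σ (Sum.inr v))) *
      Real.exp (R σ)) * (c4 σ * Real.exp (H σ)) = 2 ^ n * (2 * (2 ^ n * Zc a b J ∅)) := by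
    have := h6 V (fun σ => c4 σ * Real.exp (H σ) * Real.exp (R σ))
    simp only [hdiag] at this
    rw [← Finset.mul_sum, Z] at this
    rw [← this]
    exact Finset.sum_congr rfl (fun σ _ => by ring)
  have hSfg : ∑ σ : V ⊕ V → Bool, (sp σ (Sum.inl x) * sp σ (Sum.inl y)) *
      ((∏ v : V, (1 + sp σ (Sum.inl v) * sp σ (Sum.inr v))) *
      Real.exp (R σ)) * (c4 σ * Real.exp (H σ)) = 2 ^ n * (2 * (2 ^ n * Zc a b J {x, y})) := by
    have := h6 V (fun σ => (sp σ (Sum.inl x) * sp σ (Sum.inl y)) *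
      (c4 σ * Real.exp (H σ) * Real.exp (R σ)))
    simp only [hdiag] at this
    have e1 : ∀ τ : V → Bool, ∀ v, sp (Sum.elim τ τ : V ⊕ V → Bool) (Sum.inl v) = sp τ v :=
      fun τ v => rfl
    simp only [e1] at this
    have h2 : ∑ τ : V → Bool, sp τ x * sp τ y * (2 * Real.exp (Ham a b J τ)) =
        2 * (2 ^ n * Zc a b J {x, y}) := by
      rw [← X, Finset.mul_sum]
      exact Finset.sum_congr rfl (fun τ _ => by ring)
    rw [h2] at this
    rw [← this]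
    exact Finset.sum_congr rfl (fun σ _ => by ring)
  rw [hSw, hSfw, hSg, hSfg] at key
  have hpos : (0 : ℝ) < 2 ^ n := by positivity
  have hp4 : (0 : ℝ) < 2 * (2 ^ n * 2 ^ n * (2 ^ n * 2 ^ n)) := by positivity
  refine le_of_mul_le_mul_left ?_ hp4
  calc _ = (2 ^ n * Zc a b J₁ {x, y} * (2 ^ n * Zc a b J₂ ∅) +
      2 ^ n * Zc a b J₁ ∅ * (2 ^ n * Zc a b J₂ {x, y})) * (2 ^ n * (2 * (2 ^ n * Zc a b J ∅))) := by
        ring
    _ ≤ _ := key
    _ = _ := by ring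

end Pool.RCM
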