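import Pool.Agent.H74.RCM.Stmts

/-! rows HSK, HS2 of the board drc7 -/

set_option autoImplicit false

namespace Pool.RCM

open scoped Classical
open Finset

theorem HSK : HSKStmt := by
  intro V E _ _ a b n S C hS hC
  -- the sum of the degrees over C is even
  have h1 : Even (∑ v ∈ C, deg a b n v) := by
    have h2 : ∑ v ∈ C, deg a b n v
        = ∑ e, ((if a e ∈ C then n e else 0) + (if b e ∈ C then n e else 0)) := by
      unfold deg
      rw [Finset.sum_comm]
      apply Finset.sum_congr rfl
      intro e _
      rw [Finset.sum_add_distrib]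
      congr 1
      · rw [Finset.sum_ite_eq]
      · rw [Finset.sum_ite_eq]
    rw [h2]
    apply Finset.even_sum
    intro e _
    by_cases hn : 0 < n e
    · have h := hC e hn
      by_cases ha : a e ∈ C
      · have hb := h.1 ha
        rw [if_pos ha, if_pos hb]
        exact ⟨n e, rfl⟩
      · have hb : b e ∉ C := fun hb => ha (h.2 hb)
        rw [if_neg ha, if_neg hb]
        exact ⟨0, rfl⟩
    · have hn0 : n e = 0 := by omega
      simp [hn0]
  -- parity
  have h3 : (S ∩ C) = C.filter (fun v => Odd (deg a b n v)) := by
    ext v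
    simp only [Finset.mem_inter, Finset.mem_filter]
    rw [hS v]
    tauto
  rw [h3]
  have h4 := Finset.even_sum_iff_even_card_odd (s := C) (fun v => deg a b n v)
  exact h4.1 h1

theorem HS2 (h : HSKStmt) : HS2Stmt := by
  intro V E _ _ a b n x y hxy hS
  by_contra hcon
  set C : Finset V := Finset.univ.filter (fun v => Conn a b {e | 0 < n e} x v) with hCdef
  have hC : ∀ e, 0 < n e → (a e ∈ C ↔ b e ∈ C) := by
    intro e he
    simp only [hCdef, Finset.mem_filter, Finset.mem_univ, true_and]
    constructor
    · intro hh
      exact Relation.ReflTransGen.tail hh ⟨e, he, Or.inl ⟨rfl, rfl⟩⟩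
    · intro hh
      exact Relation.ReflTransGen.tail hh ⟨e, he, Or.inr ⟨rfl, rfl⟩⟩
  have h1 := h V E a b n {x, y} C hS hC
  have hx : x ∈ C := by
    simp only [hCdef, Finset.mem_filter, Finset.mem_univ, true_and]
    exact Relation.ReflTransGen.refl
  have hy : y ∉ C := by
    simp only [hCdef, Finset.mem_filter, Finset.mem_univ, true_and]
    exact hcon
  have h2 : ({x, y} : Finset V) ∩ C = {x} := by
    ext v
    simp only [Finset.mem_inter, Finset.mem_insert, Finset.mem_singleton]
    constructor
    · rintro ⟨h | h, hv⟩
      · exact h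
      · subst h; exact absurd hv hy
    · intro h
      subst h
      exact ⟨Or.inl rfl, hx⟩
  rw [h2] at h1
  simp at h1

end Pool.RCM
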