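import Pool.Agent.H74.RCM.Stmts

/-! row INS of the board drc7 -/

set_option autoImplicit false

namespace Pool.RCM

open scoped Classical
open Finset

theorem INS_conn_symm {V E : Type} (a b : E → V) (s : Set E) {u v : V} (h : Conn a b s u v) :
    Conn a b s v u := by
  unfold Conn at h ⊢
  induction h with
  | refl => exact Relation.ReflTransGen.refl
  | tail _ h2 ih =>
    obtain ⟨e, he, hj⟩ := h2
    exact Relation.ReflTransGen.head ⟨e, he, hj.symm⟩ ih

theorem INS_conn_mono {V E : Type} (a b : E → V) {s t : Set E} (hst : s ⊆ t) {u v : V}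
    (h : Conn a b s u v) : Conn a b t u v := by
  unfold Conn at h ⊢
  induction h with
  | refl => exact Relation.ReflTransGen.refl
  | tail _ h2 ih =>
    obtain ⟨e, he, hj⟩ := h2
    exact Relation.ReflTransGen.tail ih ⟨e, hst he, hj⟩

theorem INS_conn_insert {V E : Type} (a b : E → V) (s : Set E) (e : E)
    (he : Conn a b s (a e) (b e)) (u v : V) : Conn a b (insert e s) u v ↔ Conn a b s u v := by
  constructor
  · intro h
    unfold Conn at h
    induction h with
    | refl => exact Relation.ReflTransGen.refl
    | tail _ h2 ih =>
      obtain ⟨f, hf, hj⟩ := h2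
      rcases hf with hf | hf
      · subst hf
        rcases hj with ⟨h3, h4⟩ | ⟨h3, h4⟩
        · subst h3; subst h4
          exact Relation.ReflTransGen.trans ih he
        · subst h3; subst h4
          exact Relation.ReflTransGen.trans ih (INS_conn_symm a b s he)
      · exact Relation.ReflTransGen.tail ih ⟨f, hf, hj⟩
  · intro h
    exact INS_conn_mono a b (Set.subset_insert e s) h

theorem INS (h : HS2Stmt) : INSStmt := by
  intro V E _ _ a b J e S₁ S₂ A B hab hS
  unfold FS
  apply Finset.sum_congr rfl
  intro ω _
  by_cases h1 : IsSrc a b (par1 ω) S₁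
  swap
  · rw [if_neg (fun hh => h1 hh.1), if_neg (fun hh => h1 hh.1)]
  by_cases h2 : IsSrc a b (par2 ω) S₂
  swap
  · rw [if_neg (fun hh => h2 hh.2.1), if_neg (fun hh => h2 hh.2.1)]
  have hc : Conn a b (supp ω) (a e) (b e) := by
    rcases hS with hS | hS
    · subst hS
      have h3 := h V E a b (par1 ω) (a e) (b e) hab h1
      refine INS_conn_mono a b ?_ h3
      intro f hf
      simp only [Set.mem_ofPred_eq] at hf
      simp only [supp, Set.mem_ofPred_eq]
      intro hcon
      unfold par1 at hf
      rw [hcon] at hf
      simp at hf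
    · subst hS
      have h3 := h V E a b (par2 ω) (a e) (b e) hab h2
      refine INS_conn_mono a b ?_ h3
      intro f hf
      simp only [Set.mem_ofPred_eq] at hf
      simp only [supp, Set.mem_ofPred_eq]
      intro hcon
      unfold par2 at hf
      rw [hcon] at hf
      simp at hf
  have h4 : Sepd a b A B (insert e (supp ω)) ↔ Sepd a b A B (supp ω) := by
    unfold Sepd Link
    simp only [INS_conn_insert a b (supp ω) e hc]
  simp only [h4]

end Pool.RCM
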