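import Pool.Agent.H74.RCM.Stmts

set_option autoImplicit false

namespace Pool.RCM

open scoped Classical
open Finset

theorem MAR (hE : EXPStmt) (hSQ : SQStmt) (hC : CARStmt) (hR : RESStmt) : MARStmt := by
  intro V E _ _ a b J B x Q hJ
  by_cases hB : ∀ v ∈ B, v ∉ insert x Q
  · have hres := (hR V E a b J).1
    have hN : ∀ T : Finset V, Zc a b (res a b (res a b J (insert x Q)ᶜ) Tᶜ) ∅
        = Nx a b J x (Q ∪ T) := by
      intro T
      rw [hres, Nx, Finset.insert_union]
    have h1 : Nx a b J x Q ^ 2 =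
        FS a b (res a b J (insert x Q)ᶜ) ∅ ∅ (fun _ => True) := by
      rw [hSQ, Nx, sq]
    have h2 : FS a b (res a b J (insert x Q)ᶜ) ∅ ∅ (fun _ => True) =
        ∑ T : Finset V, FS a b (res a b J (insert x Q)ᶜ) ∅ ∅
          (fun s => Cl a b B s = T ∧ True) := by
      unfold FS
      rw [Finset.sum_comm]
      refine Finset.sum_congr rfl fun ω _ => ?_
      by_cases hs : IsSrc a b (par1 ω) ∅ ∧ IsSrc a b (par2 ω) ∅
      · rw [if_pos ⟨hs.1, hs.2, trivial⟩]
        rw [Finset.sum_eq_single (Cl a b B (supp ω))]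
        · rw [if_pos ⟨hs.1, hs.2, rfl, trivial⟩]
        · intro T _ hT
          rw [if_neg]
          rintro ⟨_, _, h, _⟩
          exact hT h.symm
        · intro h
          exact absurd (Finset.mem_univ _) h
      · rw [if_neg (fun h => hs ⟨h.1, h.2.1⟩)]
        symm
        refine Finset.sum_eq_zero fun T _ => ?_
        rw [if_neg (fun h => hs ⟨h.1, h.2.1⟩)]
    rw [h1, h2]
    apply le_of_eq
    refine Finset.sum_congr rfl fun T _ => ?_
    rw [hE V E a b (res a b J (insert x Q)ᶜ) B T ∅ (fun _ => True) (Or.inl rfl)]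
    rw [hC V E a b J B (insert x Q) T hB, hSQ, hN]
    by_cases hT : x ∉ T ∧ Disjoint Q T
    · rw [if_pos hT, if_pos (by rw [Finset.disjoint_insert_left]; exact hT), sq]
    · rw [if_neg hT, if_neg (by rw [Finset.disjoint_insert_left]; exact hT), zero_mul]
  · push Not at hB
    obtain ⟨v, hv, hv2⟩ := hB
    have h0 : ∑ T : Finset V, (if x ∉ T ∧ Disjoint Q T then
        cA a b J B T * Nx a b J x (Q ∪ T) ^ 2 else 0) = 0 := by
      refine Finset.sum_eq_zero fun T _ => ?_
      by_cases hT : x ∉ T ∧ Disjoint Q T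
      · rw [if_pos hT]
        have hvT : v ∉ T := by
          rw [Finset.mem_insert] at hv2
          rcases hv2 with h | h
          · rw [h]; exact hT.1
          · exact Finset.disjoint_left.mp hT.2 h
        rw [(hR V E a b J).2 B T ⟨v, hv, hvT⟩, zero_mul]
      · rw [if_neg hT]
    rw [h0]
    positivity

end Pool.RCM
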