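import Pool.Agent.H74.RCM.Stmts

set_option autoImplicit false

namespace Pool.RCM

open scoped Classical
open Finset

/-- row MON -/
theorem MON (h1 : FINStmt) (h2 : DRZStmt) (h3 : DRFStmt) (h4 : NNGStmt) : MONStmt := by
  intro V E _ _ a b J e A B hab hJ hkey
  have hupd : ∀ t : ℝ, 0 ≤ t → ∀ f, 0 ≤ upd J e t f := by
    intro t ht f
    unfold upd
    by_cases h : f = e
    · simp [h, ht]
    · simp [h, hJ f]
  set F : ℝ → ℝ := fun t => FS a b (upd J e t) ∅ ∅ (Sepd a b A B) with hF
  set Z : ℝ → ℝ := fun t => Zc a b (upd J e t) ∅ with hZ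
  set X : ℝ → ℝ := fun t => FS a b (upd J e t) {a e, b e} ∅ (Sepd a b A B) with hX
  set Y : ℝ → ℝ := fun t => Zc a b (upd J e t) {a e, b e} with hY
  have dF : ∀ t, HasDerivAt F (2 * X t) t := fun t => h3 V E a b J e A B t hab
  have dZ : ∀ t, HasDerivAt Z (Y t) t := fun t => h2 V E a b J e t hab
  have hZpos : ∀ t, 0 ≤ t → 0 < Z t := fun t ht => (h4 V E a b (upd J e t) (hupd t ht)).1
  have hK : ∀ t, 0 ≤ t → X t * Z t ≤ F t * Y t := fun t ht => hkey t ht
  -- the quotient
  set G : ℝ → ℝ := fun t => F t / Z t ^ 2 with hG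
  have dG : ∀ t, 0 ≤ t → HasDerivAt G ((2 * X t * Z t ^ 2 - F t * (2 * Z t * Y t)) / (Z t ^ 2) ^ 2) t := by
    intro t ht
    have hne : Z t ^ 2 ≠ 0 := pow_ne_zero _ (hZpos t ht).ne'
    have d := (dF t).div ((dZ t).pow 2) hne
    refine d.congr_deriv ?_
    simp only [Nat.cast_ofNat, Pi.pow_apply]
    ring
  have hanti : AntitoneOn G (Set.Ici 0) := by
    apply antitoneOn_of_deriv_nonpos (convex_Ici 0)
    · intro t ht
      exact (dG t ht).continuousAt.continuousWithinAt
    · intro t ht
      rw [interior_Ici] at ht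
      exact (dG t (le_of_lt ht)).differentiableAt.differentiableWithinAt
    · intro t ht
      rw [interior_Ici] at ht
      have ht' : (0 : ℝ) ≤ t := le_of_lt ht
      rw [(dG t ht').deriv]
      apply div_nonpos_of_nonpos_of_nonneg
      · have h5 := hK t ht'
        have h6 := hZpos t ht'
        have h7 : 2 * X t * Z t ^ 2 - F t * (2 * Z t * Y t) = 2 * Z t * (X t * Z t - F t * Y t) := by
          ring
        rw [h7]
        exact mul_nonpos_of_nonneg_of_nonpos (by positivity) (by linarith)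
      · positivity
  intro s hs t ht hst
  have hPs : PP a b (upd J e s) A B = 1 - G s := h1 V E a b (upd J e s) A B (hupd s hs)
  have hPt : PP a b (upd J e t) A B = 1 - G t := h1 V E a b (upd J e t) A B (hupd t ht)
  show PP a b (upd J e s) A B ≤ PP a b (upd J e t) A B
  rw [hPs, hPt]
  have := hanti hs ht hst
  linarith

end Pool.RCM
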