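import Pool.Agent.H74.RCM.Stmts

set_option autoImplicit false
set_option linter.unusedSectionVars false

namespace Pool.RCM

open scoped Classical
open Finset

namespace NBRaux

variable {V E : Type} [Fintype V] [Fintype E]

/-- parity current of a subset of edges -/
lemma deg_zero (a b : E → V) (v : V) : deg a b (fun _ : E => 0) v = 0 := by
  unfold deg; simp

lemma isSrc_zero (a b : E → V) (S : Finset V) : IsSrc a b (fun _ : E => 0) S ↔ S = ∅ := by
  unfold IsSrc
  constructor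
  · intro h
    ext v
    have := h v
    rw [deg_zero] at this
    simp at this
    simp [this]
  · rintro rfl v
    rw [deg_zero]
    simp

lemma Zc_zero (a b : E → V) (J : E → ℝ) (hJ : ∀ e, J e = 0) (S : Finset V) :
    Zc a b J S = if S = ∅ then 1 else 0 := by
  unfold Zc
  rw [Finset.sum_eq_single (fun _ : E => false)]
  · have : (fun e : E => if (fun _ : E => false) e then 1 else 0) = (fun _ : E => (0 : ℕ)) := by
      funext e; simp
    rw [this]
    simp only [isSrc_zero]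
    by_cases hS : S = ∅
    · simp [hS, hJ]
    · simp [hS]
  · intro η _ hη
    have : ∃ e, η e = true := by
      by_contra hcon
      push Not at hcon
      apply hη
      funext e
      simpa using hcon e
    obtain ⟨e, he⟩ := this
    have hz : (∏ e, (if η e then Real.sinh (J e) else Real.cosh (J e))) = 0 := by
      apply Finset.prod_eq_zero (Finset.mem_univ e)
      simp [he, hJ]
    rw [hz]
    simp
  · simp

lemma Zc_isolated (a b : E → V) (J : E → ℝ) (y : V)
    (hJ : ∀ e, (a e = y ∨ b e = y) → J e = 0) (S : Finset V) (hy : y ∈ S) :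
    Zc a b J S = 0 := by
  unfold Zc
  apply Finset.sum_eq_zero
  intro η _
  split_ifs with h
  · have h1 := (h y).2 hy
    have : ∃ e, η e = true ∧ (a e = y ∨ b e = y) := by
      by_contra hcon
      push Not at hcon
      have h0 : deg a b (fun e => if η e then 1 else 0) y = 0 := by
        unfold deg
        apply Finset.sum_eq_zero
        intro e _
        by_cases he : η e = true
        · have := hcon e he
          simp [this.1, this.2]
        · simp [he]
      rw [h0] at h1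
      simp at h1
    obtain ⟨e, he, hey⟩ := this
    apply Finset.prod_eq_zero (Finset.mem_univ e)
    simp [he, hJ e hey]
  · rfl

lemma Zc_mono (a b : E → V) (J₁ J : E → ℝ) (S : Finset V) (h0 : ∀ e, 0 ≤ J₁ e)
    (h : ∀ e, J₁ e ≤ J e) : Zc a b J₁ S ≤ Zc a b J S := by
  unfold Zc
  apply Finset.sum_le_sum
  intro η _
  split_ifs with hs
  · apply Finset.prod_le_prod
    · intro e _
      split_ifs
      · exact Real.sinh_nonneg_iff.2 (h0 e)
      · exact (Real.cosh_pos _).le
    · intro e _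
      split_ifs
      · exact Real.sinh_le_sinh.2 (h e)
      · exact Real.cosh_le_cosh.2 (by
          rw [abs_of_nonneg (h0 e), abs_of_nonneg ((h0 e).trans (h e))]; exact h e)
  · exact le_refl _

lemma res_nonneg (a b : E → V) (J : E → ℝ) (U : Finset V) (hJ : ∀ e, 0 ≤ J e) (e : E) :
    0 ≤ res a b J U e := by
  unfold res; split_ifs
  · exact hJ e
  · exact le_refl _

lemma res_le (a b : E → V) (J : E → ℝ) (U : Finset V) (hJ : ∀ e, 0 ≤ J e) (e : E) :
    res a b J U e ≤ J e := by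
  unfold res; split_ifs
  · exact le_refl _
  · exact hJ e

lemma res_mono (a b : E → V) (J : E → ℝ) (U U' : Finset V) (hU : U ⊆ U') (hJ : ∀ e, 0 ≤ J e)
    (e : E) : res a b J U e ≤ res a b J U' e := by
  unfold res
  by_cases h1 : a e ∈ U ∧ b e ∈ U
  · rw [if_pos h1, if_pos ⟨hU h1.1, hU h1.2⟩]
  · rw [if_neg h1]
    split_ifs
    · exact hJ e
    · exact le_refl _

lemma Br_nonneg (hNNG : NNGStmt) (hDOM : DOMStmt) (a b : E → V) (J : E → ℝ) (x y : V)
    (hxy : x ≠ y) (hJ : ∀ e, 0 ≤ J e) (Q : Finset V) : 0 ≤ Br a b J x y Q := by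
  unfold Br
  have h1 := hDOM V E a b J (res a b J Qᶜ) x y hxy (res_nonneg a b J _ hJ) (res_le a b J _ hJ)
  have h2 := (hNNG V E a b (res a b J Qᶜ) (res_nonneg a b J _ hJ)).1
  apply mul_nonneg h2.le
  nlinarith

/-- case `y ∈ S` -/
lemma case1 (hNNG : NNGStmt) (hDOM : DOMStmt) (a b : E → V) (J : E → ℝ) (e : E) (S T : Finset V)
    (hab : ∀ f, a f ≠ b f) (hJ : ∀ f, 0 ≤ J f)
    (hf : ∀ f, f ≠ e → a f ∈ S ∪ T ∨ b f ∈ S ∪ T) (hy : b e ∈ S) :
    Br a b J (a e) (b e) (S ∪ T) / Nx a b J (a e) (S ∪ T) ^ 2 ≤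
    Br a b J (a e) (b e) S / Nx a b J (a e) S ^ 2 +
      Br a b J (a e) (b e) T / Nx a b J (a e) T ^ 2 := by
  have hres : ∀ f, res a b J (S ∪ T)ᶜ f = 0 := by
    intro f
    unfold res
    rw [if_neg]
    rintro ⟨h1, h2⟩
    rw [Finset.mem_compl] at h1 h2
    by_cases hfe : f = e
    · subst hfe
      exact h2 (Finset.mem_union_left _ hy)
    · rcases hf f hfe with h | h
      · exact h1 h
      · exact h2 h
  have hres2 : ∀ f, res a b J (insert (a e) (S ∪ T))ᶜ f = 0 := by
    intro f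
    have h1 := res_mono a b J (insert (a e) (S ∪ T))ᶜ (S ∪ T)ᶜ
      (Finset.compl_subset_compl.2 (Finset.subset_insert _ _)) hJ f
    have h2 := res_nonneg a b J (insert (a e) (S ∪ T))ᶜ hJ f
    rw [hres f] at h1
    exact le_antisymm h1 h2
  have hne : ({a e, b e} : Finset V) ≠ ∅ := by simp
  have hL : Br a b J (a e) (b e) (S ∪ T) / Nx a b J (a e) (S ∪ T) ^ 2 = Zc a b J {a e, b e} := by
    unfold Br Nx
    rw [Zc_zero a b _ hres ∅, Zc_zero a b _ hres {a e, b e}, Zc_zero a b _ hres2 ∅]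
    simp [hne]
  have hS0 : Zc a b (res a b J Sᶜ) {a e, b e} = 0 := by
    apply Zc_isolated a b _ (b e)
    · intro f hfy
      unfold res
      rw [if_neg]
      rintro ⟨h1, h2⟩
      rw [Finset.mem_compl] at h1 h2
      rcases hfy with h | h
      · rw [h] at h1; exact h1 hy
      · rw [h] at h2; exact h2 hy
    · simp
  have hN := (hNNG V E a b (res a b J (insert (a e) S)ᶜ) (res_nonneg a b J _ hJ)).1
  have hZJ := (hNNG V E a b J hJ).2.1 {a e, b e}
  have hmono : Nx a b J (a e) S ≤ Zc a b (res a b J Sᶜ) ∅ := by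
    unfold Nx
    apply Zc_mono
    · exact res_nonneg a b J _ hJ
    · exact res_mono a b J _ _ (Finset.compl_subset_compl.2 (Finset.subset_insert _ _)) hJ
  have hBS : Zc a b J {a e, b e} ≤ Br a b J (a e) (b e) S / Nx a b J (a e) S ^ 2 := by
    have hNpos : 0 < Nx a b J (a e) S := hN
    rw [le_div_iff₀ (by positivity)]
    unfold Br
    rw [hS0]
    have h3 : Nx a b J (a e) S ^ 2 ≤ Zc a b (res a b J Sᶜ) ∅ ^ 2 :=
      pow_le_pow_left₀ hNpos.le hmono 2
    nlinarith
  have hBT : 0 ≤ Br a b J (a e) (b e) T / Nx a b J (a e) T ^ 2 :=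
    div_nonneg (Br_nonneg hNNG hDOM a b J _ _ (hab e) hJ T) (by positivity)
  rw [hL]
  linarith

/-- `Br S` for the case `y ∉ S` -/
lemma BrEq (hSPZ : SPZStmt) (a b : E → V) (J : E → ℝ) (e : E) (S : Finset V)
    (hab : ∀ f, a f ≠ b f) (hx : a e ∉ S) (hy : b e ∉ S) :
    Br a b J (a e) (b e) S =
      (Real.cosh (J e) * Zc a b (res a b (upd J e 0) Sᶜ) ∅ +
        Real.sinh (J e) * Zc a b (res a b (upd J e 0) Sᶜ) {a e, b e}) *
      (Zc a b (res a b (upd J e 0) Sᶜ) ∅ * Zc a b (upd J e 0) {a e, b e} -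
        Zc a b (res a b (upd J e 0) Sᶜ) {a e, b e} * Zc a b (upd J e 0) ∅) := by
  have hre : res a b J Sᶜ e = J e := by
    unfold res
    rw [if_pos]
    simp [hx, hy]
  have hru : upd (res a b J Sᶜ) e 0 = res a b (upd J e 0) Sᶜ := by
    funext f
    unfold upd res
    by_cases hfe : f = e
    · simp [hfe]
    · simp [hfe]
  have hsd1 : symmDiff (∅ : Finset V) {a e, b e} = {a e, b e} := by
    exact bot_symmDiff _
  have hsd2 : symmDiff ({a e, b e} : Finset V) {a e, b e} = ∅ := by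
    exact symmDiff_self _
  have h1 := hSPZ V E a b (res a b J Sᶜ) e ∅ (hab e)
  have h2 := hSPZ V E a b (res a b J Sᶜ) e {a e, b e} (hab e)
  have h3 := hSPZ V E a b J e ∅ (hab e)
  have h4 := hSPZ V E a b J e {a e, b e} (hab e)
  rw [hre, hru, hsd1] at h1
  rw [hre, hru, hsd2] at h2
  rw [hsd1] at h3
  rw [hsd2] at h4
  unfold Br
  rw [h1, h2, h3, h4]
  have hcs := Real.cosh_sq (J e)
  generalize Real.cosh (J e) = c at *
  generalize Real.sinh (J e) = s at *
  generalize Zc a b (res a b (upd J e 0) Sᶜ) ∅ = P0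
  generalize Zc a b (res a b (upd J e 0) Sᶜ) {a e, b e} = P1
  generalize Zc a b (upd J e 0) ∅ = Z0
  generalize Zc a b (upd J e 0) {a e, b e} = Z1
  have hcs' : c ^ 2 - s ^ 2 = 1 := by linarith
  calc (c * P0 + s * P1) * ((c * P0 + s * P1) * (c * Z1 + s * Z0) -
      (c * P1 + s * P0) * (c * Z0 + s * Z1))
      = (c * P0 + s * P1) * ((c ^ 2 - s ^ 2) * (P0 * Z1 - P1 * Z0)) := by ring
    _ = (c * P0 + s * P1) * (P0 * Z1 - P1 * Z0) := by rw [hcs']; ring

/-- CSX for the restricted couplings -/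
lemma NxSq (hCSX : CSXStmt) (a b : E → V) (J : E → ℝ) (e : E) (S : Finset V)
    (hab : ∀ f, a f ≠ b f) :
    Nx a b J (a e) S ^ 2 ≤ Zc a b (res a b (upd J e 0) Sᶜ) ∅ ^ 2 -
      Zc a b (res a b (upd J e 0) Sᶜ) {a e, b e} ^ 2 := by
  have h := hCSX V E a b (res a b (upd J e 0) Sᶜ) (a e) (b e) (hab e) hab
  have hr : res a b (res a b (upd J e 0) Sᶜ) ({a e} : Finset V)ᶜ =
      res a b J (insert (a e) S)ᶜ := by
    funext f
    unfold res upd
    by_cases hfe : f = e
    · subst hfe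
      simp
    · simp only [Finset.mem_compl, Finset.mem_singleton, Finset.mem_insert, not_or, hfe, if_false]
      by_cases h1 : a f = a e <;> by_cases h2 : b f = a e <;> simp [h1, h2]
  rw [hr] at h
  exact h

end NBRaux

open NBRaux

theorem NBR (hSPZ : SPZStmt) (hDOM : DOMStmt) (hCSX : CSXStmt) (hGLU : GLUStmt) (hALG : ALGStmt)
    (hNNG : NNGStmt) : NBRStmt := by
  intro V E _ _ a b J e S T hab hJ hST hxS hxT hf
  by_cases hyS : b e ∈ S
  · exact case1 hNNG hDOM a b J e S T hab hJ hf hyS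
  by_cases hyT : b e ∈ T
  · have h := case1 hNNG hDOM a b J e T S hab hJ (by rw [Finset.union_comm]; exact hf) hyT
    rw [Finset.union_comm T S] at h
    linarith
  -- the main case
  have hxST : a e ∉ S ∪ T := by simp [hxS, hxT]
  have hyST : b e ∉ S ∪ T := by simp [hyS, hyT]
  have hJ0 : ∀ f, 0 ≤ upd J e 0 f := by
    intro f; unfold upd; split_ifs
    · exact le_refl _
    · exact hJ f
  have hz : ∀ f, res a b (upd J e 0) (S ∪ T)ᶜ f = 0 := by
    intro f
    unfold res upd
    by_cases hfe : f = e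
    · simp [hfe]
    · rw [if_neg]
      rintro ⟨h1, h2⟩
      rw [Finset.mem_compl] at h1 h2
      rcases hf f hfe with h | h
      · exact h1 h
      · exact h2 h
  have hz2 : ∀ f, res a b J (insert (a e) (S ∪ T))ᶜ f = 0 := by
    intro f
    unfold res
    rw [if_neg]
    rintro ⟨h1, h2⟩
    rw [Finset.mem_compl, Finset.mem_insert, not_or] at h1 h2
    by_cases hfe : f = e
    · subst hfe; exact h1.1 rfl
    · rcases hf f hfe with h | h
      · exact h1.2 h
      · exact h2.2 h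
  have hne : ({a e, b e} : Finset V) ≠ ∅ := by simp
  have hL := BrEq hSPZ a b J e (S ∪ T) hab hxST hyST
  rw [Zc_zero a b _ hz ∅, Zc_zero a b _ hz {a e, b e}, if_pos rfl, if_neg hne] at hL
  have hN1 : Nx a b J (a e) (S ∪ T) = 1 := by
    unfold Nx; rw [Zc_zero a b _ hz2 ∅, if_pos rfl]
  have hBS := BrEq hSPZ a b J e S hab hxS hyS
  have hBT := BrEq hSPZ a b J e T hab hxT hyT
  have hcS := NxSq hCSX a b J e S hab
  have hcT := NxSq hCSX a b J e T hab
  have hNS : 0 < Nx a b J (a e) S := (hNNG V E a b _ (res_nonneg a b J _ hJ)).1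
  have hNT : 0 < Nx a b J (a e) T := (hNNG V E a b _ (res_nonneg a b J _ hJ)).1
  have hglu := hGLU V E a b (upd J e 0) (res a b (upd J e 0) Sᶜ) (res a b (upd J e 0) Tᶜ)
    (a e) (b e) (hab e) (res_nonneg a b _ _ hJ0) (res_nonneg a b _ _ hJ0) (by
      intro f
      by_cases hfe : f = e
      · unfold res upd; simp [hfe]
      · have hf' := hf f hfe
        simp only [Finset.mem_union] at hf'
        unfold res
        have h0 := hJ0 f
        by_cases h1 : a f ∈ Sᶜ ∧ b f ∈ Sᶜ
        · by_cases h2 : a f ∈ Tᶜ ∧ b f ∈ Tᶜ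
          · exfalso
            simp only [Finset.mem_compl] at h1 h2
            tauto
          · rw [if_pos h1, if_neg h2]; linarith
        · rw [if_neg h1]
          split_ifs <;> linarith)
  have hP0 := (hNNG V E a b _ (res_nonneg a b (upd J e 0) Sᶜ hJ0)).1
  have hP1 := (hNNG V E a b _ (res_nonneg a b (upd J e 0) Sᶜ hJ0)).2.1 {a e, b e}
  have hR0 := (hNNG V E a b _ (res_nonneg a b (upd J e 0) Tᶜ hJ0)).1
  have hR1 := (hNNG V E a b _ (res_nonneg a b (upd J e 0) Tᶜ hJ0)).2.1 {a e, b e}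
  have hZ0 := (hNNG V E a b _ hJ0).1
  have hs : 0 ≤ Real.sinh (J e) := Real.sinh_nonneg_iff.2 (hJ e)
  have hc : 0 < Real.cosh (J e) := Real.cosh_pos _
  rw [hL, hBS, hBT, hN1]
  generalize Nx a b J (a e) S = NS at *
  generalize Nx a b J (a e) T = NT at *
  generalize Real.cosh (J e) = c at *
  generalize Real.sinh (J e) = s at *
  generalize Zc a b (res a b (upd J e 0) Sᶜ) ∅ = P0 at *
  generalize Zc a b (res a b (upd J e 0) Sᶜ) {a e, b e} = P1 at *
  generalize Zc a b (res a b (upd J e 0) Tᶜ) ∅ = R0 at *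
  generalize Zc a b (res a b (upd J e 0) Tᶜ) {a e, b e} = R1 at *
  generalize Zc a b (upd J e 0) ∅ = Z0 at *
  generalize Zc a b (upd J e 0) {a e, b e} = Z1 at *
  clear hL hBS hBT hN1
  have hp1 : P1 / P0 < 1 := by
    rw [div_lt_one hP0]
    nlinarith [pow_pos hNS 2]
  have hr1 : R1 / R0 < 1 := by
    rw [div_lt_one hR0]
    nlinarith [pow_pos hNT 2]
  have hA := hALG (P0 ^ 2 / NS ^ 2) (R0 ^ 2 / NT ^ 2) (P1 / P0) (R1 / R0) (s / c) (Z1 / Z0)
    (by positivity) hp1 (by positivity) hr1 (by positivity)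
    (by
      have : P0 ^ 2 / NS ^ 2 * (1 - (P1 / P0) ^ 2) = (P0 ^ 2 - P1 ^ 2) / NS ^ 2 := by
        field_simp
      rw [this, le_div_iff₀ (by positivity)]
      linarith)
    (by
      have : R0 ^ 2 / NT ^ 2 * (1 - (R1 / R0) ^ 2) = (R0 ^ 2 - R1 ^ 2) / NT ^ 2 := by
        field_simp
      rw [this, le_div_iff₀ (by positivity)]
      linarith)
    (by
      have h1 : P1 / P0 + R1 / R0 = (Z0 * (P1 * R0 + P0 * R1)) / (Z0 * (P0 * R0)) := by
        field_simp
      have h2 : Z1 / Z0 * (1 + P1 / P0 * (R1 / R0)) =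
          (Z1 * (P0 * R0 + P1 * R1)) / (Z0 * (P0 * R0)) := by
        field_simp
      rw [h1, h2]
      exact div_le_div_of_nonneg_right hglu (by positivity))
  have hfin := mul_le_mul_of_nonneg_left hA (mul_pos hc hZ0).le
  have e1 : c * Z0 * (Z1 / Z0) = (c * 1 + s * 0) * (1 * Z1 - 0 * Z0) / 1 ^ 2 := by
    field_simp
    ring
  have e2 : c * Z0 * (P0 ^ 2 / NS ^ 2 * (1 + s / c * (P1 / P0)) * (Z1 / Z0 - P1 / P0) +
      R0 ^ 2 / NT ^ 2 * (1 + s / c * (R1 / R0)) * (Z1 / Z0 - R1 / R0)) =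
      (c * P0 + s * P1) * (P0 * Z1 - P1 * Z0) / NS ^ 2 +
      (c * R0 + s * R1) * (R0 * Z1 - R1 * Z0) / NT ^ 2 := by
    field_simp
  rw [e1, e2] at hfin
  exact hfin

end Pool.RCM
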