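import Pool.Agent.H74.RCM.Stmts

set_option autoImplicit false

namespace Pool.RCM

open scoped Classical
open Finset

theorem wst_nonneg (t : ℝ) (ht : 0 ≤ t) (s : St) : 0 ≤ wst t s := by
  have h1 : 0 ≤ Real.sinh t := Real.sinh_nonneg_iff.2 ht
  have h2 : 0 < Real.cosh t := Real.cosh_pos t
  cases s with
  | none => exact zero_le_one
  | some p =>
    rcases p with ⟨x, y⟩
    cases x <;> cases y
    · exact sq_nonneg _
    · exact mul_nonneg h1 h2.le
    · exact mul_nonneg h1 h2.le
    · exact sq_nonneg _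

theorem NNG : NNGStmt := by
  intro V E _ _ a b J hJ
  have hw : ∀ ω : E → St, 0 ≤ ∏ e, wst (J e) (ω e) :=
    fun ω => Finset.prod_nonneg (fun e _ => wst_nonneg (J e) (hJ e) (ω e))
  have hz : ∀ η : E → Bool, 0 ≤ ∏ e, (if η e then Real.sinh (J e) else Real.cosh (J e)) := by
    intro η
    refine Finset.prod_nonneg (fun e _ => ?_)
    split_ifs
    · exact Real.sinh_nonneg_iff.2 (hJ e)
    · exact (Real.cosh_pos (J e)).le
  refine ⟨?_, ?_, ?_, ?_, ?_⟩
  · unfold Zc
    refine Finset.sum_pos' (fun η _ => ?_) ⟨fun _ => false, Finset.mem_univ _, ?_⟩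
    · split_ifs
      · exact hz η
      · exact le_refl 0
    · have hs : IsSrc a b (fun e => if (fun _ : E => false) e then 1 else 0) (∅ : Finset V) := by
        intro v
        simp [deg]
      rw [if_pos hs]
      refine Finset.prod_pos (fun e _ => ?_)
      simp only [Bool.false_eq_true, if_false]
      exact Real.cosh_pos (J e)
  · intro S
    unfold Zc
    refine Finset.sum_nonneg (fun η _ => ?_)
    split_ifs
    · exact hz η
    · exact le_refl 0
  · intro S₁ S₂ D
    unfold FS
    refine Finset.sum_nonneg (fun ω _ => ?_)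
    split_ifs
    · exact hw ω
    · exact le_refl 0
  · intro A T
    unfold cA
    refine Finset.sum_nonneg (fun ω _ => ?_)
    split_ifs
    · exact hw ω
    · exact le_refl 0
  · intro S₁ S₂ D D' hD
    unfold FS
    refine Finset.sum_le_sum (fun ω _ => ?_)
    by_cases h : IsSrc a b (par1 ω) S₁ ∧ IsSrc a b (par2 ω) S₂ ∧ D (supp ω)
    · have h' : IsSrc a b (par1 ω) S₁ ∧ IsSrc a b (par2 ω) S₂ ∧ D' (supp ω) :=
        ⟨h.1, h.2.1, hD _ h.2.2⟩
      rw [if_pos h, if_pos h']
    · rw [if_neg h]
      split_ifs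
      · exact hw ω
      · exact le_refl 0

end Pool.RCM
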