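import Pool.Agent.H74.RCM.Stmts

set_option autoImplicit false

namespace Pool.RCM

open scoped Classical
open Finset

theorem sp_sq {W : Type} (σ : W → Bool) (v : W) : sp σ v * sp σ v = 1 := by
  unfold sp; split <;> norm_num

theorem chi_eq_univ {W : Type} [Fintype W] (S : Finset W) (σ : W → Bool) :
    chi S σ = ∏ v, (if v ∈ S then (if σ v then (-1 : ℝ) else 1) else 1) := by
  unfold chi sp
  rw [Finset.prod_ite_mem, Finset.univ_inter]

theorem chi_mul {W : Type} [Fintype W] (S T : Finset W) (σ : W → Bool) :
    chi S σ * chi T σ = chi (symmDiff S T) σ := by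
  rw [chi_eq_univ, chi_eq_univ, chi_eq_univ, ← Finset.prod_mul_distrib]
  refine Finset.prod_congr rfl fun v _ => ?_
  by_cases h1 : v ∈ S <;> by_cases h2 : v ∈ T <;> cases h : σ v <;> simp [Finset.mem_symmDiff, h1, h2]

theorem sum_pi_prod {W : Type} [Fintype W] (g : W → Bool → ℝ) :
    ∑ σ : W → Bool, ∏ v, g v (σ v) = ∏ v, (g v true + g v false) := by
  have h := Finset.prod_univ_sum (fun _ : W => (Finset.univ : Finset Bool)) g
  rw [Fintype.piFinset_univ] at h
  rw [← h]
  refine Finset.prod_congr rfl fun v _ => ?_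
  simp

theorem sum_chi {W : Type} [Fintype W] (S : Finset W) :
    ∑ σ : W → Bool, chi S σ = if S = ∅ then 2 ^ Fintype.card W else 0 := by
  have h := sum_pi_prod (fun (v : W) (b : Bool) => if v ∈ S then (if b then (-1 : ℝ) else 1) else 1)
  simp_rw [chi_eq_univ]
  rw [h]
  by_cases hS : S = ∅
  · rw [if_pos hS]
    subst hS
    simp
    norm_num
  · rw [if_neg hS]
    obtain ⟨v, hv⟩ := Finset.nonempty_iff_ne_empty.2 hS
    refine Finset.prod_eq_zero (Finset.mem_univ v) ?_
    simp [hv]

theorem sum_chi_mul {W : Type} [Fintype W] (S T : Finset W) :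
    ∑ σ : W → Bool, chi S σ * chi T σ = if S = T then 2 ^ Fintype.card W else 0 := by
  simp_rw [chi_mul]
  rw [sum_chi]
  simp only [← Finset.bot_eq_empty, symmDiff_eq_bot]

theorem sum_chi_dual {W : Type} [Fintype W] (σ τ : W → Bool) :
    ∑ S : Finset W, chi S σ * chi S τ = if σ = τ then 2 ^ Fintype.card W else 0 := by
  have h := Finset.prod_one_add (s := (Finset.univ : Finset W)) (f := fun v => sp σ v * sp τ v)
  rw [Finset.powerset_univ] at h
  unfold chi
  simp_rw [← Finset.prod_mul_distrib]
  rw [← h]
  split_ifs with hS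
  · subst hS
    simp_rw [sp_sq]
    simp
    norm_num
  · have : ∃ v, σ v ≠ τ v := by
      by_contra hcon
      push Not at hcon
      exact hS (funext hcon)
    obtain ⟨v, hv⟩ := this
    refine Finset.prod_eq_zero (Finset.mem_univ v) ?_
    unfold sp
    cases h1 : σ v <;> cases h2 : τ v <;> simp_all

theorem PO0 : PO0Stmt := by
  intro W _ f
  constructor
  · rintro ⟨c, hc, hf⟩ S
    have : ∑ σ : W → Bool, f σ * chi S σ = c S * 2 ^ Fintype.card W := by
      calc ∑ σ : W → Bool, f σ * chi S σ
          = ∑ σ : W → Bool, ∑ T, c T * (chi T σ * chi S σ) := by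
            refine Finset.sum_congr rfl fun σ _ => ?_
            rw [hf, Finset.sum_mul]
            refine Finset.sum_congr rfl fun T _ => ?_
            ring
        _ = ∑ T, c T * ∑ σ : W → Bool, chi T σ * chi S σ := by
            rw [Finset.sum_comm]
            refine Finset.sum_congr rfl fun T _ => ?_
            rw [Finset.mul_sum]
        _ = c S * 2 ^ Fintype.card W := by
            simp_rw [sum_chi_mul]
            simp
    rw [this]
    exact mul_nonneg (hc S) (by positivity)
  · intro h
    refine ⟨fun S => (∑ σ : W → Bool, f σ * chi S σ) / 2 ^ Fintype.card W,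
      fun S => div_nonneg (h S) (by positivity), fun τ => ?_⟩
    have hne : (2 : ℝ) ^ Fintype.card W ≠ 0 := by positivity
    have : ∑ S : Finset W, (∑ σ : W → Bool, f σ * chi S σ) / 2 ^ Fintype.card W * chi S τ
        = (∑ σ : W → Bool, f σ * ∑ S : Finset W, chi S σ * chi S τ) / 2 ^ Fintype.card W := by
      rw [eq_div_iff hne, Finset.sum_mul]
      have : ∀ S : Finset W, (∑ σ : W → Bool, f σ * chi S σ) / 2 ^ Fintype.card W * chi S τ *
          2 ^ Fintype.card W = ∑ σ : W → Bool, f σ * (chi S σ * chi S τ) := by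
        intro S
        field_simp
        rw [Finset.sum_mul]
        refine Finset.sum_congr rfl fun σ _ => ?_
        ring
      simp_rw [this]
      rw [Finset.sum_comm]
      refine Finset.sum_congr rfl fun σ _ => ?_
      rw [Finset.mul_sum]
    rw [this, eq_div_iff hne]
    simp_rw [sum_chi_dual]
    simp

end Pool.RCM
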