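import Pool.Agent.H74.RCM.PO0

set_option autoImplicit false

namespace Pool.RCM

open scoped Classical
open Finset

theorem chi_empty {W : Type} (σ : W → Bool) : chi (∅ : Finset W) σ = 1 := by
  unfold chi; simp

theorem PO1 : PO1Stmt := by
  intro W _
  refine ⟨?_, ?_, ?_, ?_, ?_⟩
  · intro c hc
    refine ⟨fun S => if S = ∅ then c else 0, fun S => ?_, fun σ => ?_⟩
    · dsimp only; split_ifs
      · exact hc
      · exact le_rfl
    · simp [chi_empty]
  · intro S
    refine ⟨fun T => if T = S then 1 else 0, fun T => ?_, fun σ => ?_⟩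
    · dsimp only; split_ifs
      · exact zero_le_one
      · exact le_rfl
    · simp
  · rintro f g ⟨c, hc, hf⟩ ⟨d, hd, hg⟩
    refine ⟨fun S => c S + d S, fun S => add_nonneg (hc S) (hd S), fun σ => ?_⟩
    dsimp only
    rw [hf, hg, ← Finset.sum_add_distrib]
    refine Finset.sum_congr rfl fun S _ => ?_
    ring
  · rintro f g ⟨c, hc, hf⟩ ⟨d, hd, hg⟩
    rw [PO0]
    intro U
    have : ∑ σ : W → Bool, f σ * g σ * chi U σ =
        ∑ S : Finset W, ∑ T : Finset W, c S * d T *
          ∑ σ : W → Bool, chi (symmDiff S T) σ * chi U σ := by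
      have h1 : ∀ σ : W → Bool, f σ * g σ * chi U σ =
          ∑ S : Finset W, ∑ T : Finset W, c S * d T * (chi (symmDiff S T) σ * chi U σ) := by
        intro σ
        rw [hf, hg, Finset.sum_mul_sum, Finset.sum_mul]
        refine Finset.sum_congr rfl fun S _ => ?_
        rw [Finset.sum_mul]
        refine Finset.sum_congr rfl fun T _ => ?_
        rw [← chi_mul]
        ring
      simp_rw [h1]
      rw [Finset.sum_comm]
      refine Finset.sum_congr rfl fun S _ => ?_
      rw [Finset.sum_comm]
      refine Finset.sum_congr rfl fun T _ => ?_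
      rw [Finset.mul_sum]
    rw [this]
    refine Finset.sum_nonneg fun S _ => Finset.sum_nonneg fun T _ => ?_
    refine mul_nonneg (mul_nonneg (hc S) (hd T)) ?_
    rw [sum_chi_mul]
    split_ifs
    · positivity
    · exact le_rfl
  · intro f hf
    have h := (PO0 W f).1 hf ∅
    simpa [chi_empty] using h

end Pool.RCM
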