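import Pool.Agent.H74.RCM.PO1

set_option autoImplicit false

namespace Pool.RCM

open scoped Classical
open Finset

theorem pos_pow {W : Type} [Fintype W] {f : (W → Bool) → ℝ} (hf : Pos f) (n : ℕ) :
    Pos (fun σ => f σ ^ n) := by
  induction n with
  | zero => simpa using (PO1 W).1 1 zero_le_one
  | succ n ih =>
    have h := (PO1 W).2.2.2.1 _ _ ih hf
    simpa [pow_succ] using h

theorem PO2 : PO2Stmt := by
  intro W _
  refine ⟨?_, ?_, ?_⟩
  · intro f hf
    rw [PO0]
    intro S
    have h1 : ∀ σ : W → Bool, HasSum (fun n : ℕ => f σ ^ n / (n.factorial : ℝ) * chi S σ)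
        (Real.exp (f σ) * chi S σ) := by
      intro σ
      have h := NormedSpace.expSeries_div_hasSum_exp (f σ)
      rw [← Real.exp_eq_exp_ℝ] at h
      exact h.mul_right _
    have h2 : HasSum (fun n : ℕ => ∑ σ : W → Bool, f σ ^ n / (n.factorial : ℝ) * chi S σ)
        (∑ σ : W → Bool, Real.exp (f σ) * chi S σ) :=
      hasSum_sum fun σ _ => h1 σ
    refine h2.nonneg fun n => ?_
    have h3 : Pos (fun σ => f σ ^ n * (1 / (n.factorial : ℝ))) :=
      (PO1 W).2.2.2.1 _ _ (pos_pow hf n) ((PO1 W).1 _ (by positivity))
    have h4 := (PO0 W _).1 h3 S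
    refine le_of_le_of_eq h4 ?_
    refine Finset.sum_congr rfl fun σ _ => ?_
    ring
  · intro ι s f
    induction s using Finset.induction_on with
    | empty =>
      intro _
      simpa using (PO1 W).1 1 zero_le_one
    | insert i s hi ih =>
      intro h
      have h1 := h i (Finset.mem_insert_self i s)
      have h2 := ih fun j hj => h j (Finset.mem_insert_of_mem hj)
      have h3 := (PO1 W).2.2.2.1 _ _ h1 h2
      simpa [Finset.prod_insert hi] using h3
  · intro ι s f
    induction s using Finset.induction_on with
    | empty =>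
      intro _
      simpa using (PO1 W).1 0 le_rfl
    | insert i s hi ih =>
      intro h
      have h1 := h i (Finset.mem_insert_self i s)
      have h2 := ih fun j hj => h j (Finset.mem_insert_of_mem hj)
      have h3 := (PO1 W).2.2.1 _ _ h1 h2
      simpa [Finset.sum_insert hi] using h3

end Pool.RCM
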