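import Pool.Agent.H74.RCM.Stmts

/-!
# RCM, row RED: reduction of `A, B` to `A', B'`
-/

set_option autoImplicit false

namespace Pool.RCM

open scoped Classical
open Finset

namespace REDAux

lemma joins_symm {V E : Type} {a b : E → V} {e : E} {u v : V} (h : Joins a b e u v) :
    Joins a b e v u := by
  rcases h with ⟨h1, h2⟩ | ⟨h1, h2⟩
  · exact Or.inr ⟨h1, h2⟩
  · exact Or.inl ⟨h1, h2⟩

lemma conn_symm {V E : Type} {a b : E → V} {s : Set E} {u v : V} (h : Conn a b s u v) :
    Conn a b s v u := by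
  induction h with
  | refl => exact Relation.ReflTransGen.refl
  | tail _ hstep ih =>
    obtain ⟨e, he, hj⟩ := hstep
    exact Relation.ReflTransGen.head ⟨e, he, joins_symm hj⟩ ih

/-- a path in `s` to a vertex from which one can reach `B` avoiding `A` either starts at such a
vertex or hits `A` -/
lemma hit {V E : Type} {a b : E → V} {A B : Set V} {s : Set E} {p q : V}
    (h : Conn a b s p q) (hq : Path a b A B q) :
    Path a b A B p ∨ ∃ w ∈ A, Conn a b s p w ∧ Conn a b s w q := by
  induction h using Relation.ReflTransGen.head_induction_on with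
  | refl => exact Or.inl hq
  | head hstep hrest ih =>
    rename_i x y
    rcases ih with ih | ⟨w, hw, h1, h2⟩
    · by_cases hx : x ∈ A
      · exact Or.inr ⟨x, hx, Relation.ReflTransGen.refl, Relation.ReflTransGen.head hstep hrest⟩
      · left
        obtain ⟨hy, u, hu, hp⟩ := ih
        obtain ⟨e, -, hj⟩ := hstep
        exact ⟨hx, u, hu, Relation.ReflTransGen.head ⟨hy, e, hj⟩ hp⟩
    · exact Or.inr ⟨w, hw, Relation.ReflTransGen.head hstep h1, h2⟩

end REDAux

theorem RED : REDStmt := by
  intro V E _ _ a b A B s hAB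
  have hAB1 : ∀ v, v ∈ A → v ∉ B := fun v h1 h2 => Set.disjoint_left.1 hAB h1 h2
  constructor
  · rintro ⟨u, hu, v, hv, h⟩
    refine ⟨u, fun hp => hp.1 hu, v, ⟨fun hp => hp.1 hv, fun hp => hp ?_⟩, h⟩
    exact ⟨fun hvA => hAB1 v hvA hv, v, hv, Relation.ReflTransGen.refl⟩
  · rintro ⟨u, hu, v, ⟨hv1, hv2⟩, h⟩
    have hu' : ¬ Path a b A B u := hu
    have hv1' : ¬ Path a b B A v := hv1
    have hv2' : Path a b A B v := by
      by_contra hc
      exact hv2 hc
    rcases REDAux.hit h hv2' with h1 | ⟨w, hw, -, h2⟩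
    · exact absurd h1 hu'
    · have hw' : Path a b B A w := ⟨hAB1 w hw, w, hw, Relation.ReflTransGen.refl⟩
      rcases REDAux.hit (REDAux.conn_symm h2) hw' with h3 | ⟨z, hz, -, h4⟩
      · exact absurd h3 hv1'
      · exact ⟨w, hw, z, hz, REDAux.conn_symm h4⟩

end Pool.RCM
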