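import Pool.Agent.H74.RCM.Stmts

set_option autoImplicit false

namespace Pool.RCM

open scoped Classical
open Finset

theorem RES : RESStmt := by
  intro V E _ _ a b J
  refine ⟨?_, ?_⟩
  · intro S T
    funext e
    simp only [res, Finset.mem_compl, Finset.mem_union, not_or]
    split_ifs <;> tauto
  · intro A T ⟨v, hv, hvT⟩
    unfold cA
    apply Finset.sum_eq_zero
    intro ω _
    rw [if_neg]
    rintro ⟨-, -, h, -⟩
    apply hvT
    rw [← h]
    unfold Cl
    rw [Finset.mem_filter]
    exact ⟨Finset.mem_univ _, v, hv, Relation.ReflTransGen.refl⟩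

end Pool.RCM
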