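import Pool.Agent.H74.RCM.Stmts

set_option autoImplicit false

namespace Pool.RCM

open scoped Classical
open Finset

namespace SPZ'

set_option linter.unusedSectionVars false

variable {V E : Type} [Fintype V] [Fintype E]

/-- flip at `e` -/
noncomputable def fl (e : E) : (E → Bool) ≃ (E → Bool) where
  toFun η := Function.update η e (!η e)
  invFun η := Function.update η e (!η e)
  left_inv η := by
    funext f
    by_cases h : f = e
    · subst h; simp
    · simp [Function.update_of_ne h]
  right_inv η := by
    funext f
    by_cases h : f = e
    · subst h; simp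
    · simp [Function.update_of_ne h]

theorem fl_same (e : E) (η : E → Bool) : fl e η e = !η e := by simp [fl]

theorem fl_ne (e : E) (η : E → Bool) {f : E} (h : f ≠ e) : fl e η f = η f := by
  simp [fl, Function.update_of_ne h]

theorem deg_split (a b : E → V) (n : E → ℕ) (e : E) (v : V) :
    deg a b n v = ((if a e = v then n e else 0) + (if b e = v then n e else 0)) +
      ∑ f ∈ Finset.univ.erase e, ((if a f = v then n f else 0) + (if b f = v then n f else 0)) := by
  unfold deg
  exact (Finset.add_sum_erase Finset.univ
    (fun f => (if a f = v then n f else 0) + (if b f = v then n f else 0))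
    (Finset.mem_univ e)).symm

theorem src_flip (a b : E → V) (e : E) (hab : a e ≠ b e) (η : E → Bool) (hη : η e = false)
    (S : Finset V) :
    IsSrc a b (fun f => if fl e η f then 1 else 0) S ↔
      IsSrc a b (fun f => if η f then 1 else 0) (symmDiff S {a e, b e}) := by
  have key : ∀ v, Odd (deg a b (fun f => if fl e η f then 1 else 0) v) ↔
      (Odd (deg a b (fun f => if η f then 1 else 0) v) ↔ ¬ (v = a e ∨ v = b e)) := by
    intro v
    rw [deg_split a b (fun f => if fl e η f then 1 else 0) e v,
      deg_split a b (fun f => if η f then 1 else 0) e v]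
    have hs : ∑ f ∈ Finset.univ.erase e, ((if a f = v then (if fl e η f then 1 else 0) else 0)
        + (if b f = v then (if fl e η f then 1 else 0) else 0)) =
        ∑ f ∈ Finset.univ.erase e, ((if a f = v then (if η f then 1 else 0) else 0)
        + (if b f = v then (if η f then 1 else 0) else 0)) := by
      apply Finset.sum_congr rfl
      intro f hf
      rw [fl_ne e η (Finset.ne_of_mem_erase hf)]
    rw [hs]
    set M := ∑ f ∈ Finset.univ.erase e, ((if a f = v then (if η f then 1 else 0) else 0)
        + (if b f = v then (if η f then 1 else 0) else 0)) with hM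
    rw [fl_same, hη]
    by_cases h1 : a e = v
    · have h2 : b e ≠ v := fun h => hab (h1.trans h.symm)
      simp [h1, h2, Nat.odd_add, parity_simps]
    · by_cases h2 : b e = v
      · simp [h1, h2, parity_simps]
      · have h3 : ¬ (v = a e ∨ v = b e) := by
          rintro (h | h)
          · exact h1 h.symm
          · exact h2 h.symm
        simp [h1, h2, h3]
  unfold IsSrc
  apply forall_congr'
  intro v
  rw [key v, Finset.mem_symmDiff, Finset.mem_insert, Finset.mem_singleton]
  tauto

end SPZ'

open SPZ' in
theorem SPZ : SPZStmt := by
  intro V E _ _ a b J e S hab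
  -- the weight without `e`
  set P : (E → Bool) → ℝ := fun η => ∏ f ∈ Finset.univ.erase e,
    (if η f then Real.sinh (J f) else Real.cosh (J f)) with hP
  have hprod : ∀ η : E → Bool, ∏ f, (if η f then Real.sinh (J f) else Real.cosh (J f)) =
      (if η e then Real.sinh (J e) else Real.cosh (J e)) * P η := by
    intro η
    exact (Finset.mul_prod_erase Finset.univ
      (fun f => if η f then Real.sinh (J f) else Real.cosh (J f)) (Finset.mem_univ e)).symm
  have hprod0 : ∀ η : E → Bool,
      ∏ f, (if η f then Real.sinh (upd J e 0 f) else Real.cosh (upd J e 0 f)) =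
      (if η e then 0 else 1) * P η := by
    intro η
    rw [← Finset.mul_prod_erase _ _ (Finset.mem_univ e)]
    congr 1
    · simp [upd]
    · rw [hP]
      apply Finset.prod_congr rfl
      intro f hf
      have : f ≠ e := Finset.ne_of_mem_erase hf
      simp [upd, this]
  have hPfl : ∀ η : E → Bool, P (fl e η) = P η := by
    intro η
    rw [hP]
    apply Finset.prod_congr rfl
    intro f hf
    rw [fl_ne e η (Finset.ne_of_mem_erase hf)]
  have hL : Zc a b J S = ∑ η : E → Bool,
      ((if η e then 0 else (if IsSrc a b (fun f => if η f then 1 else 0) S then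
          Real.cosh (J e) * P η else 0)) +
       (if η e then (if IsSrc a b (fun f => if η f then 1 else 0) S then
          Real.sinh (J e) * P η else 0) else 0)) := by
    unfold Zc
    apply Finset.sum_congr rfl
    intro η _
    rw [hprod η]
    by_cases h : η e <;> simp [h]
  have hR1 : Real.cosh (J e) * Zc a b (upd J e 0) S = ∑ η : E → Bool,
      (if η e then 0 else (if IsSrc a b (fun f => if η f then 1 else 0) S then
          Real.cosh (J e) * P η else 0)) := by
    unfold Zc
    rw [Finset.mul_sum]
    apply Finset.sum_congr rfl
    intro η _
    rw [hprod0 η]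
    by_cases h : η e <;> simp [h]
  have hR2 : Real.sinh (J e) * Zc a b (upd J e 0) (symmDiff S {a e, b e}) = ∑ η : E → Bool,
      (if η e then (if IsSrc a b (fun f => if η f then 1 else 0) S then
          Real.sinh (J e) * P η else 0) else 0) := by
    rw [← Equiv.sum_comp (fl e) (fun η : E → Bool =>
      (if η e then (if IsSrc a b (fun f => if η f then 1 else 0) S then
          Real.sinh (J e) * P η else 0) else 0))]
    unfold Zc
    rw [Finset.mul_sum]
    apply Finset.sum_congr rfl
    intro η _
    rw [hprod0 η, hPfl η, fl_same]
    by_cases h : η e
    · simp [h]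
    · have h' : η e = false := by simpa using h
      simp only [h', Bool.not_false, if_true, Bool.false_eq_true, if_false, one_mul]
      rw [src_flip a b e hab η h' S]
      split_ifs <;> simp
  rw [hL, Finset.sum_add_distrib, hR1, hR2]

end Pool.RCM
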