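import Pool.Agent.H74.RCM.Stmts

set_option autoImplicit false

namespace Pool.RCM

open scoped Classical
open Finset

/-- parities of a state -/
def parSt : St → Bool × Bool
  | none => (false, false)
  | some p => p

/-- weight of a parity -/
noncomputable def wpar (t : ℝ) (x : Bool) : ℝ := if x then Real.sinh t else Real.cosh t

theorem sum_fibre_wst (t : ℝ) (p : Bool × Bool) :
    ∑ s ∈ (Finset.univ : Finset St).filter (fun s => parSt s = p), wst t s
      = wpar t p.1 * wpar t p.2 := by
  rw [Finset.sum_filter]
  have hS : ∀ f : St → ℝ, ∑ s : St, f s = f none + (f (some (true, true)) + f (some (true, false))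
      + (f (some (false, true)) + f (some (false, false)))) := by
    intro f
    rw [Fintype.sum_option, Fintype.sum_prod_type, Fintype.sum_bool, Fintype.sum_bool,
      Fintype.sum_bool]
  rw [hS]
  have hc : Real.cosh t ^ 2 = Real.sinh t ^ 2 + 1 := Real.cosh_sq t
  rcases p with ⟨x, y⟩
  cases x <;> cases y <;> simp [parSt, wst, wpar]
  · nlinarith [hc]
  · ring
  · ring

theorem SQ : SQStmt := by
  intro V E _ _ a b J S₁ S₂
  unfold FS Zc
  have key : ∀ p : E → Bool × Bool,
      ∑ ω ∈ (Finset.univ : Finset (E → St)).filter (fun ω => (fun e => parSt (ω e)) = p),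
        ∏ e, wst (J e) (ω e) = ∏ e, (wpar (J e) (p e).1 * wpar (J e) (p e).2) := by
    intro p
    have h1 : (Finset.univ : Finset (E → St)).filter (fun ω => (fun e => parSt (ω e)) = p)
        = Fintype.piFinset (fun e => (Finset.univ : Finset St).filter
            (fun s => parSt s = p e)) := by
      ext ω
      simp only [Finset.mem_filter, Finset.mem_univ, true_and, Fintype.mem_piFinset]
      constructor
      · intro h e
        exact congrFun h e
      · intro h
        funext e
        exact h e
    rw [h1, ← Finset.prod_univ_sum]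
    exact Finset.prod_congr rfl (fun e _ => sum_fibre_wst (J e) (p e))
  have hp1 : ∀ ω : E → St, par1 ω = fun e => if (parSt (ω e)).1 then 1 else 0 := by
    intro ω
    funext e
    unfold par1
    cases h : ω e with
    | none => rfl
    | some p => rfl
  have hp2 : ∀ ω : E → St, par2 ω = fun e => if (parSt (ω e)).2 then 1 else 0 := by
    intro ω
    funext e
    unfold par2
    cases h : ω e with
    | none => rfl
    | some p => rfl
  have hfib : ∑ ω : E → St, (if IsSrc a b (par1 ω) S₁ ∧ IsSrc a b (par2 ω) S₂ ∧
        (fun _ : Set E => True) (supp ω)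
        then ∏ e, wst (J e) (ω e) else 0)
      = ∑ p : E → Bool × Bool, (if IsSrc a b (fun e => if (p e).1 then 1 else 0) S₁ ∧
          IsSrc a b (fun e => if (p e).2 then 1 else 0) S₂
        then ∏ e, (wpar (J e) (p e).1 * wpar (J e) (p e).2) else 0) := by
    rw [← Finset.sum_fiberwise (Finset.univ : Finset (E → St)) (fun ω => (fun e => parSt (ω e)))]
    refine Finset.sum_congr rfl (fun p _ => ?_)
    by_cases hc : IsSrc a b (fun e => if (p e).1 then 1 else 0) S₁ ∧
          IsSrc a b (fun e => if (p e).2 then 1 else 0) S₂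
    · rw [if_pos hc, ← key p]
      refine Finset.sum_congr rfl (fun ω hω => ?_)
      have hω' : (fun e => parSt (ω e)) = p := (Finset.mem_filter.1 hω).2
      rw [if_pos]
      rw [hp1, hp2]
      subst hω'
      exact ⟨hc.1, hc.2, trivial⟩
    · rw [if_neg hc]
      refine Finset.sum_eq_zero (fun ω hω => ?_)
      have hω' : (fun e => parSt (ω e)) = p := (Finset.mem_filter.1 hω).2
      rw [if_neg]
      intro h
      apply hc
      rw [hp1, hp2] at h
      subst hω'
      exact ⟨h.1, h.2.1⟩
  refine (Finset.sum_congr rfl (fun ω _ => ?_)).trans (hfib.trans ?_)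
  · by_cases h : IsSrc a b (par1 ω) S₁ ∧ IsSrc a b (par2 ω) S₂ ∧
        (fun _ : Set E => True) (supp ω)
    · rw [if_pos h, if_pos h]
    · rw [if_neg h, if_neg h]
  rw [Finset.sum_mul_sum, ← Finset.sum_product', Finset.univ_product_univ]
  rw [← Equiv.sum_comp (Equiv.arrowProdEquivProdArrow E (fun _ => Bool) (fun _ => Bool)).symm]
  refine Finset.sum_congr rfl (fun q _ => ?_)
  rcases q with ⟨η, θ⟩
  have e1 : ∀ e, ((Equiv.arrowProdEquivProdArrow E (fun _ => Bool) (fun _ => Bool)).symm (η, θ)) e
      = (η e, θ e) := fun e => rfl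
  simp only [e1]
  rw [Finset.prod_mul_distrib]
  by_cases h1 : IsSrc a b (fun e => if η e then 1 else 0) S₁
  · by_cases h2 : IsSrc a b (fun e => if θ e then 1 else 0) S₂
    · rw [if_pos ⟨h1, h2⟩, if_pos h1, if_pos h2]
      rfl
    · rw [if_neg (fun h => h2 h.2), if_neg h2, mul_zero]
  · rw [if_neg (fun h => h1 h.1), if_neg h1, zero_mul]

end Pool.RCM
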