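import Pool.Agent.H74.RCM.Stmts

set_option autoImplicit false

namespace Pool.RCM

open scoped Classical
open Finset

/-- exchange the two currents in a state -/
def swSt : St → St := Option.map Prod.swap

theorem swSt_swSt (s : St) : swSt (swSt s) = s := by
  cases s with
  | none => rfl
  | some p => rcases p with ⟨x, y⟩; rfl

theorem wst_swSt (t : ℝ) (s : St) : wst t (swSt s) = wst t s := by
  cases s with
  | none => rfl
  | some p => rcases p with ⟨x, y⟩; cases x <;> cases y <;> rfl

theorem par1_sw {E : Type} (ω : E → St) : par1 (fun e => swSt (ω e)) = par2 ω := by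
  funext e
  unfold par1 par2
  beta_reduce
  cases h : ω e with
  | none => rfl
  | some p => rcases p with ⟨x, y⟩; rfl

theorem par2_sw {E : Type} (ω : E → St) : par2 (fun e => swSt (ω e)) = par1 ω := by
  funext e
  unfold par1 par2
  beta_reduce
  cases h : ω e with
  | none => rfl
  | some p => rcases p with ⟨x, y⟩; rfl

theorem supp_sw {E : Type} (ω : E → St) : supp (fun e => swSt (ω e)) = supp ω := by
  ext e
  unfold supp
  simp only [Set.mem_ofPred_eq]
  cases h : ω e with
  | none => simp [swSt]
  | some p => simp [swSt]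

/-- the involution on configurations -/
def swEq (E : Type) : (E → St) ≃ (E → St) where
  toFun ω := fun e => swSt (ω e)
  invFun ω := fun e => swSt (ω e)
  left_inv ω := by funext e; exact swSt_swSt (ω e)
  right_inv ω := by funext e; exact swSt_swSt (ω e)

theorem SYM : SYMStmt := by
  intro V E _ _ a b J S₁ S₂ D
  unfold FS
  rw [← Equiv.sum_comp (swEq E)]
  refine Finset.sum_congr rfl (fun ω _ => ?_)
  have h1 : par1 (swEq E ω) = par2 ω := par1_sw ω
  have h2 : par2 (swEq E ω) = par1 ω := par2_sw ω
  have h3 : supp (swEq E ω) = supp ω := supp_sw ω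
  have h4 : ∏ e, wst (J e) (swEq E ω e) = ∏ e, wst (J e) (ω e) :=
    Finset.prod_congr rfl (fun e _ => wst_swSt (J e) (ω e))
  rw [h1, h2, h3, h4]
  have h5 : (IsSrc a b (par2 ω) S₁ ∧ IsSrc a b (par1 ω) S₂ ∧ D (supp ω)) ↔
      (IsSrc a b (par1 ω) S₂ ∧ IsSrc a b (par2 ω) S₁ ∧ D (supp ω)) := by tauto
  simp only [h5]

end Pool.RCM
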