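import Pool.Agent.H74.RCM.Stmts

/-! rows MAI, TH1, TH2, DOM of the board drc7 -/

set_option autoImplicit false

namespace Pool.RCM

open scoped Classical
open Finset

theorem DOM (h : GLUStmt) : DOMStmt := by
  intro V E _ _ a b J J₁ x y hxy h1 h2
  have hz0 : Zc a b (fun _ => (0:ℝ)) ∅ = 1 := by
    unfold Zc
    rw [Finset.sum_eq_single (fun _ => false)]
    · have : IsSrc a b (fun _ : E => if (false : Bool) = true then 1 else 0) ∅ := by
        intro v; simp [deg]
      rw [if_pos (by simpa using this)]
      simp
    · intro η _ hη
      split_ifs with hh
      · have : ∃ e, η e = true := by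
          by_contra hcon
          push Not at hcon
          apply hη
          funext e
          simpa using hcon e
        obtain ⟨e, he⟩ := this
        apply Finset.prod_eq_zero (Finset.mem_univ e)
        simp [he]
      · rfl
    · intro hh; exact absurd (Finset.mem_univ _) hh
  have hz1 : Zc a b (fun _ => (0:ℝ)) {x, y} = 0 := by
    unfold Zc
    apply Finset.sum_eq_zero
    intro η _
    split_ifs with hh
    · by_cases hη : ∃ e, η e = true
      · obtain ⟨e, he⟩ := hη
        apply Finset.prod_eq_zero (Finset.mem_univ e)
        simp [he]
      · push Not at hη
        exfalso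
        have hx := (hh x).2 (by simp)
        have : deg a b (fun e => if η e = true then 1 else 0) x = 0 := by
          unfold deg
          apply Finset.sum_eq_zero
          intro e _
          have := hη e
          simp [this]
        rw [this] at hx
        simp at hx
    · rfl
  have := h V E a b J J₁ (fun _ => 0) x y hxy h1 (fun _ => le_refl _) (by intro e; simpa using h2 e)
  rw [hz0, hz1] at this
  simp only [mul_one, mul_zero, add_zero] at this
  calc Zc a b J₁ {x, y} * Zc a b J ∅ = Zc a b J ∅ * Zc a b J₁ {x, y} := by ring
    _ ≤ _ := this

theorem MAI (hred : REDStmt) (htou : TOUStmt) (hbri : BRIStmt) (huni : UNIStmt) : MAIStmt := by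
  intro V E _ _ a b J e A B hab hJ hg
  by_cases hd : Disjoint A B
  · set A' : Set V := {v | ¬ Path a b A B v} with hA'
    set B' : Set V := {v | ¬ Path a b B A v} \ A' with hB'
    have hS : Sepd a b A B = Sepd a b A' B' := by
      funext s
      unfold Sepd
      rw [hred V E a b A B s hd]
    have hout : ∀ v, v ∉ Free a b A B → v ∈ A' ∪ B' := by
      intro v hv
      by_cases h1 : v ∈ A'
      · exact Or.inl h1
      · right
        refine ⟨?_, h1⟩
        intro h2
        apply hv
        have h1' : Path a b A B v := by
          by_contra hh; exact h1 hh
        exact ⟨h1'.1, h2.1, h1', h2⟩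
    have hkey : Key a b J A' B' e → Key a b J A B e := by
      unfold Key
      rw [hS]
      exact id
    have hin : ∀ f, ¬ InFree a b A B f → a f ∈ A' ∪ B' ∨ b f ∈ A' ∪ B' := by
      intro f hf
      unfold InFree at hf
      rw [not_and_or] at hf
      exact hf.imp (hout _) (hout _)
    rcases hg with h | h | h
    · exact hkey (htou V E a b J e A' B' (hab e) hJ (hin e h))
    · exact hbri V E a b J e A B hJ h
    · exact hkey (huni V E a b J e A' B' hab hJ (fun f hf => hin f (h f hf)))
  · have hz : ∀ S₁ S₂, FS a b J S₁ S₂ (Sepd a b A B) = 0 := by
      intro S₁ S₂
      unfold FS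
      apply Finset.sum_eq_zero
      intro ω _
      rw [if_neg]
      rintro ⟨_, _, h⟩
      rw [Set.not_disjoint_iff] at hd
      obtain ⟨v, hv1, hv2⟩ := hd
      exact h ⟨v, hv1, v, hv2, Relation.ReflTransGen.refl⟩
    unfold Key
    rw [hz, hz]
    simp

theorem TH1 (hmon : MONStmt) (hmai : MAIStmt) : TH1Stmt := by
  intro V E _ _ a b J e A B hab hJ hg
  apply hmon V E a b J e A B (hab e) hJ
  intro t ht
  apply hmai V E a b _ e A B hab _ hg
  intro f
  unfold upd
  split_ifs
  · exact ht
  · exact hJ f

theorem TH2 (h1 : TH1Stmt) : TH2Stmt := by
  intro V E _ _ a b J J' A B hab hJ hJJ hg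
  -- couplings equal to `J'` on `s`, to `J` elsewhere
  have main : ∀ s : Finset E, PP a b J A B ≤ PP a b (fun f => if f ∈ s then J' f else J f) A B := by
    intro s
    induction s using Finset.induction_on with
    | empty => simp
    | insert e s hes ih =>
      refine ih.trans ?_
      by_cases he : J e = J' e
      · apply le_of_eq
        congr 1
        funext f
        by_cases hf : f = e
        · subst hf; simp [hes, he]
        · simp [hf]
      · set K : E → ℝ := fun f => if f ∈ s then J' f else J f with hK
        have hK0 : ∀ f, 0 ≤ K f := by
          intro f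
          simp only [hK]
          split_ifs
          · exact (hJ f).trans (hJJ f)
          · exact hJ f
        have hm := h1 V E a b K e A B hab hK0 (hg e he)
        have e1 : upd K e (J e) = K := by
          funext f
          unfold upd
          split_ifs with hf
          · subst hf; simp [hK, hes]
          · rfl
        have e2 : upd K e (J' e) = fun f => if f ∈ insert e s then J' f else J f := by
          funext f
          unfold upd
          split_ifs with hf hf2 hf2
          · subst hf; rfl
          · subst hf; exact absurd (Finset.mem_insert_self _ _) hf2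
          · have : f ∈ s := by
              rcases Finset.mem_insert.1 hf2 with h | h
              · exact absurd h hf
              · exact h
            simp [hK, this]
          · have : f ∉ s := fun h => hf2 (Finset.mem_insert_of_mem h)
            simp [hK, this]
        have := hm (Set.mem_Ici.2 (hJ e)) (Set.mem_Ici.2 ((hJ e).trans (hJJ e))) (hJJ e)
        simp only [e1, e2] at this
        exact this
  have := main Finset.univ
  simpa using this

end Pool.RCM
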