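import Pool.Agent.H74.RCM.DE1

/-!
# RCM: row TOU (an edge which touches `A ∪ B`)
-/

set_option autoImplicit false

namespace Pool.RCM

open scoped Classical
open Finset

theorem tou_res_nonneg {V E : Type} (a b : E → V) (J : E → ℝ) (hJ : ∀ f, 0 ≤ J f)
    (U : Finset V) (f : E) : 0 ≤ res a b J U f := by
  unfold res
  split_ifs
  · exact hJ f
  · exact le_rfl

theorem tou_res_le {V E : Type} (a b : E → V) (J : E → ℝ) (hJ : ∀ f, 0 ≤ J f)
    (U : Finset V) (f : E) : res a b J U f ≤ J f := by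
  unfold res
  split_ifs
  · exact le_rfl
  · exact hJ f

/-- the case of an end point in `A` -/
theorem tou_aux (hEXP : EXPStmt) (hSQ : SQStmt) (hDOM : DOMStmt) (hNNG : NNGStmt)
    (V E : Type) [Fintype V] [Fintype E] (a b : E → V) (J : E → ℝ) (A B : Set V) (x y : V)
    (hxy : x ≠ y) (hJ : ∀ f, 0 ≤ J f) (hx : x ∈ A) :
    FS a b J {x, y} ∅ (Sepd a b A B) * Zc a b J ∅ ≤
      FS a b J ∅ ∅ (Sepd a b A B) * Zc a b J {x, y} := by
  have hsplit : ∀ S : Finset V, (S = ∅ ∨ S = {x, y}) → FS a b J S ∅ (Sepd a b A B) =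
      ∑ T : Finset V, if (∀ v ∈ A, v ∉ T) then
        cA a b J B T * (Zc a b (res a b J Tᶜ) S * Zc a b (res a b J Tᶜ) ∅) else 0 := by
    intro S hS
    have h1 : FS a b J S ∅ (Sepd a b A B) =
        FS a b J S ∅ (fun s => (fun T : Finset V => ∀ v ∈ A, v ∉ T) (Cl a b B s)) :=
      de1_FS_congr a b J S ∅ _ _ fun s => de1_sepd_iff a b A B s
    rw [h1, de1_FS_split a b J S ∅ B (fun T : Finset V => ∀ v ∈ A, v ∉ T)]
    refine Finset.sum_congr rfl fun T _ => ?_
    by_cases hT : ∀ v ∈ A, v ∉ T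
    · rw [if_pos hT, if_pos hT]
      have h2 := hEXP V E a b J B T S (fun _ => True) (by
        rcases hS with h | h
        · exact Or.inl h
        · exact Or.inr ⟨x, y, hxy, hT x hx, h⟩)
      rw [← hSQ V E a b (res a b J Tᶜ) S ∅]
      exact h2
    · rw [if_neg hT, if_neg hT]
  rw [hsplit {x, y} (Or.inr rfl), hsplit ∅ (Or.inl rfl), Finset.sum_mul, Finset.sum_mul]
  refine Finset.sum_le_sum fun T _ => ?_
  by_cases hT : ∀ v ∈ A, v ∉ T
  · rw [if_pos hT, if_pos hT]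
    have h3 := hDOM V E a b J (res a b J Tᶜ) x y hxy (tou_res_nonneg a b J hJ Tᶜ)
      (tou_res_le a b J hJ Tᶜ)
    have h4 : 0 ≤ cA a b J B T := (hNNG V E a b J hJ).2.2.2.1 B T
    have h5 : 0 < Zc a b (res a b J Tᶜ) ∅ :=
      (hNNG V E a b (res a b J Tᶜ) (tou_res_nonneg a b J hJ Tᶜ)).1
    have h6 := mul_le_mul_of_nonneg_left h3 (mul_nonneg h4 h5.le)
    nlinarith [h6]
  · rw [if_neg hT, if_neg hT]
    simp

theorem TOU (hEXP : EXPStmt) (hSQ : SQStmt) (hDOM : DOMStmt) (hNNG : NNGStmt) : TOUStmt := by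
  intro V E _ _ a b J e A B hab hJ he
  unfold Key
  have hsy : ∀ (S : Finset V), FS a b J S ∅ (Sepd a b A B) = FS a b J S ∅ (Sepd a b B A) :=
    fun S => de1_FS_congr a b J S ∅ _ _ fun s => de1_sepd_symm a b A B s
  rcases he with (h | h) | (h | h)
  · exact tou_aux hEXP hSQ hDOM hNNG V E a b J A B (a e) (b e) hab hJ h
  · rw [hsy, hsy]
    exact tou_aux hEXP hSQ hDOM hNNG V E a b J B A (a e) (b e) hab hJ h
  · rw [Finset.pair_comm (a e) (b e)]
    exact tou_aux hEXP hSQ hDOM hNNG V E a b J A B (b e) (a e) (Ne.symm hab) hJ h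
  · rw [hsy, hsy, Finset.pair_comm (a e) (b e)]
    exact tou_aux hEXP hSQ hDOM hNNG V E a b J B A (b e) (a e) (Ne.symm hab) hJ h

end Pool.RCM
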