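import Pool.Agent.H74.RCM.ALG
import Pool.Agent.H74.RCM.BRI
import Pool.Agent.H74.RCM.CAR
import Pool.Agent.H74.RCM.CLS
import Pool.Agent.H74.RCM.CSX
import Pool.Agent.H74.RCM.DBL
import Pool.Agent.H74.RCM.DE1
import Pool.Agent.H61.RCM.DE2
import Pool.Agent.H74.RCM.DEC
import Pool.Agent.H74.RCM.TH1
import Pool.Agent.H74.RCM.DRF
import Pool.Agent.H74.RCM.DRZ
import Pool.Agent.H74.RCM.EXP
import Pool.Agent.H74.RCM.FIN
import Pool.Agent.H95.RCM.GEN
import Pool.Agent.H74.RCM.GKS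
import Pool.Agent.H74.RCM.GL1
import Pool.Agent.H74.RCM.GLU
import Pool.Agent.H74.RCM.HSK
import Pool.Agent.H74.RCM.INS
import Pool.Agent.H74.RCM.MAR
import Pool.Agent.H74.RCM.MON
import Pool.Agent.H74.RCM.NBR
import Pool.Agent.H74.RCM.NNG
import Pool.Agent.H65.RCM.PAR
import Pool.Agent.H61.RCM.PIH
import Pool.Agent.H74.RCM.PO0
import Pool.Agent.H74.RCM.PO1
import Pool.Agent.H74.RCM.PO2
import Pool.Agent.H74.RCM.RED
import Pool.Agent.H74.RCM.RES
import Pool.Agent.H17.RCM.SPL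
import Pool.Agent.H17.RCM.SPN
import Pool.Agent.H74.RCM.SPZ
import Pool.Agent.H74.RCM.SQ
import Pool.Agent.H74.RCM.SYM
import Pool.Agent.H74.RCM.TOU
import Pool.Agent.H95.RCM.TWO
import Pool.Agent.H65.RCM.ZZC
import Pool.Agent.H61.RCM.UNI

/-! assembly of the board drc7 -/

set_option autoImplicit false

namespace Pool.RCM

theorem hs2 : HS2Stmt := HS2 HSK
theorem gen : GENStmt := GEN PIH
theorem two : TWOStmt := TWO CLS gen PAR
theorem fin : FINStmt := FIN two (ZZC PIH) SQ NNG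
theorem mon : MONStmt := MON fin (DRZ SPZ) (DRF SPL (INS hs2) SYM) NNG
theorem bri : BRIStmt := BRI SPL SPZ hs2 NNG
theorem gks : GKSStmt := GKS PO1
theorem glu : GLUStmt := GLU gks (DBL PO1 PO2) PO1 PO2 SPN GL1
theorem dom : DOMStmt := DOM glu
theorem csx : CSXStmt := CSX SPN
theorem exq : EXPStmt := EXP hs2
theorem tou : TOUStmt := TOU exq SQ dom NNG
theorem de1 : DE1Stmt := DE1 exq
theorem dec : DECStmt := DEC de1 (DE2 exq de1 CAR RES)
theorem mar : MARStmt := MAR exq SQ CAR RES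
theorem nbr : NBRStmt := NBR SPZ dom csx glu ALG NNG
theorem uni : UNIStmt := UNI dec SQ mar nbr dom NNG RES
theorem mai : MAIStmt := MAI RED tou bri uni
theorem th1 : TH1Stmt := TH1 mon mai
theorem th2 : TH2Stmt := TH2 th1

/-- the ends of a nearest-neighbour pair are different -/
theorem nn_ne {d : ℕ} (Λ : Finset (Fin d → ℤ)) (e : NN Λ) : na Λ e ≠ nb Λ e := by
  obtain ⟨⟨x, y⟩, i, hi⟩ := e
  intro h
  have h1 : x = y := h
  subst h1
  have h2 := congrFun hi i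
  simp at h2

/-- the lattice form -/
theorem lattice {d : ℕ} (Λ : Finset (Fin d → ℤ)) (A B : Set Λ)
    (h : ∀ e : NN Λ, Good (na Λ) (nb Λ) A B e) : MonotoneOn (fAB Λ A B) (Set.Ici 0) := by
  intro s hs t ht hst
  exact th2 Λ (NN Λ) (na Λ) (nb Λ) (fun _ => s) (fun _ => t) A B (nn_ne Λ) (fun _ => hs)
    (fun _ => hst) (fun e _ => h e)

end Pool.RCM
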