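import Pool.Agent.H74.RCM.Stmts

/-!
# RCM, row GKS: second Griffiths inequality by duplication
-/

set_option autoImplicit false

namespace Pool.RCM

open scoped Classical
open Finset

namespace GKSAux

lemma sp_xor {W : Type} (σ ρ : W → Bool) (v : W) :
    sp (fun v => xor (σ v) (ρ v)) v = sp σ v * sp ρ v := by
  change (if xor (σ v) (ρ v) then (-1 : ℝ) else 1) =
    (if σ v then (-1 : ℝ) else 1) * (if ρ v then (-1 : ℝ) else 1)
  generalize σ v = p
  generalize ρ v = q
  cases p <;> cases q <;> norm_num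

lemma chi_xor {W : Type} (T : Finset W) (σ ρ : W → Bool) :
    chi T (fun v => xor (σ v) (ρ v)) = chi T σ * chi T ρ := by
  unfold chi
  rw [← Finset.prod_mul_distrib]
  exact Finset.prod_congr rfl fun v _ => sp_xor σ ρ v

lemma chi_le_one {W : Type} (T : Finset W) (ρ : W → Bool) : chi T ρ ≤ 1 := by
  have h : |∏ v ∈ T, sp ρ v| = 1 := by
    rw [Finset.abs_prod]
    apply Finset.prod_eq_one
    intro v _
    unfold sp
    split_ifs <;> simp
  exact (le_abs_self _).trans h.le

end GKSAux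

theorem GKS (h1 : PO1Stmt) : GKSStmt := by
  intro W _ w f g hw hf hg
  obtain ⟨-, -, -, hmul, hsum⟩ := h1 W
  have hdiff : ∀ ρ : W → Bool, Pos (fun σ => g σ - g (fun v => xor (σ v) (ρ v))) := by
    intro ρ
    obtain ⟨c, hc, hg'⟩ := hg
    refine ⟨fun S => c S * (1 - chi S ρ),
      fun S => mul_nonneg (hc S) (sub_nonneg.2 (GKSAux.chi_le_one S ρ)), fun σ => ?_⟩
    change g σ - g (fun v => xor (σ v) (ρ v)) = ∑ S, c S * (1 - chi S ρ) * chi S σ
    rw [hg' σ, hg' (fun v => xor (σ v) (ρ v)), ← Finset.sum_sub_distrib]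
    refine Finset.sum_congr rfl fun S _ => ?_
    rw [GKSAux.chi_xor]
    ring
  have key : ∀ ρ : W → Bool, 0 ≤ ∑ σ : W → Bool,
      f σ * (g σ - g (fun v => xor (σ v) (ρ v))) * (w σ * w (fun v => xor (σ v) (ρ v))) :=
    fun ρ => hsum _ (hmul _ _ (hmul _ _ hf (hdiff ρ)) (hw ρ))
  have e : (∑ σ : W → Bool, f σ * g σ * w σ) * (∑ σ : W → Bool, w σ)
      - (∑ σ : W → Bool, f σ * w σ) * (∑ σ : W → Bool, g σ * w σ)
      = ∑ ρ : W → Bool, ∑ σ : W → Bool,
      f σ * (g σ - g (fun v => xor (σ v) (ρ v))) * (w σ * w (fun v => xor (σ v) (ρ v))) := by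
    rw [Finset.sum_comm, Finset.sum_mul_sum, Finset.sum_mul_sum, ← Finset.sum_sub_distrib]
    refine Finset.sum_congr rfl fun σ _ => ?_
    rw [← Finset.sum_sub_distrib]
    let E : (W → Bool) ≃ (W → Bool) :=
      { toFun := fun ρ v => xor (σ v) (ρ v)
        invFun := fun ρ v => xor (σ v) (ρ v)
        left_inv := fun ρ => by funext v; simp
        right_inv := fun ρ => by funext v; simp }
    rw [← Equiv.sum_comp E]
    refine Finset.sum_congr rfl fun ρ _ => ?_
    change f σ * g σ * w σ * w (fun v => xor (σ v) (ρ v)) -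
      f σ * w σ * (g (fun v => xor (σ v) (ρ v)) * w (fun v => xor (σ v) (ρ v))) = _
    ring
  have h0 := Finset.sum_nonneg (s := (Finset.univ : Finset (W → Bool))) (fun ρ _ => key ρ)
  rw [← e] at h0
  linarith

end Pool.RCM
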