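import Pool.Agent.H74.RCM.Defs

/-!
# RCM: statements of the rows of the board `rcm` (problem MP_0c55a2_pr)

Each row `XXX` is `def XXXStmt : Prop`; the row theorem is `theorem XXX : XXXStmt`, or with the rows
it uses as hypotheses: `theorem XXX (h1 : YYYStmt) : XXXStmt`.
-/

set_option autoImplicit false

namespace Pool.RCM

open scoped Classical
open Finset

/-- class of a pair of integers -/
def cls (p : ℕ × ℕ) : St := if p = (0, 0) then none else some (p.1 % 2 == 1, p.2 % 2 == 1)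

/-- the functions on spins for which the second Griffiths inequality is proved by duplication -/
def Dbl {W : Type} [Fintype W] (w : (W → Bool) → ℝ) : Prop :=
  ∀ ρ : W → Bool, Pos (fun σ => w σ * w (fun v => xor (σ v) (ρ v)))

/-- the inequality `X Z ≤ S Y` which gives monotonicity in the coupling of `e` -/
def Key {V E : Type} [Fintype V] [Fintype E] (a b : E → V) (J : E → ℝ) (A B : Set V) (e : E) :
    Prop :=
  FS a b J {a e, b e} ∅ (Sepd a b A B) * Zc a b J ∅ ≤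
    FS a b J ∅ ∅ (Sepd a b A B) * Zc a b J {a e, b e}

/-- bracket of the vertex set `Q` -/
noncomputable def Br {V E : Type} [Fintype V] [Fintype E] (a b : E → V) (J : E → ℝ) (x y : V)
    (Q : Finset V) : ℝ :=
  Zc a b (res a b J Qᶜ) ∅ * (Zc a b (res a b J Qᶜ) ∅ * Zc a b J {x, y}
    - Zc a b (res a b J Qᶜ) {x, y} * Zc a b J ∅)

/-- normalisation: partition function of the complement of `Q ∪ {x}` -/
noncomputable def Nx {V E : Type} [Fintype V] [Fintype E] (a b : E → V) (J : E → ℝ) (x : V)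
    (Q : Finset V) : ℝ := Zc a b (res a b J (insert x Q)ᶜ) ∅

/-! ## Part 1: from currents to the finite model -/

/-- CLS. Proof: `∑ t^m/m!` over even `m` is `cosh t`, over odd `m` is `sinh t`
(`Real.hasSum_cosh`, `Real.hasSum_sinh`); products of sums over `ℕ × ℕ`; for `some (false, false)`
subtract the term `(0,0)`: `cosh² - 1 = sinh²`. -/
def CLSStmt : Prop := ∀ (t : ℝ) (s : St), 0 ≤ t →
  HasSum (fun p : ℕ × ℕ => if cls p = s then t ^ p.1 / (p.1).factorial * (t ^ p.2 / (p.2).factorial)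
    else 0) (wst t s)

/-- PIH. Product of nonnegative sums over a finite index set. Proof: induction on the finite type
(`Fintype.induction_empty_option` or reduce to `Fin n` and `Fin.consEquiv`), using
`HasSum.mul_of_nonneg`/`Summable.mul_of_nonneg`. -/
def PIHStmt : Prop := ∀ (E X : Type) [Fintype E] (f : E → X → ℝ) (c : E → ℝ),
  (∀ e x, 0 ≤ f e x) → (∀ e, HasSum (f e) (c e)) →
  HasSum (fun n : E → X => ∏ e, f e (n e)) (∏ e, c e)

/-- GEN. Proof: the function is `∑ ω, if P ω then ∏ e, (if cls (n e) = ω e then g e (n e) else 0)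
else 0` (only `ω = cls ∘ n` contributes); finite sum of `PIH`. -/
def GENStmt : Prop := ∀ (E : Type) [Fintype E] (g : E → ℕ × ℕ → ℝ) (w : E → St → ℝ)
  (P : (E → St) → Prop), (∀ e x, 0 ≤ g e x) →
  (∀ e s, HasSum (fun x => if cls x = s then g e x else 0) (w e s)) →
  HasSum (fun n : E → ℕ × ℕ => if P (fun e => cls (n e)) then ∏ e, g e (n e) else 0)
    (∑ ω : E → St, if P ω then ∏ e, w e (ω e) else 0)

/-- PAR. Sources depend only on parities, the trace is the set of edges whose state is not `none`: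
with `n₁ = fst ∘ n`, `n₂ = snd ∘ n`, `ω = cls ∘ n`. -/
def PARStmt : Prop := ∀ (V E : Type) [Fintype V] [Fintype E] (a b : E → V) (n : E → ℕ × ℕ)
  (S : Finset V),
  (IsSrc a b (fun e => (n e).1) S ↔ IsSrc a b (par1 (fun e => cls (n e))) S) ∧
  (IsSrc a b (fun e => (n e).2) S ↔ IsSrc a b (par2 (fun e => cls (n e))) S) ∧
  tr (fun e => (n e).1) (fun e => (n e).2) = supp (fun e => cls (n e))

/-- TWO. The double sum over pairs of sourceless currents, on any event `D` of the trace, is the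
finite sum `FS`. Proof: CLS, GEN, PAR and the equivalence `(E → ℕ) × (E → ℕ) ≃ (E → ℕ × ℕ)`. -/
def TWOStmt : Prop := ∀ (V E : Type) [Fintype V] [Fintype E] (a b : E → V) (J : E → ℝ)
  (D : Set E → Prop), (∀ e, 0 ≤ J e) →
  HasSum (fun n : (E → ℕ) × (E → ℕ) =>
    if IsSrc a b n.1 ∅ ∧ IsSrc a b n.2 ∅ ∧ D (tr n.1 n.2) then wt J n.1 * wt J n.2 else 0)
    (FS a b J ∅ ∅ D)

/-- SQ. Proof: sum over the fibres of `ω ↦ (par1 ω, par2 ω)`; the fibre `(false,false)` of one edge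
has weight `1 + sinh² = cosh²`. -/
def SQStmt : Prop := ∀ (V E : Type) [Fintype V] [Fintype E] (a b : E → V) (J : E → ℝ)
  (S₁ S₂ : Finset V), FS a b J S₁ S₂ (fun _ => True) = Zc a b J S₁ * Zc a b J S₂

/-- ZZC. `ZZ = Zc ∅` for `J ≥ 0`. Proof: one edge: `∑_{m even} t^m/m! = cosh t`, `∑_{m odd} = sinh`;
product over edges by PIH as in GEN (with parity classes `Bool`). -/
def ZZCStmt : Prop := ∀ (V E : Type) [Fintype V] [Fintype E] (a b : E → V) (J : E → ℝ),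
  (∀ e, 0 ≤ J e) → ZZ a b J = Zc a b J ∅

/-- NNG. Signs for `J ≥ 0`. -/
def NNGStmt : Prop := ∀ (V E : Type) [Fintype V] [Fintype E] (a b : E → V) (J : E → ℝ),
  (∀ e, 0 ≤ J e) → 0 < Zc a b J ∅ ∧ (∀ S, 0 ≤ Zc a b J S) ∧ (∀ S₁ S₂ D, 0 ≤ FS a b J S₁ S₂ D) ∧
  (∀ A T, 0 ≤ cA a b J A T) ∧ (∀ S₁ S₂ (D D' : Set E → Prop), (∀ s, D s → D' s) →
    FS a b J S₁ S₂ D ≤ FS a b J S₁ S₂ D')

/-- FIN. Proof: TWO for `D = Link`, ZZC, SQ (total mass `Zc ∅ ^ 2`), and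
`FS True = FS Link + FS Sepd`. -/
def FINStmt : Prop := ∀ (V E : Type) [Fintype V] [Fintype E] (a b : E → V) (J : E → ℝ)
  (A B : Set V), (∀ e, 0 ≤ J e) →
  PP a b J A B = 1 - FS a b J ∅ ∅ (Sepd a b A B) / Zc a b J ∅ ^ 2

/-! ## Part 2: one edge -/

/-- HSK. Handshake: a set `C` of vertices not crossed by open edges contains an even number of
sources. Proof: `∑ v ∈ C, deg v` is even, since each edge contributes `0` or `2 n e`. -/
def HSKStmt : Prop := ∀ (V E : Type) [Fintype V] [Fintype E] (a b : E → V) (n : E → ℕ)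
  (S C : Finset V), IsSrc a b n S → (∀ e, 0 < n e → (a e ∈ C ↔ b e ∈ C)) → Even (S ∩ C).card

/-- HS2. Two sources are connected. Proof: HSK with `C` the cluster of `x`. -/
def HS2Stmt : Prop := ∀ (V E : Type) [Fintype V] [Fintype E] (a b : E → V) (n : E → ℕ)
  (x y : V), x ≠ y → IsSrc a b n {x, y} → Conn a b {e | 0 < n e} x y

/-- SPL. Split according to the state of `e` (for `ω e = some _` remove the edge: the sources change
by the symmetric difference with `{a e, b e}`). In `FS (upd J e 0)` only `ω e = none` has weight. -/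
def SPLStmt : Prop := ∀ (V E : Type) [Fintype V] [Fintype E] (a b : E → V) (J : E → ℝ) (e : E)
  (S₁ S₂ : Finset V) (D : Set E → Prop), a e ≠ b e →
  FS a b J S₁ S₂ D = FS a b (upd J e 0) S₁ S₂ D
    + Real.sinh (J e) ^ 2 * FS a b (upd J e 0) S₁ S₂ (fun s => D (insert e s))
    + Real.sinh (J e) * Real.cosh (J e) *
      FS a b (upd J e 0) (symmDiff S₁ {a e, b e}) S₂ (fun s => D (insert e s))
    + Real.sinh (J e) * Real.cosh (J e) *
      FS a b (upd J e 0) S₁ (symmDiff S₂ {a e, b e}) (fun s => D (insert e s))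
    + Real.sinh (J e) ^ 2 *
      FS a b (upd J e 0) (symmDiff S₁ {a e, b e}) (symmDiff S₂ {a e, b e})
        (fun s => D (insert e s))

/-- SPZ. The same for `Zc`. -/
def SPZStmt : Prop := ∀ (V E : Type) [Fintype V] [Fintype E] (a b : E → V) (J : E → ℝ) (e : E)
  (S : Finset V), a e ≠ b e →
  Zc a b J S = Real.cosh (J e) * Zc a b (upd J e 0) S
    + Real.sinh (J e) * Zc a b (upd J e 0) (symmDiff S {a e, b e})

/-- SYM. Exchange of the two currents. -/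
def SYMStmt : Prop := ∀ (V E : Type) [Fintype V] [Fintype E] (a b : E → V) (J : E → ℝ)
  (S₁ S₂ : Finset V) (D : Set E → Prop), FS a b J S₁ S₂ D = FS a b J S₂ S₁ D

/-- INS. If the end points of `e` are sources, opening `e` does not change connections (HS2). -/
def INSStmt : Prop := ∀ (V E : Type) [Fintype V] [Fintype E] (a b : E → V) (J : E → ℝ) (e : E)
  (S₁ S₂ : Finset V) (A B : Set V), a e ≠ b e → (S₁ = {a e, b e} ∨ S₂ = {a e, b e}) →
  FS a b J S₁ S₂ (fun s => Sepd a b A B (insert e s)) = FS a b J S₁ S₂ (Sepd a b A B)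

/-- DRZ. Proof: SPZ for `upd J e s`; `upd (upd J e s) e 0 = upd J e 0`. -/
def DRZStmt : Prop := ∀ (V E : Type) [Fintype V] [Fintype E] (a b : E → V) (J : E → ℝ) (e : E)
  (t : ℝ), a e ≠ b e →
  HasDerivAt (fun s => Zc a b (upd J e s) ∅) (Zc a b (upd J e t) {a e, b e}) t

/-- DRF. Proof: SPL for `upd J e s` with sources `∅, ∅`, and SPL with sources `{a e, b e}, ∅`,
INS and SYM: with `F0 = FS (upd J e 0) ∅ ∅ (D ∘ insert e)`, `F1 = FS (upd J e 0) {x,y} ∅ D`,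
`F3 = FS (upd J e 0) {x,y} {x,y} D`: `F = const + sinh² F0 + 2 sinh cosh F1 + sinh² F3` and
`FS {x,y} ∅ = cosh² F1 + sinh² F1 + sinh cosh (F0 + F3)`. -/
def DRFStmt : Prop := ∀ (V E : Type) [Fintype V] [Fintype E] (a b : E → V) (J : E → ℝ) (e : E)
  (A B : Set V) (t : ℝ), a e ≠ b e →
  HasDerivAt (fun s => FS a b (upd J e s) ∅ ∅ (Sepd a b A B))
    (2 * FS a b (upd J e t) {a e, b e} ∅ (Sepd a b A B)) t

/-- MON. Proof: FIN; the derivative of `FS/Zc²` is `2 (X Z - S Y)/Z³ ≤ 0`. -/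
def MONStmt : Prop := ∀ (V E : Type) [Fintype V] [Fintype E] (a b : E → V) (J : E → ℝ) (e : E)
  (A B : Set V), a e ≠ b e → (∀ f, 0 ≤ J f) → (∀ t, 0 ≤ t → Key a b (upd J e t) A B e) →
  MonotoneOn (fun t => PP a b (upd J e t) A B) (Set.Ici 0)

/-- BRI. A bridge. Proof: SPL and SPZ for both sides; all terms with sources `{x, y}` in a current
on the other edges vanish (HS2), so with `F0 = FS (upd J e 0) ∅ ∅ D`,
`F1 = FS (upd J e 0) ∅ ∅ (D ∘ insert e) ≤ F0`: `X = sinh cosh F1`, `S = F0 + sinh² F1`,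
`Z = cosh Z0`, `Y = sinh Z0`. -/
def BRIStmt : Prop := ∀ (V E : Type) [Fintype V] [Fintype E] (a b : E → V) (J : E → ℝ) (e : E)
  (A B : Set V), (∀ f, 0 ≤ J f) → Bridge a b e → Key a b J A B e

/-! ## Part 3: spins and Griffiths inequalities -/

/-- SPN. Proof: `exp (J s) = cosh J + s sinh J` for `s = ±1`; expand the product over edges;
`∑ σ, chi S σ * ∏_{e ∈ η} sp σ (a e) * sp σ (b e) = 2^|V|` if the sources of `η` are `S`, else `0`. -/
def SPNStmt : Prop := ∀ (V E : Type) [Fintype V] [Fintype E] (a b : E → V) (J : E → ℝ)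
  (S : Finset V),
  ∑ σ : V → Bool, chi S σ * Real.exp (Ham a b J σ) = 2 ^ Fintype.card V * Zc a b J S

/-- PO0. Fourier inversion on `{-1,1}^W`. -/
def PO0Stmt : Prop := ∀ (W : Type) [Fintype W] (f : (W → Bool) → ℝ),
  Pos f ↔ ∀ S : Finset W, 0 ≤ ∑ σ : W → Bool, f σ * chi S σ

/-- PO1. Closure properties (`chi S * chi T = chi (symmDiff S T)`; for the sum,
`∑ σ, chi S σ = 0` unless `S = ∅`). -/
def PO1Stmt : Prop := ∀ (W : Type) [Fintype W],
  (∀ c : ℝ, 0 ≤ c → Pos (fun _ : W → Bool => c)) ∧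
  (∀ S : Finset W, Pos (chi S)) ∧
  (∀ f g : (W → Bool) → ℝ, Pos f → Pos g → Pos (fun σ => f σ + g σ)) ∧
  (∀ f g : (W → Bool) → ℝ, Pos f → Pos g → Pos (fun σ => f σ * g σ)) ∧
  (∀ f : (W → Bool) → ℝ, Pos f → 0 ≤ ∑ σ : W → Bool, f σ)

/-- PO2. `exp` (limit of the partial sums, by PO0 and PO1), finite products and sums. -/
def PO2Stmt : Prop := ∀ (W : Type) [Fintype W],
  (∀ f : (W → Bool) → ℝ, Pos f → Pos (fun σ => Real.exp (f σ))) ∧
  (∀ (ι : Type) (s : Finset ι) (f : ι → (W → Bool) → ℝ), (∀ i ∈ s, Pos (f i)) →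
    Pos (fun σ => ∏ i ∈ s, f i σ)) ∧
  (∀ (ι : Type) (s : Finset ι) (f : ι → (W → Bool) → ℝ), (∀ i ∈ s, Pos (f i)) →
    Pos (fun σ => ∑ i ∈ s, f i σ))

/-- DBL. `chi T (σ xor ρ) = chi T σ * chi T ρ`; `H σ + H (σ xor ρ) = ∑ c_T (1 + chi T ρ) chi T σ`;
`(1 + χ)(1 + χ χ(ρ))` is `2 (1 + χ)` or `0`. -/
def DBLStmt : Prop := ∀ (W : Type) [Fintype W],
  (∀ H : (W → Bool) → ℝ, Pos H → Dbl (fun σ => Real.exp (H σ))) ∧
  (∀ T : Finset W, Dbl (fun σ => 1 + chi T σ)) ∧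
  (∀ w₁ w₂ : (W → Bool) → ℝ, Dbl w₁ → Dbl w₂ → Dbl (fun σ => w₁ σ * w₂ σ))

/-- GKS. Second Griffiths inequality. Proof: the difference is
`∑_{σ,σ'} f σ (g σ - g σ') w σ w σ'`; put `σ' = σ xor ρ`; for fixed `ρ` the summand is `Pos` in `σ`,
since `g σ - g (σ xor ρ) = ∑ g_T (1 - chi T ρ) chi T σ`. -/
def GKSStmt : Prop := ∀ (W : Type) [Fintype W] (w f g : (W → Bool) → ℝ), Dbl w → Pos f → Pos g →
  (∑ σ : W → Bool, f σ * w σ) * (∑ σ : W → Bool, g σ * w σ) ≤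
    (∑ σ : W → Bool, f σ * g σ * w σ) * (∑ σ : W → Bool, w σ)

/-- GL1. Gluing two copies: only `σ ∘ inl = σ ∘ inr` contributes, with factor `2^|V|`. -/
def GL1Stmt : Prop := ∀ (V : Type) [Fintype V] (F : (V ⊕ V → Bool) → ℝ),
  ∑ σ : V ⊕ V → Bool, (∏ v : V, (1 + sp σ (Sum.inl v) * sp σ (Sum.inr v))) * F σ =
    2 ^ Fintype.card V * ∑ τ : V → Bool, F (Sum.elim τ τ)

/-- GLU. Parallel composition of couplings: `λ(J) ≥ (λ(J₁) + λ(J₂)) / (1 + λ(J₁) λ(J₂))` if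
`J₁ + J₂ ≤ J`. Proof: GKS on `W = V ⊕ V` (write `σ, σ'` for the two copies) with
`w = (1 + σ_x σ_y σ'_x σ'_y) exp (Ham J₁ σ + Ham J₂ σ')`, `f = σ_x σ_y`,
`g = ∏_v (1 + σ_v σ'_v) * exp (∑_e (J - J₁ - J₂)_e σ_{a e} σ_{b e})`; SPN for the four sums
(`Σ w`, `Σ f w` factorise over the copies; `Σ g w`, `Σ f g w` by GL1, where the factor
`1 + σ_x σ_y σ'_x σ'_y` becomes `2`). -/
def GLUStmt : Prop := ∀ (V E : Type) [Fintype V] [Fintype E] (a b : E → V) (J J₁ J₂ : E → ℝ)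
  (x y : V), x ≠ y → (∀ e, 0 ≤ J₁ e) → (∀ e, 0 ≤ J₂ e) → (∀ e, J₁ e + J₂ e ≤ J e) →
  Zc a b J ∅ * (Zc a b J₁ {x, y} * Zc a b J₂ ∅ + Zc a b J₁ ∅ * Zc a b J₂ {x, y}) ≤
    Zc a b J {x, y} * (Zc a b J₁ ∅ * Zc a b J₂ ∅ + Zc a b J₁ {x, y} * Zc a b J₂ {x, y})

/-- DOM. Proof: GLU with `J₂ = 0`. -/
def DOMStmt : Prop := ∀ (V E : Type) [Fintype V] [Fintype E] (a b : E → V) (J J₁ : E → ℝ)
  (x y : V), x ≠ y → (∀ e, 0 ≤ J₁ e) → (∀ e, J₁ e ≤ J e) →
  Zc a b J₁ {x, y} * Zc a b J ∅ ≤ Zc a b J {x, y} * Zc a b J₁ ∅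

/-- CSX. Proof: SPN; `Ham J = Ham J' + h` with `J' = res J {x}ᶜ`; with `f = exp (Ham J')` and
`u = exp h`: `2^|V| (Zc ∅ + Zc {x,y}) = 2 ∑_{σ_x = σ_y} f u`,
`2^|V| (Zc ∅ - Zc {x,y}) = 2 ∑_{σ_x ≠ σ_y} f u = 2 ∑_{σ_x = σ_y} f u⁻¹` (flip `σ_x`: `f` does not
change, `u` becomes `u⁻¹`), `2^|V| Zc J' ∅ = 2 ∑_{σ_x = σ_y} f`; Cauchy-Schwarz. No loops at `x`. -/
def CSXStmt : Prop := ∀ (V E : Type) [Fintype V] [Fintype E] (a b : E → V) (J : E → ℝ)
  (x y : V), x ≠ y → (∀ e, a e ≠ b e) →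
  Zc a b (res a b J ({x} : Finset V)ᶜ) ∅ ^ 2 ≤ Zc a b J ∅ ^ 2 - Zc a b J {x, y} ^ 2

/-! ## Part 4: exploration of clusters -/

/-- EXP. Exploration of the cluster of `A`. Proof: if `Cl A = T`, the edges between `T` and `Tᶜ` are
closed; restrict the configuration to `Ein T` and to `Ein Tᶜ` (bijection with pairs; the weights
multiply; the configurations of `FS (res J Tᶜ)` with nonzero weight have support in `Ein Tᶜ`).
If `S = {x, y}` and `y ∈ T`, both sides are `0` (HS2 on the left). -/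
def EXPStmt : Prop := ∀ (V E : Type) [Fintype V] [Fintype E] (a b : E → V) (J : E → ℝ)
  (A : Set V) (T S : Finset V) (D : Set E → Prop),
  (S = ∅ ∨ ∃ x y, x ≠ y ∧ x ∉ T ∧ S = {x, y}) →
  FS a b J S ∅ (fun s => Cl a b A s = T ∧ D (s ∩ Ein a b Tᶜ)) =
    cA a b J A T * FS a b (res a b J Tᶜ) S ∅ D

/-- TOU. An edge which touches `A ∪ B`. Proof: let `x` be an end point of `e` in `A` (or in `B`,
symmetric). `Sepd` is `Cl B ∩ A = ∅`; EXP for the cluster `T` of `B` (`x ∉ T`), SQ: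
`X = ∑ b(T) Zc(res Tᶜ){x,y} Zc(res Tᶜ)∅`, `S = ∑ b(T) Zc(res Tᶜ)∅ ^ 2`; DOM. -/
def TOUStmt : Prop := ∀ (V E : Type) [Fintype V] [Fintype E] (a b : E → V) (J : E → ℝ) (e : E)
  (A B : Set V), a e ≠ b e → (∀ f, 0 ≤ J f) → (a e ∈ A ∪ B ∨ b e ∈ A ∪ B) → Key a b J A B e

/-- CAR. `cA` of the restricted couplings. Proof: for `ω` with support in `Ein T` the weights agree
if `T ∩ S = ∅`. If `v ∈ T ∩ S`, then `v ∉ B`, so some open edge has end point `v` and its restricted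
coupling is `0`, weight `0`. -/
def CARStmt : Prop := ∀ (V E : Type) [Fintype V] [Fintype E] (a b : E → V) (J : E → ℝ)
  (B : Set V) (S T : Finset V), (∀ v ∈ B, v ∉ S) →
  cA a b (res a b J Sᶜ) B T = if Disjoint S T then cA a b J B T else 0

/-- RES. Restriction twice; `cA` vanishes unless `A ⊆ T`. -/
def RESStmt : Prop := ∀ (V E : Type) [Fintype V] [Fintype E] (a b : E → V) (J : E → ℝ),
  (∀ S T : Finset V, res a b (res a b J Sᶜ) Tᶜ = res a b J (S ∪ T)ᶜ) ∧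
  (∀ (A : Set V) (T : Finset V), (∃ v ∈ A, v ∉ T) → cA a b J A T = 0)

/-- DE1. Proof: `Sepd ∧ x ∉ Cl B` is the disjoint union of the events `Cl B = T` with `x ∉ T`,
`A ∩ T = ∅`; EXP with `D = True`. -/
def DE1Stmt : Prop := ∀ (V E : Type) [Fintype V] [Fintype E] (a b : E → V) (J : E → ℝ)
  (A B : Set V) (x : V) (S : Finset V), (S = ∅ ∨ ∃ y, x ≠ y ∧ S = {x, y}) →
  FS a b J S ∅ (fun s => Sepd a b A B s ∧ x ∉ Cl a b B s) =
    ∑ T : Finset V, if x ∉ T ∧ ∀ v ∈ A, v ∉ T then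
      cA a b J B T * FS a b (res a b J Tᶜ) S ∅ (fun _ => True) else 0

/-- DE2. Proof: sum over the value `Q` of `Cl A` (`x ∉ Q`, `B ∩ Q = ∅`): on `Cl A = Q` one has
`Cl B s = Cl B (s ∩ Ein Qᶜ)`; EXP with `D s = (x ∉ Cl B s)`; then DE1 for the couplings `res J Qᶜ`
with `A` empty; CAR, RES. -/
def DE2Stmt : Prop := ∀ (V E : Type) [Fintype V] [Fintype E] (a b : E → V) (J : E → ℝ)
  (A B : Set V) (x : V) (S : Finset V), (S = ∅ ∨ ∃ y, x ≠ y ∧ S = {x, y}) →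
  FS a b J S ∅ (fun s => Sepd a b A B s ∧ x ∉ Cl a b A s ∧ x ∉ Cl a b B s) =
    ∑ Q : Finset V, ∑ T : Finset V, if x ∉ Q ∧ x ∉ T ∧ Disjoint Q T then
      cA a b J A Q * cA a b J B T * FS a b (res a b J (Q ∪ T)ᶜ) S ∅ (fun _ => True) else 0

/-- DEC. Inclusion-exclusion: on `Sepd` the vertex `x` is not in both clusters. Proof: DE1 for
`(A, B)` and `(B, A)`, DE2. -/
def DECStmt : Prop := ∀ (V E : Type) [Fintype V] [Fintype E] (a b : E → V) (J : E → ℝ)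
  (A B : Set V) (x : V) (S : Finset V), (S = ∅ ∨ ∃ y, x ≠ y ∧ S = {x, y}) →
  FS a b J S ∅ (Sepd a b A B) =
    (∑ T : Finset V, if x ∉ T ∧ ∀ v ∈ A, v ∉ T then
      cA a b J B T * FS a b (res a b J Tᶜ) S ∅ (fun _ => True) else 0)
    + (∑ Q : Finset V, if x ∉ Q ∧ ∀ v ∈ B, v ∉ Q then
      cA a b J A Q * FS a b (res a b J Qᶜ) S ∅ (fun _ => True) else 0)
    - ∑ Q : Finset V, ∑ T : Finset V, if x ∉ Q ∧ x ∉ T ∧ Disjoint Q T then
      cA a b J A Q * cA a b J B T * FS a b (res a b J (Q ∪ T)ᶜ) S ∅ (fun _ => True) else 0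

/-- MAR. Proof: `Nx Q ^ 2 = FS (res J (insert x Q)ᶜ) ∅ ∅ True` (SQ) is the sum over the values `T` of
`Cl B`; EXP, CAR (for `B` disjoint from `insert x Q`; otherwise, the left side is `0` by RES),
RES; the other terms are nonnegative (NNG). -/
def MARStmt : Prop := ∀ (V E : Type) [Fintype V] [Fintype E] (a b : E → V) (J : E → ℝ)
  (B : Set V) (x : V) (Q : Finset V), (∀ e, 0 ≤ J e) →
  ∑ T : Finset V, (if x ∉ T ∧ Disjoint Q T then cA a b J B T * Nx a b J x (Q ∪ T) ^ 2 else 0) ≤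
    Nx a b J x Q ^ 2

/-! ## Part 5: a unique free edge -/

/-- ALG. Real algebra. Proof: `λ ≥ p, r`; so `α (1 + k p)(λ - p) ≥ (λ - p)/(1 - p²)`, same for `r`;
`(λ - p)/(1 - p²) + (λ - r)/(1 - r²) - λ` is nondecreasing in `λ` and `0` at
`λ = (p + r)/(1 + p r)`. -/
def ALGStmt : Prop := ∀ α β p r k l : ℝ, 0 ≤ p → p < 1 → 0 ≤ r → r < 1 → 0 ≤ k →
  1 ≤ α * (1 - p ^ 2) → 1 ≤ β * (1 - r ^ 2) → p + r ≤ l * (1 + p * r) →
  l ≤ α * (1 + k * p) * (l - p) + β * (1 + k * r) * (l - r)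

/-- NBR. Proof: let `y = b e`, `x = a e`, `K = J e`. If `y ∈ S` (or `y ∈ T`): no edge in the
complement of `S ∪ T`, so `Br (S ∪ T) / Nx² = Zc J {x,y}`, and `Br S = Zc(res Sᶜ)∅ ^ 2 * Zc J {x,y}`,
`Zc (res Sᶜ) ∅ ≥ Nx S` (more edges). `Br T ≥ 0` by DOM.
If `y ∉ S ∪ T`: the only edge in the complement of `S ∪ T` is `e`: `Zc (res (S∪T)ᶜ) ∅ = cosh K`,
`Zc (res (S∪T)ᶜ) {x,y} = sinh K`, `Nx (S∪T) = 1`. Put `J⁰ = upd J e 0`,
`p = Zc(res J⁰ Sᶜ){x,y}/Zc(res J⁰ Sᶜ)∅`, `r` for `T`, `l = Zc J⁰ {x,y}/Zc J⁰ ∅`,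
`α = (Zc(res J⁰ Sᶜ)∅ / Nx S)²`, `β` for `T`, `k = tanh K`. SPZ gives
`Br S / Nx S ^ 2 = cosh K * Zc J⁰ ∅ * α (1 + k p) (l - p)`, same for `T`, and
`Br (S∪T) = cosh K * Zc J⁰ ∅ * l`; CSX (for `res J⁰ Sᶜ`), GLU (`J₁ = res J⁰ Sᶜ`,
`J₂ = res J⁰ Tᶜ`), ALG. -/
def NBRStmt : Prop := ∀ (V E : Type) [Fintype V] [Fintype E] (a b : E → V) (J : E → ℝ) (e : E)
  (S T : Finset V), (∀ f, a f ≠ b f) → (∀ f, 0 ≤ J f) → Disjoint S T → a e ∉ S → a e ∉ T →
  (∀ f, f ≠ e → a f ∈ S ∪ T ∨ b f ∈ S ∪ T) →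
  Br a b J (a e) (b e) (S ∪ T) / Nx a b J (a e) (S ∪ T) ^ 2 ≤
    Br a b J (a e) (b e) S / Nx a b J (a e) S ^ 2 + Br a b J (a e) (b e) T / Nx a b J (a e) T ^ 2

/-- UNI. Proof: DEC for `S = {x, y}` and `S = ∅` (`x = a e`), SQ: `S Y - X Z` is
`∑_Q a(Q) Br(Q) + ∑_T b(T) Br(T) - ∑_{Q,T} a(Q) b(T) Br(Q ∪ T)` over the sets of DEC.
By MAR, `a(Q) Br(Q) ≥ a(Q) Br(Q) / Nx(Q)² * ∑_T b(T) Nx(Q ∪ T)²` (`Br Q ≥ 0` by DOM), same with
the roles exchanged; so the difference is at least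
`∑_{Q,T} a(Q) b(T) Nx(Q∪T)² (Br Q/Nx Q² + Br T/Nx T² - Br(Q∪T)/Nx(Q∪T)²) ≥ 0` by NBR (only the
terms with `A ⊆ Q`, `B ⊆ T` are nonzero, RES; for these the hypothesis of NBR holds). -/
def UNIStmt : Prop := ∀ (V E : Type) [Fintype V] [Fintype E] (a b : E → V) (J : E → ℝ) (e : E)
  (A B : Set V), (∀ f, a f ≠ b f) → (∀ f, 0 ≤ J f) →
  (∀ f, f ≠ e → a f ∈ A ∪ B ∨ b f ∈ A ∪ B) → Key a b J A B e

/-! ## Part 6: reduction and assembly -/

/-- RED. Proof: with `A' = {v | ¬ Path A B v} ⊇ A` and `B' = {v | ¬ Path B A v} \ A'`. Given a path in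
`s` from `u ∈ A'` to `v ∈ B'`: if `v ∈ B`: the path hits `A` (either `u ∈ A` or there is no path from
`u` to `B` avoiding `A`), so `Link A B s`. If `v ∉ B`: `v` has no path to `A` avoiding `B`, and `v`
has a path to `B` avoiding `A`; if `u ∉ A`, then the path from `u` to `v` hits `A` (otherwise `u` has
a path to `B` avoiding `A`); so in both cases `v` is joined in `s` to a vertex of `A`, and this path
hits `B`. Conversely `A ⊆ A'` and `B ⊆ B'` (`A`, `B` disjoint). -/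
def REDStmt : Prop := ∀ (V E : Type) [Fintype V] [Fintype E] (a b : E → V) (A B : Set V)
  (s : Set E), Disjoint A B →
  (Link a b A B s ↔
    Link a b {v | ¬ Path a b A B v} ({v | ¬ Path a b B A v} \ {v | ¬ Path a b A B v}) s)

/-- MAI. Proof: if `A ∩ B ≠ ∅` then `Sepd` is empty. Otherwise RED (`Sepd A B = Sepd A' B'`); a
vertex outside `A' ∪ B'` is in `Free A B`; TOU, BRI, UNI for `(A', B')`. -/
def MAIStmt : Prop := ∀ (V E : Type) [Fintype V] [Fintype E] (a b : E → V) (J : E → ℝ) (e : E)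
  (A B : Set V), (∀ f, a f ≠ b f) → (∀ f, 0 ≤ J f) → Good a b A B e → Key a b J A B e

/-- TH1: monotone in the coupling of a good edge (MON, MAI). -/
def TH1Stmt : Prop := ∀ (V E : Type) [Fintype V] [Fintype E] (a b : E → V) (J : E → ℝ) (e : E)
  (A B : Set V), (∀ f, a f ≠ b f) → (∀ f, 0 ≤ J f) → Good a b A B e →
  MonotoneOn (fun t => PP a b (upd J e t) A B) (Set.Ici 0)

/-- TH2: couplings raised on good edges only (TH1, one edge at a time: induction on the finite set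
of edges where `J ≠ J'`). -/
def TH2Stmt : Prop := ∀ (V E : Type) [Fintype V] [Fintype E] (a b : E → V) (J J' : E → ℝ)
  (A B : Set V), (∀ f, a f ≠ b f) → (∀ f, 0 ≤ J f) → (∀ f, J f ≤ J' f) →
  (∀ f, J f ≠ J' f → Good a b A B f) → PP a b J A B ≤ PP a b J' A B

end Pool.RCM
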